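import Mathlib
set_option autoImplicit false
namespace PLS
open Polynomial

namespace SR36822

variable {L : Type*} [CommRing L]

/-- shift `p ↦ p (x + z h)` -/
noncomputable def sh (h : L[X]) : L[X] →+* L[X][X] := eval₂RingHom (C.comp C) (C X + X * C h)

/-- `f (x + z h) = f (x) Γ (z)` -/
def PP (f : Fin 3 → L[X]) (h : L[X]) : Prop :=
  ∃ Γ : Matrix (Fin 3) (Fin 3) (L[X][X]), Γ.det = 1 ∧
      Γ.map (Polynomial.eval 0) = 1 ∧ ∀ i, ∑ k, C (f k) * Γ k i = sh h (f i)

theorem euclid_aux {K : Type*} [Field K] (φ : L →+* K) (hφ : Function.Surjective φ) (n : ℕ) :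
    ∀ f : Fin 3 → L[X], ((f 2).map φ).degree < (n : WithBot ℕ) →
    ∃ ε δ : Matrix (Fin 3) (Fin 3) L[X], ε.det = 1 ∧ δ.det = 1 ∧ ε * δ = 1 ∧
      (Matrix.vecMul f ε) 0 = f 0 ∧ ((Matrix.vecMul f ε) 2).map φ = 0 := by
  induction n with
  | zero =>
    intro f hf
    have h0 : (f 2).map φ = 0 := by
      by_contra hne
      rw [Polynomial.degree_eq_natDegree hne] at hf
      exact absurd (WithBot.coe_lt_coe.1 hf) (Nat.not_lt_zero _)
    exact ⟨1, 1, Matrix.det_one, Matrix.det_one, by rw [mul_one], by rw [Matrix.vecMul_one],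
      by rw [Matrix.vecMul_one]; exact h0⟩
  | succ n ih =>
    intro f hf
    by_cases h0 : (f 2).map φ = 0
    · exact ⟨1, 1, Matrix.det_one, Matrix.det_one, by rw [mul_one], by rw [Matrix.vecMul_one],
        by rw [Matrix.vecMul_one]; exact h0⟩
    obtain ⟨q, hq⟩ := Polynomial.map_surjective φ hφ ((f 1).map φ / (f 2).map φ)
    let ε₁ : Matrix (Fin 3) (Fin 3) L[X] := !![1, 0, 0; 0, 0, -1; 0, 1, q]
    let δ₁ : Matrix (Fin 3) (Fin 3) L[X] := !![1, 0, 0; 0, q, 1; 0, -1, 0]
    have he : ε₁.det = 1 := by simp [ε₁, Matrix.det_fin_three]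
    have hd : δ₁.det = 1 := by simp [δ₁, Matrix.det_fin_three]
    have hed : ε₁ * δ₁ = 1 := by
      ext i j
      fin_cases i <;> fin_cases j <;> simp [ε₁, δ₁, Matrix.mul_apply, Fin.sum_univ_three]
    have v0 : Matrix.vecMul f ε₁ 0 = f 0 := by
      simp [ε₁, Matrix.vecMul, dotProduct, Fin.sum_univ_three]
    have v2 : Matrix.vecMul f ε₁ 2 = q * f 2 - f 1 := by
      simp [ε₁, Matrix.vecMul, dotProduct, Fin.sum_univ_three]
      ring
    have hr : (Matrix.vecMul f ε₁ 2).map φ = -((f 1).map φ % (f 2).map φ) := by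
      rw [v2, Polynomial.map_sub, Polynomial.map_mul, hq]
      have := EuclideanDomain.div_add_mod ((f 1).map φ) ((f 2).map φ)
      linear_combination this
    have hlt : ((Matrix.vecMul f ε₁ 2).map φ).degree < (n : WithBot ℕ) := by
      rw [hr, Polynomial.degree_neg]
      refine lt_of_lt_of_le (Polynomial.degree_mod_lt _ h0) ?_
      rw [Polynomial.degree_eq_natDegree h0] at hf ⊢
      have := WithBot.coe_lt_coe.1 hf
      exact WithBot.coe_le_coe.2 (Nat.lt_succ_iff.1 this)
    obtain ⟨ε₂, δ₂, a1, a2, a3, a4, a5⟩ := ih (Matrix.vecMul f ε₁) hlt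
    refine ⟨ε₁ * ε₂, δ₂ * δ₁, ?_, ?_, ?_, ?_, ?_⟩
    · rw [Matrix.det_mul, he, a1, one_mul]
    · rw [Matrix.det_mul, hd, a2, one_mul]
    · calc ε₁ * ε₂ * (δ₂ * δ₁) = ε₁ * (ε₂ * δ₂) * δ₁ := by simp only [Matrix.mul_assoc]
        _ = 1 := by rw [a3, Matrix.mul_one, hed]
    · rw [← Matrix.vecMul_vecMul, a4, v0]
    · rw [← Matrix.vecMul_vecMul, a5]

/-- Euclid modulo a maximal ideal, on the last two entries -/
theorem euclid (m : Ideal L) (hm : m.IsMaximal) (f : Fin 3 → L[X]) :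
    ∃ ε δ : Matrix (Fin 3) (Fin 3) L[X], ε.det = 1 ∧ δ.det = 1 ∧ ε * δ = 1 ∧
      (Matrix.vecMul f ε) 0 = f 0 ∧ ((Matrix.vecMul f ε) 2).map (Ideal.Quotient.mk m) = 0 := by
  letI := Ideal.Quotient.field m
  refine euclid_aux (K := L ⧸ m) (Ideal.Quotient.mk m) Ideal.Quotient.mk_surjective
    (((f 2).map (Ideal.Quotient.mk m)).natDegree + 1) f ?_
  refine lt_of_le_of_lt Polynomial.degree_le_natDegree ?_
  exact WithBot.coe_lt_coe.2 (Nat.lt_succ_self _)

theorem nakayama (m : Ideal L) (g : Fin 3 → L[X]) (hm : (g 0).Monic)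
    (hu : Ideal.span (Set.range g) = ⊤) (h2 : (g 2).map (Ideal.Quotient.mk m) = 0) :
    ∃ r : L, r - 1 ∈ m ∧ C r ∈ Ideal.span {g 0, g 1} := by
  have hle : Ideal.span {g 0} ≤ Ideal.span {g 0, g 1} :=
    Ideal.span_mono (by intro x hx; exact Or.inl hx)
  have hfin0 : Module.Finite L (L[X] ⧸ Ideal.span {g 0}) := hm.finite_quotient
  have hfin : Module.Finite L (L[X] ⧸ Ideal.span {g 0, g 1}) :=
    Module.Finite.of_surjective (Ideal.Quotient.factorₐ L hle).toLinearMap
      (Ideal.Quotient.factor_surjective hle)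
  have hco : ∀ j, (g 2).coeff j ∈ m := by
    intro j
    have := congrArg (fun p => Polynomial.coeff p j) h2
    simp only [coeff_map, coeff_zero] at this
    exact Ideal.Quotient.eq_zero_iff_mem.1 this
  have hone : ∃ c : Fin 3 → L[X], ∑ i, c i * g i = 1 := by
    have h1 : (1 : L[X]) ∈ Ideal.span (Set.range g) := by
      rw [hu]
      exact Submodule.mem_top
    rw [Ideal.mem_span_range_iff_exists_fun] at h1
    exact h1
  obtain ⟨c, hc⟩ := hone
  have key : (⊤ : Submodule L (L[X] ⧸ Ideal.span {g 0, g 1})) ≤ m • ⊤ := by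
    intro x _
    obtain ⟨q, rfl⟩ := Ideal.Quotient.mk_surjective x
    have e1 : Ideal.Quotient.mk (Ideal.span {g 0, g 1}) q =
        Ideal.Quotient.mk (Ideal.span {g 0, g 1}) (q * c 2 * g 2) := by
      rw [Ideal.Quotient.eq]
      have e2 : q - q * c 2 * g 2 = q * c 0 * g 0 + q * c 1 * g 1 := by
        have : q = q * (c 0 * g 0 + c 1 * g 1 + c 2 * g 2) := by
          rw [← Fin.sum_univ_three (fun i => c i * g i), hc, mul_one]
        calc q - q * c 2 * g 2 = q * (c 0 * g 0 + c 1 * g 1 + c 2 * g 2) - q * c 2 * g 2 := by rw [← this]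
          _ = _ := by ring
      rw [e2]
      exact Ideal.add_mem _ (Ideal.mul_mem_left _ _ (Ideal.subset_span (by simp)))
        (Ideal.mul_mem_left _ _ (Ideal.subset_span (by simp)))
    rw [e1]
    rw [(g 2).as_sum_range_C_mul_X_pow, Finset.mul_sum, map_sum]
    refine Submodule.sum_mem _ (fun j _ => ?_)
    have e3 : Ideal.Quotient.mk (Ideal.span {g 0, g 1}) (q * c 2 * (C ((g 2).coeff j) * X ^ j)) =
        (g 2).coeff j • Ideal.Quotient.mk (Ideal.span {g 0, g 1}) (q * c 2 * X ^ j) := by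
      rw [← Ideal.Quotient.mk_eq_mk, ← Ideal.Quotient.mk_eq_mk, ← Submodule.Quotient.mk_smul]
      congr 1
      rw [smul_eq_C_mul]
      ring
    rw [e3]
    exact Submodule.smul_mem_smul (hco j) Submodule.mem_top
  obtain ⟨r, hr1, hr2⟩ := Submodule.exists_sub_one_mem_and_smul_eq_zero_of_fg_of_le_smul m
    (⊤ : Submodule L (L[X] ⧸ Ideal.span {g 0, g 1})) Module.Finite.fg_top key
  refine ⟨r, hr1, ?_⟩
  have h3 := hr2 (Ideal.Quotient.mk _ 1) Submodule.mem_top
  have h4 : r • Ideal.Quotient.mk (Ideal.span {g 0, g 1}) 1 =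
      Ideal.Quotient.mk (Ideal.span {g 0, g 1}) (C r) := by
    rw [← Ideal.Quotient.mk_eq_mk, ← Ideal.Quotient.mk_eq_mk, ← Submodule.Quotient.mk_smul]
    congr 1
    rw [smul_eq_C_mul, mul_one]
  rw [h4] at h3
  exact Ideal.Quotient.eq_zero_iff_mem.1 h3

theorem X_mul_zero {S : Type*} [CommRing S] (p : S[X]) (h : X * p = 0) : p = 0 := by
  ext n
  have := congrArg (fun q => coeff q (n + 1)) h
  simpa [coeff_X_mul] using this

/-- formal shift `p ↦ p (x + w)` -/
noncomputable def fs : L[X] →+* L[X][X] := eval₂RingHom (C.comp C) (C X + X)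

theorem fs_spec (p : L[X]) : ∃ g : L[X][X], (fs p : L[X][X]) = C p + X * g := by
  have h1 : (evalRingHom (0 : L[X])).comp (fs : L[X] →+* L[X][X]) = RingHom.id L[X] := by
    apply Polynomial.ringHom_ext
    · intro a
      simp [fs]
    · simp [fs]
  have h2 : eval 0 (fs p) = p := by
    have := RingHom.congr_fun h1 p
    simpa using this
  have h3 : (X : L[X][X]) ∣ fs p - C p := by
    rw [X_dvd_iff, coeff_zero_eq_eval_zero, eval_sub, h2, eval_C, sub_self]
  obtain ⟨g, hg⟩ := h3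
  exact ⟨g, by rw [← hg]; ring⟩

theorem explicit (f : Fin 3 → L[X]) (r : L) (hr : C r ∈ Ideal.span {f 0, f 1}) : PP f (C r) := by
  obtain ⟨u, v, huv⟩ := Ideal.mem_span_pair.1 hr
  obtain ⟨g0, hg0⟩ := fs_spec (f 0)
  obtain ⟨g1, hg1⟩ := fs_spec (f 1)
  obtain ⟨g2, hg2⟩ := fs_spec (f 2)
  obtain ⟨a, ha⟩ := fs_spec u
  obtain ⟨b, hb⟩ := fs_spec v
  have hCr : (fs (C r) : L[X][X]) = C (C r) := by simp [fs]
  have hid : C u * g0 + C v * g1 + a * fs (f 0) + b * fs (f 1) = 0 := by
    apply X_mul_zero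
    have h1 : fs u * fs (f 0) + fs v * fs (f 1) = (C (C r) : L[X][X]) := by
      rw [← map_mul, ← map_mul, ← map_add, huv, hCr]
    have h2 : (C u * C (f 0) + C v * C (f 1) : L[X][X]) = C (C r) := by
      rw [← C_mul, ← C_mul, ← C_add, huv]
    rw [ha, hb] at h1
    have h3 : (C u : L[X][X]) * fs (f 0) + C v * fs (f 1) = C (C r) + X * (C u * g0 + C v * g1) := by
      rw [← h2, hg0, hg1]
      ring
    linear_combination h1 - h3
  let ρ : L[X][X] →+* L[X][X] := eval₂RingHom C (X * C (C r))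
  have hρC : ∀ p : L[X], ρ (C p) = C p := fun p => by simp [ρ]
  have hρX : ρ X = X * C (C r) := by simp [ρ]
  have hρs : ∀ p, ρ (fs p) = sh (C r) p := by
    intro p
    have h1 : ρ.comp fs = sh (C r) := by
      apply Polynomial.ringHom_ext
      · intro a
        simp [fs, sh, ρ]
      · simp [fs, sh, ρ]
    exact RingHom.congr_fun h1 p
  have hsh : ∀ (p : L[X]) (g : L[X][X]), fs p = C p + X * g →
      sh (C r) p = C p + X * C (C r) * ρ g := by
    intro p g h
    rw [← hρs, h, map_add, map_mul, hρC, hρX]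
  have s0 := hsh _ _ hg0
  have s1 := hsh _ _ hg1
  have s2 := hsh _ _ hg2
  have hid2 : C u * ρ g0 + C v * ρ g1 + ρ a * sh (C r) (f 0) + ρ b * sh (C r) (f 1) = 0 := by
    have := congrArg ρ hid
    simpa [map_add, map_mul, hρC, hρs] using this
  have e1 : (C (C r) : L[X][X]) = C u * C (f 0) + C v * C (f 1) := by
    rw [← C_mul, ← C_mul, ← C_add, huv]
  have e3 : (C (C r) : L[X][X]) = sh (C r) u * sh (C r) (f 0) + sh (C r) v * sh (C r) (f 1) := by
    rw [← map_mul, ← map_mul, ← map_add, huv]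
    simp [sh]
  obtain ⟨G0, hG0⟩ : ∃ G, G = ρ g0 := ⟨_, rfl⟩
  obtain ⟨G1, hG1⟩ : ∃ G, G = ρ g1 := ⟨_, rfl⟩
  obtain ⟨G2, hG2⟩ : ∃ G, G = ρ g2 := ⟨_, rfl⟩
  obtain ⟨A, hA⟩ : ∃ G, G = ρ a := ⟨_, rfl⟩
  obtain ⟨B, hB⟩ : ∃ G, G = ρ b := ⟨_, rfl⟩
  rw [← hG0, ← hG1, ← hA, ← hB] at hid2
  rw [← hG0] at s0
  rw [← hG1] at s1
  rw [← hG2] at s2
  obtain ⟨F0', hF0'⟩ : ∃ G, G = sh (C r) (f 0) := ⟨_, rfl⟩
  obtain ⟨F1', hF1'⟩ : ∃ G, G = sh (C r) (f 1) := ⟨_, rfl⟩
  obtain ⟨F2', hF2'⟩ : ∃ G, G = sh (C r) (f 2) := ⟨_, rfl⟩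
  obtain ⟨U', hU'⟩ : ∃ G, G = sh (C r) u := ⟨_, rfl⟩
  obtain ⟨V', hV'⟩ : ∃ G, G = sh (C r) v := ⟨_, rfl⟩
  rw [← hF0', ← hF1'] at hid2 e3
  rw [← hU', ← hV'] at e3
  rw [← hF0'] at s0
  rw [← hF1'] at s1
  rw [← hF2'] at s2
  refine ⟨!![1 + C u * X * G0 + C (f 1) * (X * B), C u * X * G1 + C (f 1) * (-(X * A)),
      (1 + C u * X * G0 + C (f 1) * (X * B)) * (X * G2 * U') +
        (C u * X * G1 + C (f 1) * (-(X * A))) * (X * G2 * V');
      C v * X * G0 - C (f 0) * (X * B), 1 + C v * X * G1 - C (f 0) * (-(X * A)),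
      (C v * X * G0 - C (f 0) * (X * B)) * (X * G2 * U') +
        (1 + C v * X * G1 - C (f 0) * (-(X * A))) * (X * G2 * V');
      0, 0, 1], ?_, ?_, ?_⟩
  · rw [Matrix.det_fin_three]
    simp only [Matrix.of_apply, Matrix.cons_val', Matrix.cons_val_zero, Matrix.cons_val_one,
      Matrix.cons_val, Matrix.head_cons, Matrix.tail_cons, Matrix.empty_val', Matrix.cons_val_fin_one]
    rw [s0, s1] at hid2
    linear_combination X * hid2 - X ^ 2 * (A * G0 + B * G1) * e1
  · ext i j
    fin_cases i <;> fin_cases j <;> simp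
  · intro i
    rw [Fin.sum_univ_three]
    fin_cases i
    · simp only [Matrix.of_apply, Matrix.cons_val', Matrix.cons_val_zero, Matrix.cons_val_one,
        Matrix.cons_val, Matrix.head_cons, Matrix.tail_cons, Matrix.empty_val',
        Matrix.cons_val_fin_one, Fin.zero_eta, Fin.mk_one, Fin.reduceFinMk, Fin.isValue]
      rw [← hF0', s0, e1]
      ring
    · simp only [Matrix.of_apply, Matrix.cons_val', Matrix.cons_val_zero, Matrix.cons_val_one,
        Matrix.cons_val, Matrix.head_cons, Matrix.tail_cons, Matrix.empty_val',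
        Matrix.cons_val_fin_one, Fin.zero_eta, Fin.mk_one, Fin.reduceFinMk, Fin.isValue]
      rw [← hF1', s1, e1]
      ring
    · simp only [Matrix.of_apply, Matrix.cons_val', Matrix.cons_val_zero, Matrix.cons_val_one,
        Matrix.cons_val, Matrix.head_cons, Matrix.tail_cons, Matrix.empty_val',
        Matrix.cons_val_fin_one, Fin.zero_eta, Fin.mk_one, Fin.reduceFinMk, Fin.isValue]
      rw [← hF2', s2]
      have k0 : F0' = C (f 0) + X * (C u * C (f 0) + C v * C (f 1)) * G0 := by rw [s0, e1]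
      have k1 : F1' = C (f 1) + X * (C u * C (f 0) + C v * C (f 1)) * G1 := by rw [s1, e1]
      linear_combination (-(X * G2 * U')) * k0 - (X * G2 * V') * k1 - X * G2 * e3
theorem PP_scale (f : Fin 3 → L[X]) (h k : L[X]) (hf : PP f h) : PP f (h * k) := by
  obtain ⟨Γ, h1, h2, h3⟩ := hf
  let σ : L[X][X] →+* L[X][X] := eval₂RingHom C (X * C k)
  have hσC : ∀ p : L[X], σ (C p) = C p := fun p => by simp [σ]
  have hσe : (evalRingHom (0 : L[X])).comp σ = evalRingHom 0 := by
    apply Polynomial.ringHom_ext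
    · intro a
      simp [σ]
    · simp [σ]
  have hσs : σ.comp (sh h) = sh (h * k) := by
    apply Polynomial.ringHom_ext
    · intro a
      simp [σ, sh]
    · simp only [σ, sh, RingHom.comp_apply, coe_eval₂RingHom, eval₂_X, eval₂_add, eval₂_mul, eval₂_C,
        C_mul]
      ring
  refine ⟨Γ.map σ, ?_, ?_, ?_⟩
  · have := σ.map_det Γ
    rw [h1, map_one] at this
    exact this.symm
  · rw [← h2]
    ext i j
    have := RingHom.congr_fun hσe (Γ i j)
    simp only [RingHom.comp_apply, coe_evalRingHom] at this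
    rw [Matrix.map_apply, Matrix.map_apply, Matrix.map_apply, this]
  · intro i
    have := congrArg σ (h3 i)
    rw [map_sum] at this
    simp only [map_mul, hσC] at this
    have h4 := RingHom.congr_fun hσs (f i)
    rw [RingHom.comp_apply] at h4
    rw [← h4, ← this]
    rfl

theorem PP_add (f : Fin 3 → L[X]) (b c : L) (hb : PP f (C b)) (hc : PP f (C c)) :
    PP f (C (b + c)) := by
  obtain ⟨Γ, h1, h2, h3⟩ := hb
  obtain ⟨Δ, d1, d2, d3⟩ := hc
  let τ : L[X][X] →+* L[X][X] := eval₂RingHom (sh (C b)) X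
  have hτC : ∀ p : L[X], τ (C p) = sh (C b) p := fun p => by simp [τ]
  have hτe : (evalRingHom (0 : L[X])).comp τ = evalRingHom 0 := by
    apply Polynomial.ringHom_ext
    · intro a
      have h : (evalRingHom (0 : L[X])).comp (sh (C b)) = RingHom.id _ := by
        apply Polynomial.ringHom_ext
        · intro a
          simp [sh]
        · simp [sh]
      have := RingHom.congr_fun h a
      simp only [RingHom.comp_apply, coe_evalRingHom, RingHom.id_apply] at this
      simp [τ, this]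
    · simp [τ]
  have hτs : τ.comp (sh (C c)) = sh (C (b + c)) := by
    apply Polynomial.ringHom_ext
    · intro a
      simp [τ, sh]
    · simp only [τ, sh, RingHom.comp_apply, coe_eval₂RingHom, eval₂_X, eval₂_add, eval₂_mul, eval₂_C,
        C_add]
      ring
  refine ⟨Γ * Δ.map τ, ?_, ?_, ?_⟩
  · have := τ.map_det Δ
    rw [d1, map_one] at this
    rw [Matrix.det_mul, h1, one_mul]
    exact this.symm
  · have e : (Γ * Δ.map τ).map (eval 0) = Γ.map (eval 0) * (Δ.map τ).map (eval 0) := by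
      have := Matrix.map_mul (L := Γ) (M := Δ.map τ) (f := evalRingHom (0 : L[X]))
      exact this
    have e2 : (Δ.map τ).map (eval 0) = Δ.map (eval 0) := by
      ext i j
      have := RingHom.congr_fun hτe (Δ i j)
      simp only [RingHom.comp_apply, coe_evalRingHom] at this
      rw [Matrix.map_apply, Matrix.map_apply, Matrix.map_apply, this]
    rw [e, e2, h2, d2, one_mul]
  · intro i
    have h4 := RingHom.congr_fun hτs (f i)
    rw [RingHom.comp_apply, ← d3 i, map_sum] at h4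
    simp only [map_mul, hτC] at h4
    rw [← h4]
    simp only [Matrix.mul_apply, Matrix.map_apply, Finset.mul_sum]
    rw [Finset.sum_comm]
    refine Finset.sum_congr rfl fun j _ => ?_
    rw [← h3 j, Finset.sum_mul]
    refine Finset.sum_congr rfl fun k _ => ?_
    ring

theorem PP_zero (f : Fin 3 → L[X]) : PP f (C 0) := by
  refine ⟨1, Matrix.det_one, ?_, ?_⟩
  · ext i j
    rw [Matrix.map_apply, Matrix.one_apply, Matrix.one_apply]
    split_ifs <;> simp
  · intro i
    have h : (sh (C 0) : L[X] →+* L[X][X]) = C := by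
      apply Polynomial.ringHom_ext
      · intro a
        simp [sh]
      · simp [sh]
    rw [h, Finset.sum_eq_single i]
    · rw [Matrix.one_apply_eq, mul_one]
    · intro b _ hb
      rw [Matrix.one_apply_ne hb, mul_zero]
    · intro h
      exact absurd (Finset.mem_univ i) h

theorem PP_conj (f : Fin 3 → L[X]) (h : L[X]) (ε δ : Matrix (Fin 3) (Fin 3) L[X])
    (he : ε.det = 1) (hd : δ.det = 1) (hed : ε * δ = 1) (hg : PP (Matrix.vecMul f ε) h) :
    PP f h := by
  obtain ⟨Γ, h1, h2, h3⟩ := hg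
  refine ⟨ε.map C * Γ * δ.map (sh h), ?_, ?_, ?_⟩
  · have e1 := (C : L[X] →+* L[X][X]).map_det ε
    have e2 := (sh h : L[X] →+* L[X][X]).map_det δ
    rw [he, map_one] at e1
    rw [hd, map_one] at e2
    rw [Matrix.det_mul, Matrix.det_mul, h1, mul_one]
    have e1' : (ε.map C).det = 1 := e1.symm
    have e2' : (δ.map (sh h)).det = 1 := e2.symm
    rw [e1', e2', one_mul]
  · have e : (ε.map C * Γ * δ.map (sh h)).map (evalRingHom (0 : L[X])) =
        (ε.map C).map (evalRingHom 0) * Γ.map (evalRingHom 0) * (δ.map (sh h)).map (evalRingHom 0) := by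
      rw [Matrix.map_mul, Matrix.map_mul]
    have e1 : (ε.map C).map (evalRingHom (0 : L[X])) = ε := by
      ext i j
      simp
    have e2 : (δ.map (sh h)).map (evalRingHom (0 : L[X])) = δ := by
      apply Matrix.ext
      intro i j
      rw [Matrix.map_apply, Matrix.map_apply]
      have hh : (evalRingHom (0 : L[X])).comp (sh h) = RingHom.id _ := by
        apply Polynomial.ringHom_ext
        · intro a
          simp [sh]
        · simp [sh]
      exact RingHom.congr_fun hh (δ i j)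
    have e3 : Γ.map (evalRingHom (0 : L[X])) = 1 := h2
    rw [e1, e2, e3, mul_one, hed] at e
    exact e
  · intro i
    -- f (x + z h) = g (x + z h) δ (x + z h)
    have hf : f = Matrix.vecMul (Matrix.vecMul f ε) δ := by
      rw [Matrix.vecMul_vecMul, hed, Matrix.vecMul_one]
    have h4 : sh h (f i) = ∑ j, sh h (Matrix.vecMul f ε j) * sh h (δ j i) := by
      conv_lhs => rw [hf]
      rw [Matrix.vecMul, dotProduct, map_sum]
      refine Finset.sum_congr rfl fun j _ => ?_
      rw [map_mul]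
    rw [h4]
    simp only [Matrix.mul_apply, Matrix.map_apply, Finset.sum_mul, Finset.mul_sum]
    simp only [← h3, Finset.sum_mul]
    have h5 : ∀ k, (C (Matrix.vecMul f ε k) : L[X][X]) = ∑ a, C (f a) * C (ε a k) := by
      intro k
      rw [Matrix.vecMul, dotProduct, map_sum]
      refine Finset.sum_congr rfl fun a _ => ?_
      rw [map_mul]
    simp only [h5, Finset.sum_mul]
    rw [Finset.sum_comm]
    refine Finset.sum_congr rfl fun j _ => ?_
    rw [Finset.sum_comm]
    refine Finset.sum_congr rfl fun k _ => ?_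
    refine Finset.sum_congr rfl fun a _ => ?_
    ring

theorem span_vecMul (f : Fin 3 → L[X]) (ε δ : Matrix (Fin 3) (Fin 3) L[X]) (hed : ε * δ = 1)
    (hu : Ideal.span (Set.range f) = ⊤) : Ideal.span (Set.range (Matrix.vecMul f ε)) = ⊤ := by
  rw [eq_top_iff, ← hu, Ideal.span_le]
  rintro _ ⟨i, rfl⟩
  have hf : f i = ∑ j, Matrix.vecMul f ε j * δ j i := by
    have : f = Matrix.vecMul (Matrix.vecMul f ε) δ := by
      rw [Matrix.vecMul_vecMul, hed, Matrix.vecMul_one]
    conv_lhs => rw [this]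
    rfl
  rw [SetLike.mem_coe, hf]
  refine Ideal.sum_mem _ fun j _ => Ideal.mul_mem_right _ _ (Ideal.subset_span ⟨j, rfl⟩)

theorem main (f : Fin 3 → L[X]) (hm : (f 0).Monic)
    (hu : Ideal.span (Set.range f) = ⊤) (h : L[X]) : PP f h := by
  let I : Ideal L :=
    { carrier := {b | PP f (C b)}
      zero_mem' := PP_zero f
      add_mem' := fun {a b} ha hb => PP_add f a b ha hb
      smul_mem' := fun c b hb => by
        show PP f (C (c * b))
        rw [mul_comm, C_mul]
        exact PP_scale f (C b) (C c) hb }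
  have hI : I = ⊤ := by
    by_contra hne
    obtain ⟨m, hmax, hle⟩ := Ideal.exists_le_maximal I hne
    obtain ⟨ε, δ, h1, h2, h3, h4, h5⟩ := euclid m hmax f
    obtain ⟨r, hr1, hr2⟩ := nakayama m (Matrix.vecMul f ε) (by rw [h4]; exact hm)
      (span_vecMul f ε δ h3 hu) h5
    have hr : r ∈ I := PP_conj f (C r) ε δ h1 h2 h3 (explicit _ r hr2)
    have h6 : (1 : L) ∈ m := by
      have := m.sub_mem (hle hr) hr1
      rwa [sub_sub_cancel] at this
    exact hmax.ne_top ((Ideal.eq_top_iff_one m).2 h6)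
  have h1 : (1 : L) ∈ I := by rw [hI]; trivial
  have h2 : PP f (C 1) := h1
  have h3 := PP_scale f (C 1) h h2
  rwa [C_1, one_mul] at h3

end SR36822

/-- Suslin: a unimodular row of length 3 over `L[X]` with a monic entry: `f(X + Z h)` is `f(X) * Γ(Z)` with `Γ ∈ SL_3(L[X][Z])`, `Γ(0) = 1`. -/
theorem suslin_row {L : Type*} [CommRing L] (f : Fin 3 → L[X]) (hm : (f 0).Monic)
    (hu : Ideal.span (Set.range f) = ⊤) (h : L[X]) :
    ∃ Γ : Matrix (Fin 3) (Fin 3) (L[X][X]), Γ.det = 1 ∧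
      Γ.map (Polynomial.eval 0) = 1 ∧
      ∀ i, ∑ k, C (f k) * Γ k i = (f i).eval₂ (C.comp C) (C X + X * C h) :=
  SR36822.main f hm hu h
end PLS
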