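import Mathlib
import Pool.Agent.Helper722.PL.Suslin
set_option autoImplicit false
open MvPolynomial

namespace PLQ
abbrev AA := MvPolynomial (Fin 2) ℂ


section
open MvPolynomial

/-- weak Nullstellensatz for finitely many polynomials -/
theorem null {n : ℕ} (f : Fin n → AA) (h : ∀ p : Fin 2 → ℂ, ∃ i, eval p (f i) ≠ 0) :
    Ideal.span (Set.range f) = ⊤ := by
  by_contra hne
  obtain ⟨M, hM, hle⟩ := Ideal.exists_le_maximal _ hne
  obtain ⟨p, hp⟩ := (isMaximal_iff_eq_vanishingIdeal_singleton (K := ℂ)).1 hM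
  obtain ⟨i, hi⟩ := h p
  apply hi
  have h1 : f i ∈ M := hle (Ideal.subset_span ⟨i, rfl⟩)
  rw [hp, mem_vanishingIdeal_iff] at h1
  have h2 := h1 p rfl
  simpa [aeval_eq_eval] using h2
end


section
open MvPolynomial

/-- a linear form separating finitely many points -/
theorem sepform (D : Set (Fin 2 → ℂ)) (hD : D.Finite) :
    ∃ μ : ℂ, ∀ p ∈ D, ∀ q ∈ D, p 0 + μ * p 1 = q 0 + μ * q 1 → p = q := by
  have hB : ((fun x : (Fin 2 → ℂ) × (Fin 2 → ℂ) => -(x.1 0 - x.2 0) / (x.1 1 - x.2 1)) '' (D ×ˢ D)).Finite :=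
    (hD.prod hD).image _
  obtain ⟨μ, hμ⟩ := hB.exists_notMem
  refine ⟨μ, fun p hp q hq h => ?_⟩
  by_cases h1 : p 1 = q 1
  · rw [h1] at h
    have h0 : p 0 = q 0 := add_right_cancel h
    funext i
    fin_cases i
    · exact h0
    · exact h1
  · exfalso
    apply hμ
    refine ⟨(p, q), ⟨hp, hq⟩, ?_⟩
    have h2 : p 1 - q 1 ≠ 0 := sub_ne_zero.mpr h1
    simp only
    rw [div_eq_iff h2]
    linear_combination -h
end


section
open MvPolynomial

/-- interpolation at finitely many points of the plane, by polynomials in `l = Y0 + μ Y1` -/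
theorem interp (D : Set (Fin 2 → ℂ)) (hD : D.Finite) (μ : ℂ)
    (hμ : ∀ p ∈ D, ∀ q ∈ D, p 0 + μ * p 1 = q 0 + μ * q 1 → p = q) (v : (Fin 2 → ℂ) → ℂ) :
    ∃ h : Polynomial ℂ, ∀ p ∈ D, Polynomial.eval (p 0 + μ * p 1) h = v p ∧
      eval p (Polynomial.aeval (X 0 + C μ * X 1 : AA) h) = v p := by
  classical
  set s : Finset (Fin 2 → ℂ) := hD.toFinset with hs
  set nd : (Fin 2 → ℂ) → ℂ := fun p => p 0 + μ * p 1 with hnd
  have hinj : Set.InjOn nd (s : Set (Fin 2 → ℂ)) := by
    intro p hp q hq h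
    have hp' : p ∈ D := by simpa [hs] using hp
    have hq' : q ∈ D := by simpa [hs] using hq
    exact hμ p hp' q hq' h
  refine ⟨Lagrange.interpolate s nd v, fun p hp => ?_⟩
  have hp' : p ∈ s := by simpa [hs] using hp
  have h1 : Polynomial.eval (p 0 + μ * p 1) (Lagrange.interpolate s nd v) = v p :=
    Lagrange.eval_interpolate_at_node v hinj hp'
  refine ⟨h1, ?_⟩
  have h2 : ∀ h : Polynomial ℂ, eval p (Polynomial.aeval (X 0 + C μ * X 1 : AA) h)
      = Polynomial.eval (p 0 + μ * p 1) h := by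
    intro h
    rw [Polynomial.aeval_def, Polynomial.hom_eval₂]
    have e1 : (eval p).comp (algebraMap ℂ AA) = RingHom.id ℂ := by
      ext x
      · simp [MvPolynomial.algebraMap_eq]
    rw [e1]
    simp [Polynomial.eval₂_id]
  rw [h2, h1]
end


section
open MvPolynomial

/-- (Q4) -/
theorem q4_ev (p : Fin 2 → ℂ) (μ : ℂ) (q : Polynomial ℂ) :
    eval p (Polynomial.aeval (X 0 + C μ * X 1 : AA) q) = Polynomial.eval (p 0 + μ * p 1) q := by
  have h := Polynomial.hom_eval₂ q (algebraMap ℂ AA) (eval p) (X 0 + C μ * X 1 : AA)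
  have e1 : (eval p).comp (algebraMap ℂ AA) = RingHom.id ℂ := by
    ext c
    simp [MvPolynomial.algebraMap_eq]
  have e2 : eval p (X 0 + C μ * X 1 : AA) = p 0 + μ * p 1 := by
    simp
  rw [e1, e2] at h
  rw [Polynomial.aeval_def, h]
  rfl

theorem q4_red (μ : ℂ) (h : Polynomial ℂ) (a : AA) : ∃ (b : Polynomial ℂ) (k : AA),
    a = Polynomial.aeval (X 0 + C μ * X 1 : AA) b +
      (X 1 - Polynomial.aeval (X 0 + C μ * X 1 : AA) h) * k := by
  induction a using MvPolynomial.induction_on with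
  | C c =>
    refine ⟨Polynomial.C c, 0, ?_⟩
    rw [Polynomial.aeval_C, MvPolynomial.algebraMap_eq]
    ring
  | add p q hp hq =>
    obtain ⟨b1, k1, e1⟩ := hp
    obtain ⟨b2, k2, e2⟩ := hq
    refine ⟨b1 + b2, k1 + k2, ?_⟩
    rw [map_add]
    linear_combination e1 + e2
  | mul_X p i hp =>
    obtain ⟨b, k, e⟩ := hp
    fin_cases i
    · refine ⟨b * (Polynomial.X - Polynomial.C μ * h), k * X 0 -
        C μ * Polynomial.aeval (X 0 + C μ * X 1 : AA) b, ?_⟩
      rw [map_mul, map_sub, map_mul, Polynomial.aeval_X, Polynomial.aeval_C,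
        MvPolynomial.algebraMap_eq]
      simp only [Fin.zero_eta]
      rw [e]
      ring
    · refine ⟨b * h, k * X 1 + Polynomial.aeval (X 0 + C μ * X 1 : AA) b, ?_⟩
      rw [map_mul]
      simp only [Fin.mk_one]
      rw [e]
      ring


theorem q4 (D : Set (Fin 2 → ℂ)) (hD : D.Finite) :
    ∃ g1 g2 : AA, (∀ p ∈ D, eval p g1 = 0) ∧ (∀ p ∈ D, eval p g2 = 0) ∧
      ∀ v : (Fin 2 → ℂ) → ℂ, (∀ p ∈ D, v p ≠ 0) →
        ∃ u : AA, (∀ p ∈ D, eval p u = v p) ∧
          ∀ a : AA, (∀ p ∈ D, eval p a = 0) → a ∈ Ideal.span {g1, u * g2} := by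
  classical
  obtain ⟨μ, hμ⟩ := sepform D hD
  obtain ⟨h, hh⟩ := interp D hD μ hμ (fun p => p 1)
  set l : AA := X 0 + C μ * X 1 with hl
  set P : Polynomial ℂ := ∏ p ∈ hD.toFinset, (Polynomial.X - Polynomial.C (p 0 + μ * p 1)) with hP
  have hPD : ∀ p ∈ D, Polynomial.eval (p 0 + μ * p 1) P = 0 := by
    intro p hp
    rw [hP, Polynomial.eval_prod]
    apply Finset.prod_eq_zero (hD.mem_toFinset.mpr hp)
    simp
  have hg2 : ∀ p ∈ D, eval p (X 1 - Polynomial.aeval l h) = 0 := by
    intro p hp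
    rw [map_sub, (hh p hp).2, eval_X, sub_self]
  refine ⟨Polynomial.aeval l P, X 1 - Polynomial.aeval l h, ?_, hg2, ?_⟩
  · intro p hp
    rw [hl, q4_ev]
    exact hPD p hp
  · intro v hv
    obtain ⟨w, hw⟩ := interp D hD μ hμ v
    refine ⟨Polynomial.aeval l w, fun p hp => (hw p hp).2, ?_⟩
    intro a ha
    have hcop : IsCoprime w P := by
      rw [hP]
      apply IsCoprime.prod_right
      intro p hp
      have hpD := hD.mem_toFinset.mp hp
      have hirr := Polynomial.irreducible_X_sub_C (p 0 + μ * p 1)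
      refine IsCoprime.symm ?_
      rw [hirr.coprime_iff_not_dvd, Polynomial.dvd_iff_isRoot, Polynomial.IsRoot.def]
      rw [(hw p hpD).1]
      exact hv p hpD
    obtain ⟨s, r, hsr⟩ := hcop
    have hsr' : Polynomial.aeval l s * Polynomial.aeval l w +
        Polynomial.aeval l r * Polynomial.aeval l P = 1 := by
      rw [← map_mul, ← map_mul, ← map_add, hsr, map_one]
    obtain ⟨b, k, hbk⟩ := q4_red μ h a
    rw [← hl] at hbk
    have hPb : P ∣ b := by
      rw [hP]
      apply Finset.prod_dvd_of_coprime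
      · intro p hp q hq hpq
        have hpD := hD.mem_toFinset.mp hp
        have hqD := hD.mem_toFinset.mp hq
        apply Polynomial.isCoprime_X_sub_C_of_isUnit_sub
        rw [isUnit_iff_ne_zero, sub_ne_zero]
        intro he
        exact hpq (hμ p hpD q hqD he)
      · intro p hp
        have hpD := hD.mem_toFinset.mp hp
        rw [Polynomial.dvd_iff_isRoot, Polynomial.IsRoot.def]
        have h1 := ha p hpD
        rw [hbk, map_add, map_mul, hg2 p hpD, zero_mul, add_zero, hl, q4_ev] at h1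
        exact h1
    obtain ⟨b', hb'⟩ := hPb
    rw [Ideal.mem_span_pair]
    refine ⟨Polynomial.aeval l b' + Polynomial.aeval l r * (X 1 - Polynomial.aeval l h) * k,
      Polynomial.aeval l s * k, ?_⟩
    rw [hbk, hb', map_mul]
    linear_combination (X 1 - Polynomial.aeval l h) * k * hsr'
end


section
open MvPolynomial

theorem q3_aux (al be ga de : ℂ) (h : al * de - be * ga = 1) :
    ∃ a x c y : ℂ, 1 + x * c = al ∧ (1 + x * c) * y + x = be ∧ a * (1 + x * c) + c = ga ∧
      a * ((1 + x * c) * y + x) + c * y + 1 = de := by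
  by_cases hga : ga = 0
  · subst hga
    have hal : al ≠ 0 := by
      rintro rfl
      simp at h
    have h' : al * de = 1 := by linear_combination h
    have e1 : 1 + (al - 1) / al * al = al := by field_simp; ring
    refine ⟨-1, (al - 1) / al, al, (be + de - 1) / al, e1, ?_, ?_, ?_⟩
    · rw [e1]
      field_simp
      linear_combination h'
    · rw [e1]; ring
    · rw [e1]
      field_simp
      linear_combination (-1 : ℂ) * h'
  · have e1 : 1 + (al - 1) / ga * ga = al := by field_simp; ring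
    refine ⟨0, (al - 1) / ga, ga, (de - 1) / ga, e1, ?_, ?_, ?_⟩
    · rw [e1]
      field_simp
      linear_combination h
    · ring
    · field_simp
      ring

/-- (Q3) -/
theorem q3 (D : Set (Fin 2 → ℂ)) (hD : D.Finite) (G : Matrix (Fin 2) (Fin 2) AA)
    (hG : ∀ p ∈ D, eval p (G.det - 1) = 0) :
    ∃ G' : Matrix (Fin 2) (Fin 2) AA, G'.det = 1 ∧ ∀ i k, ∀ p ∈ D, eval p (G' i k - G i k) = 0 := by
  obtain ⟨μ, hμ⟩ := sepform D hD
  have hdet : ∀ p ∈ D, eval p (G 0 0) * eval p (G 1 1) - eval p (G 0 1) * eval p (G 1 0) = 1 := by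
    intro p hp
    have h := hG p hp
    rw [Matrix.det_fin_two] at h
    simp only [map_sub, map_mul, map_one] at h
    linear_combination h
  have hex : ∀ p : Fin 2 → ℂ, ∃ a x c y : ℂ, p ∈ D →
      (1 + x * c = eval p (G 0 0) ∧ (1 + x * c) * y + x = eval p (G 0 1) ∧
      a * (1 + x * c) + c = eval p (G 1 0) ∧
      a * ((1 + x * c) * y + x) + c * y + 1 = eval p (G 1 1)) := by
    intro p
    by_cases hp : p ∈ D
    · obtain ⟨a, x, c, y, h⟩ := q3_aux _ _ _ _ (hdet p hp)
      exact ⟨a, x, c, y, fun _ => h⟩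
    · exact ⟨0, 0, 0, 0, fun h => absurd h hp⟩
  choose a x c y hv using hex
  obtain ⟨qa, ha⟩ := interp D hD μ hμ a
  obtain ⟨qx, hx⟩ := interp D hD μ hμ x
  obtain ⟨qc, hc⟩ := interp D hD μ hμ c
  obtain ⟨qy, hy⟩ := interp D hD μ hμ y
  set Pa : AA := Polynomial.aeval (X 0 + C μ * X 1 : AA) qa
  set Px : AA := Polynomial.aeval (X 0 + C μ * X 1 : AA) qx
  set Pc : AA := Polynomial.aeval (X 0 + C μ * X 1 : AA) qc
  set Py : AA := Polynomial.aeval (X 0 + C μ * X 1 : AA) qy
  refine ⟨!![1 + Px * Pc, (1 + Px * Pc) * Py + Px;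
    Pa * (1 + Px * Pc) + Pc, Pa * ((1 + Px * Pc) * Py + Px) + Pc * Py + 1], ?_, ?_⟩
  · rw [Matrix.det_fin_two_of]
    ring
  · intro i k p hp
    have e1 := (ha p hp).2
    have e2 := (hx p hp).2
    have e3 := (hc p hp).2
    have e4 := (hy p hp).2
    obtain ⟨h1, h2, h3, h4⟩ := hv p hp
    fin_cases i <;> fin_cases k
    · simp only [Matrix.of_apply, Matrix.cons_val', Matrix.cons_val_zero, Matrix.cons_val_one,
        Fin.zero_eta, Fin.mk_one, Matrix.cons_val_fin_one, map_sub, map_add, map_mul, map_one]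
      rw [e2, e3]
      linear_combination h1
    · simp only [Matrix.of_apply, Matrix.cons_val', Matrix.cons_val_zero, Matrix.cons_val_one,
        Fin.zero_eta, Fin.mk_one, Matrix.cons_val_fin_one, map_sub, map_add, map_mul, map_one]
      rw [e2, e3, e4]
      linear_combination h2
    · simp only [Matrix.of_apply, Matrix.cons_val', Matrix.cons_val_zero, Matrix.cons_val_one,
        Fin.zero_eta, Fin.mk_one, Matrix.cons_val_fin_one, map_sub, map_add, map_mul, map_one]
      rw [e1, e2, e3]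
      linear_combination h3
    · simp only [Matrix.of_apply, Matrix.cons_val', Matrix.cons_val_zero, Matrix.cons_val_one,
        Fin.zero_eta, Fin.mk_one, Matrix.cons_val_fin_one, map_sub, map_add, map_mul, map_one]
      rw [e1, e2, e3, e4]
      linear_combination h4
end


section
open MvPolynomial

/-- generic shortening of a unimodular row of length 4 over `ℂ[Y0,Y1]` -/
theorem shorten (a : Fin 4 → AA) (h : ∀ p : Fin 2 → ℂ, ∃ i, eval p (a i) ≠ 0) :
    ∃ c : Fin 3 → ℂ, ∀ p : Fin 2 → ℂ, ∃ i : Fin 3, eval p (a i.castSucc + C (c i) * a 3) ≠ 0 := by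
  classical
  obtain ⟨b, hb⟩ : ∃ b : Fin 4 → MvPolynomial (Fin 3) ℂ,
      ∀ i, b i = rename Fin.castSucc (a i) * X 2 := ⟨_, fun _ => rfl⟩
  have hni : ¬ AlgebraicIndependent ℂ b := by
    intro hc
    have h1 := hc.lift_cardinalMk_le_trdeg
    rw [MvPolynomial.trdeg_of_isDomain] at h1
    simp only [Cardinal.mk_fin, Cardinal.lift_natCast] at h1
    have h2 : 4 ≤ 3 := by exact_mod_cast h1
    omega
  have hex : ∃ F : MvPolynomial (Fin 4) ℂ, F ≠ 0 ∧ aeval b F = 0 := by
    rw [algebraicIndependent_iff] at hni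
    push Not at hni
    obtain ⟨F, h1, h2⟩ := hni
    exact ⟨F, h2, h1⟩
  obtain ⟨F, hF, hFb⟩ := hex
  have hz : ∃ z : Fin 4 → ℂ, eval z (F * X 3) ≠ 0 := by
    by_contra hc
    push Not at hc
    have h0 : F * X 3 = 0 := MvPolynomial.funext (fun z => by rw [hc z, map_zero])
    rcases mul_eq_zero.mp h0 with h1 | h1
    · exact hF h1
    · exact X_ne_zero 3 h1
  obtain ⟨z, hz⟩ := hz
  rw [map_mul, eval_X] at hz
  have hz3 : z 3 ≠ 0 := right_ne_zero_of_mul hz
  have hzF : eval z F ≠ 0 := left_ne_zero_of_mul hz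
  refine ⟨fun i => - z i.castSucc / z 3, fun p => ?_⟩
  by_contra hc
  push Not at hc
  have hc' : ∀ i : Fin 3, eval p (a i.castSucc) = z i.castSucc / z 3 * eval p (a 3) := by
    intro i
    have := hc i
    rw [map_add, map_mul, eval_C] at this
    linear_combination this
  have ha3 : eval p (a 3) ≠ 0 := by
    intro h0
    obtain ⟨i, hi⟩ := h p
    apply hi
    refine Fin.lastCases ?_ (fun j => ?_) i
    · exact h0
    · rw [hc' j, h0, mul_zero]
  obtain ⟨q, hq⟩ : ∃ q : Fin 3 → ℂ, q = Fin.snoc p (z 3 / eval p (a 3)) := ⟨_, rfl⟩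
  have hbq : (fun i => eval q (b i)) = z := by
    funext i
    have h1 : eval q (b i) = eval p (a i) * (z 3 / eval p (a 3)) := by
      have h2 : q ∘ Fin.castSucc = p := by funext j; simp [hq]
      have h3 : q 2 = z 3 / eval p (a 3) := by
        rw [hq]
        exact Fin.snoc_last (α := fun _ => ℂ) (z 3 / eval p (a 3)) p
      rw [hb i, map_mul, eval_X, eval_rename, h2, h3]
    rw [h1]
    refine Fin.lastCases ?_ (fun j => ?_) i
    · show eval p (a 3) * _ = z 3
      field_simp
    · rw [hc' j]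
      field_simp
  have h5 : eval q (aeval b F) = eval z F := by
    rw [MvPolynomial.map_aeval, hbq]
    congr 2
    ext x
    simp
  rw [hFb, map_zero] at h5
  exact hzF h5.symm
end


section
open MvPolynomial

theorem pid_row_gcd {L : Type*} [CommRing L] [IsDomain L] [IsPrincipalIdealRing L] (a b : L) :
    ∃ d g1 g2 u1 u2 : L, a = d * g1 ∧ b = d * g2 ∧ u1 * g1 + u2 * g2 = 1 := by
  obtain ⟨d, hd⟩ := (IsPrincipalIdealRing.principal (Ideal.span ({a, b} : Set L))).principal
  have ha : a ∈ Ideal.span ({a, b} : Set L) := Ideal.subset_span (by simp)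
  have hb : b ∈ Ideal.span ({a, b} : Set L) := Ideal.subset_span (by simp)
  have hdm : d ∈ Ideal.span ({a, b} : Set L) := by
    rw [hd]
    exact Submodule.mem_span_singleton_self d
  rw [hd] at ha hb
  obtain ⟨g1, hg1⟩ := Submodule.mem_span_singleton.mp ha
  obtain ⟨g2, hg2⟩ := Submodule.mem_span_singleton.mp hb
  obtain ⟨u1, u2, hu⟩ := Ideal.mem_span_pair.mp hdm
  simp only [smul_eq_mul] at hg1 hg2
  by_cases h0 : d = 0
  · refine ⟨0, 1, 0, 1, 0, ?_, ?_, by ring⟩
    · rw [← hg1, h0]; ring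
    · rw [← hg2, h0]; ring
  · refine ⟨d, g1, g2, u1, u2, ?_, ?_, ?_⟩
    · rw [← hg1]; ring
    · rw [← hg2]; ring
    · apply mul_left_cancel₀ h0
      calc d * (u1 * g1 + u2 * g2) = u1 * (g1 * d) + u2 * (g2 * d) := by ring
        _ = u1 * a + u2 * b := by rw [hg1, hg2]
        _ = d := hu
        _ = d * 1 := by ring

/-- completion over a principal ideal domain -/
theorem pid_row {L : Type*} [CommRing L] [IsDomain L] [IsPrincipalIdealRing L] (f : Fin 3 → L)
    (hu : Ideal.span (Set.range f) = ⊤) : ∃ M : Matrix (Fin 3) (Fin 3) L, M.det = 1 ∧ ∀ i, M 0 i = f i := by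
  obtain ⟨d, g1, g2, u1, u2, h1, h2, h3⟩ := pid_row_gcd (f 1) (f 2)
  have h1' : (1 : L) ∈ Ideal.span (Set.range f) := by rw [hu]; trivial
  obtain ⟨c, hc⟩ := Ideal.mem_span_range_iff_exists_fun.mp h1'
  rw [Fin.sum_univ_three] at hc
  refine ⟨!![f 0, d * g1, d * g2; -(c 1 * g1 + c 2 * g2), c 0 * g1, c 0 * g2; 0, -u2, u1], ?_, ?_⟩
  · rw [Matrix.det_fin_three]
    simp only [Matrix.of_apply, Matrix.cons_val', Matrix.cons_val_zero, Matrix.cons_val_one,
      Matrix.cons_val]
    have e : (c 0 * f 0 + c 1 * f 1 + c 2 * f 2) * (u1 * g1 + u2 * g2) = 1 := by rw [hc, h3, one_mul]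
    rw [h1, h2] at e
    linear_combination e
  · intro i
    fin_cases i
    · rfl
    · exact h1.symm
    · exact h2.symm
end


section
/-- Suslin -/
theorem suslin_row {L : Type*} [CommRing L] (f : Fin 3 → Polynomial L) (hm : (f 0).Monic)
    (hu : Ideal.span (Set.range f) = ⊤) (h : Polynomial L) :
    ∃ Γ : Matrix (Fin 3) (Fin 3) (Polynomial (Polynomial L)), Γ.det = 1 ∧
      Γ.map (Polynomial.eval 0) = 1 ∧
      ∀ i, ∑ k, Polynomial.C (f k) * Γ k i = (f i).eval₂ (Polynomial.C.comp Polynomial.C) (Polynomial.C Polynomial.X + Polynomial.X * Polynomial.C h) :=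
  PLS.suslin_row f hm hu h
end


section
open MvPolynomial

/-- completion of a unimodular row with a monic entry over `ℂ[Y][X]` -/
theorem monic_row (f : Fin 3 → Polynomial (Polynomial ℂ)) (hm : (f 0).Monic)
    (hu : Ideal.span (Set.range f) = ⊤) :
    ∃ M : Matrix (Fin 3) (Fin 3) (Polynomial (Polynomial ℂ)), M.det = 1 ∧ ∀ i, M 0 i = f i := by
  obtain ⟨Γ, hdet, -, hrow⟩ := suslin_row f hm hu (-Polynomial.X)
  let e : Polynomial (Polynomial (Polynomial ℂ)) →+* Polynomial (Polynomial ℂ) :=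
    Polynomial.evalRingHom 1
  let G : Matrix (Fin 3) (Fin 3) (Polynomial (Polynomial ℂ)) := e.mapMatrix Γ
  have hG : G.det = 1 := by
    have := RingHom.map_det e Γ
    rw [hdet, map_one] at this
    exact this.symm
  have hadj : G * G.adjugate = 1 := by
    rw [Matrix.mul_adjugate, hG, one_smul]
  have hrow' : ∀ i, ∑ k, f k * G k i = Polynomial.C ((f i).coeff 0) := by
    intro i
    have h1 := congrArg e (hrow i)
    rw [map_sum] at h1
    have h2 : ∀ k, e (Polynomial.C (f k) * Γ k i) = f k * G k i := by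
      intro k
      rw [map_mul]
      congr 1
      simp [e]
    simp only [h2] at h1
    rw [h1, Polynomial.hom_eval₂]
    have h3 : e.comp (Polynomial.C.comp Polynomial.C) = (Polynomial.C : Polynomial ℂ →+* _) := by
      ext x <;> simp [e]
    have h4 : e (Polynomial.C Polynomial.X + Polynomial.X * Polynomial.C (-Polynomial.X)) = 0 := by
      simp [e]
    rw [h3, h4]
    rw [Polynomial.eval₂_eq_sum_range]
    rw [Finset.sum_eq_single 0]
    · simp
    · intro b _ hb
      simp [hb]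
    · intro h
      exact absurd (Finset.mem_range.mpr (Nat.succ_pos _)) h
  have hu0 : Ideal.span (Set.range (fun i => (f i).coeff 0)) = ⊤ := by
    have h1 := congrArg (Ideal.map (Polynomial.constantCoeff (R := Polynomial ℂ))) hu
    rw [Ideal.map_span, Ideal.map_top, ← Set.range_comp] at h1
    exact h1
  obtain ⟨N, hN, hN0⟩ := pid_row (fun i => (f i).coeff 0) hu0
  refine ⟨(Polynomial.C.mapMatrix N) * G.adjugate, ?_, ?_⟩
  · have h1 : G.adjugate.det = 1 := by
      have := congrArg Matrix.det hadj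
      rw [Matrix.det_mul, hG, one_mul, Matrix.det_one] at this
      exact this
    rw [Matrix.det_mul, h1, mul_one, ← RingHom.map_det, hN, map_one]
  · intro i
    have h1 : ∀ j, (Polynomial.C.mapMatrix N) 0 j = ∑ k, f k * G k j := by
      intro j
      rw [hrow' j, RingHom.mapMatrix_apply, Matrix.map_apply, hN0 j]
    rw [Matrix.mul_apply]
    simp only [h1]
    have h2 : ∀ k, ∑ j, G k j * G.adjugate j i = (1 : Matrix (Fin 3) (Fin 3) (Polynomial (Polynomial ℂ))) k i := by
      intro k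
      rw [← hadj, Matrix.mul_apply]
    calc ∑ j, (∑ k, f k * G k j) * G.adjugate j i
        = ∑ j, ∑ k, f k * (G k j * G.adjugate j i) := by
          apply Finset.sum_congr rfl
          intro j _
          rw [Finset.sum_mul]
          apply Finset.sum_congr rfl
          intro k _
          ring
      _ = ∑ k, ∑ j, f k * (G k j * G.adjugate j i) := Finset.sum_comm
      _ = ∑ k, f k * (1 : Matrix (Fin 3) (Fin 3) (Polynomial (Polynomial ℂ))) k i := by
          apply Finset.sum_congr rfl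
          intro k _
          rw [← Finset.mul_sum, h2 k]
      _ = f i := by
          simp [Matrix.one_apply]
end


section
open MvPolynomial

section coordNNsec
open Polynomial MvPolynomial Ideal Nat RingHom List

variable {k : Type*} [Field k] {n : ℕ} (f : MvPolynomial (Fin (n + 1)) k)
variable (v w : Fin (n + 1) →₀ ℕ)

namespace coordNN




variable {f v} in
lemma lt_up (vlt : ∀ i, v i < (2 + f.totalDegree)) : ∀ l ∈ ofFn v, l < (2 + f.totalDegree) := by
  grind


/-- We construct an algebra map `T1 f c` which maps `X_i` into `X_i + c • X_0 ^ r_i` when `i ≠ 0`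
and `X_0` to `X_0`. -/
noncomputable abbrev T1 (c : k) :
    MvPolynomial (Fin (n + 1)) k →ₐ[k] MvPolynomial (Fin (n + 1)) k :=
  aeval fun i ↦ if i = 0 then X 0 else X i + c • X 0 ^ (fun (i : Fin (n + 1)) ↦ (2 + f.totalDegree) ^ i.1) i

lemma t1_comp_t1_neg (c : k) : (T1 f c).comp (T1 f (-c)) = AlgHom.id _ _ := by
  rw [comp_aeval, ← MvPolynomial.aeval_X_left]
  ext i v
  cases i using Fin.cases <;> simp

/-- `T1 f 1` leads to an algebra equiv `T f`. -/
noncomputable abbrev T := AlgEquiv.ofAlgHom (T1 f 1) (T1 f (-1))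
  (t1_comp_t1_neg f 1) (by simpa using t1_comp_t1_neg f (-1))

lemma sum_r_mul_ne (vlt : ∀ i, v i < (2 + f.totalDegree)) (wlt : ∀ i, w i < (2 + f.totalDegree)) (ne : v ≠ w) :
    ∑ x : Fin (n + 1), (fun (i : Fin (n + 1)) ↦ (2 + f.totalDegree) ^ i.1) x * v x ≠ ∑ x : Fin (n + 1), (fun (i : Fin (n + 1)) ↦ (2 + f.totalDegree) ^ i.1) x * w x := by
  intro h
  refine ne <| Finsupp.ext <| congrFun <| ofFn_inj.mp ?_
  apply ofDigits_inj_of_len_eq (Nat.lt_add_right f.totalDegree one_lt_two)
    (by simp) (lt_up vlt) (lt_up wlt)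
  simpa only [ofDigits_eq_sum_mapIdx, mapIdx_eq_ofFn, get_ofFn, length_ofFn,
    Fin.val_cast, mul_comm, sum_ofFn] using! h

lemma degreeOf_zero_t {a : k} (ha : a ≠ 0) : ((T f) (monomial v a)).degreeOf 0 =
    ∑ i : Fin (n + 1), ((fun (i : Fin (n + 1)) ↦ (2 + f.totalDegree) ^ i.1) i) * v i := by
  rw [← natDegree_finSuccEquiv, monomial_eq, Finsupp.prod_pow v fun a ↦ X a]
  simp only [Fin.prod_univ_succ, Fin.sum_univ_succ, map_mul, map_prod, map_pow,
    AlgEquiv.ofAlgHom_apply, MvPolynomial.aeval_C, MvPolynomial.aeval_X, if_pos, Fin.succ_ne_zero,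
    ite_false, one_smul, map_add, finSuccEquiv_X_zero, finSuccEquiv_X_succ, algebraMap_eq]
  have h (i : Fin n) :
      (Polynomial.C (X (R := k) i) + Polynomial.X ^ (fun (i : Fin (n + 1)) ↦ (2 + f.totalDegree) ^ i.1) i.succ) ^ v i.succ ≠ 0 :=
    pow_ne_zero (v i.succ) (leadingCoeff_ne_zero.mp <| by simp [add_comm, leadingCoeff_X_pow_add_C])
  rw [natDegree_mul (by simp [ha]) (mul_ne_zero (by simp) (Finset.prod_ne_zero_iff.mpr
    (fun i _ ↦ h i))), natDegree_mul (by simp) (Finset.prod_ne_zero_iff.mpr (fun i _ ↦ h i)),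
    natDegree_prod _ _ (fun i _ ↦ h i), natDegree_finSuccEquiv, degreeOf_C]
  simpa only [natDegree_pow, zero_add, natDegree_X, mul_one, Fin.val_zero, pow_zero, one_mul,
    add_right_inj] using Finset.sum_congr rfl (fun i _ ↦ by
    rw [add_comm (Polynomial.C _), natDegree_X_pow_add_C, mul_comm])

/-- `T` maps different monomials of `f` to polynomials with different degrees in `X_0`. -/
lemma degreeOf_t_ne_of_ne (hv : v ∈ f.support) (hw : w ∈ f.support) (ne : v ≠ w) :
    (T f <| monomial v <| coeff v f).degreeOf 0 ≠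
    (T f <| monomial w <| coeff w f).degreeOf 0 := by
  rw [degreeOf_zero_t _ _ <| mem_support_iff.mp hv, degreeOf_zero_t _ _ <| mem_support_iff.mp hw]
  refine sum_r_mul_ne f v w (fun i ↦ ?_) (fun i ↦ ?_) ne <;>
  exact lt_of_le_of_lt ((monomial_le_degreeOf i ‹_›).trans (degreeOf_le_totalDegree f i))
    (by lia)

lemma leadingCoeff_finSuccEquiv_t :
    (finSuccEquiv k n ((T f) ((monomial v) (coeff v f)))).leadingCoeff =
    algebraMap k _ (coeff v f) := by
  rw [monomial_eq, Finsupp.prod_fintype]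
  · simp only [map_mul, map_prod, leadingCoeff_mul, leadingCoeff_prod]
    rw [AlgEquiv.ofAlgHom_apply, algHom_C, algebraMap_eq, finSuccEquiv_apply,
      eval₂Hom_C, coe_comp]
    simp only [AlgEquiv.ofAlgHom_apply, Function.comp_apply, leadingCoeff_C, map_pow,
      leadingCoeff_pow, algebraMap_eq]
    have : ∀ j, ((finSuccEquiv k n) ((T1 f) 1 (X j))).leadingCoeff = 1 := fun j ↦ by
      by_cases h : j = 0
      · simp [h, finSuccEquiv_apply]
      · simp only [aeval_eq_bind₁, bind₁_X_right, if_neg h, one_smul, map_add, map_pow]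
        obtain ⟨i, rfl⟩ := Fin.exists_succ_eq.mpr h
        simp [finSuccEquiv_X_succ, finSuccEquiv_X_zero, add_comm]
    simp only [this, one_pow, Finset.prod_const_one, mul_one]
  exact fun i ↦ pow_zero _

/-- `T` maps `f` into some polynomial in `X_0` such that the leading coefficient is invertible. -/
lemma T_leadingcoeff_isUnit (fne : f ≠ 0) :
    IsUnit (finSuccEquiv k n (T f f)).leadingCoeff := by
  obtain ⟨v, vin, vs⟩ := Finset.exists_max_image f.support
    (fun v ↦ (T f ((monomial v) (coeff v f))).degreeOf 0) (support_nonempty.mpr fne)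
  set h := fun w ↦ (MvPolynomial.monomial w) (coeff w f)
  simp only [← natDegree_finSuccEquiv] at vs
  replace vs : ∀ x ∈ f.support \ {v}, (finSuccEquiv k n ((T f) (h x))).degree <
      (finSuccEquiv k n ((T f) (h v))).degree := by
    intro x hx
    obtain ⟨h1, h2⟩ := Finset.mem_sdiff.mp hx
    apply degree_lt_degree <| lt_of_le_of_ne (vs x h1) ?_
    simpa only [natDegree_finSuccEquiv]
      using degreeOf_t_ne_of_ne f _ _ h1 vin <| ne_of_not_mem_cons h2
  have coeff : (finSuccEquiv k n ((T f) (h v + ∑ x ∈ f.support \ {v}, h x))).leadingCoeff =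
      (finSuccEquiv k n ((T f) (h v))).leadingCoeff := by
    simp only [map_add, map_sum]
    rw [add_comm]
    apply leadingCoeff_add_of_degree_lt <| (lt_of_le_of_lt <| degree_sum_le _ _) ?_
    have h2 : h v ≠ 0 := by simpa [h] using mem_support_iff.mp vin
    replace h2 : (finSuccEquiv k n ((T f) (h v))) ≠ 0 := fun eq ↦ h2 <|
      by simpa only [map_eq_zero_iff _ (AlgEquiv.injective _)] using eq
    exact (Finset.sup_lt_iff <| Ne.bot_lt (fun x ↦ h2 <| degree_eq_bot.mp x)).mpr vs
  nth_rw 2 [← f.support_sum_monomial_coeff]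
  rw [Finset.sum_eq_add_sum_sdiff_singleton_of_mem vin h]
  rw [leadingCoeff_finSuccEquiv_t] at coeff
  simpa only [coeff, algebraMap_eq] using (mem_support_iff.mp vin).isUnit.map MvPolynomial.C




end coordNN
end coordNNsec



/-- coordinates in which a given nonzero polynomial is monic up to a constant -/
theorem coord (g : AA) (hg : g ≠ 0) :
    ∃ e : AA ≃ₐ[ℂ] Polynomial (Polynomial ℂ), ∃ r : ℂ, r ≠ 0 ∧
      (Polynomial.C (Polynomial.C r) * e g).Monic := by
  have hu := coordNN.T_leadingcoeff_isUnit (n := 1) g hg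
  obtain ⟨p, hp⟩ : ∃ p, p = (finSuccEquiv ℂ 1) (coordNN.T g g) := ⟨_, rfl⟩
  rw [← hp] at hu
  let ε : MvPolynomial (Fin 1) ℂ ≃ₐ[ℂ] Polynomial ℂ := MvPolynomial.uniqueAlgEquiv ℂ (Fin 1)
  have hu2 : IsUnit (ε p.leadingCoeff) := hu.map ε
  obtain ⟨c, hc, hcu⟩ := Polynomial.isUnit_iff.1 hu2
  have hc0 : c ≠ 0 := hc.ne_zero
  refine ⟨(coordNN.T g).trans ((finSuccEquiv ℂ 1).trans (Polynomial.mapAlgEquiv ε)), c⁻¹,
    inv_ne_zero hc0, ?_⟩
  have h1 : ((coordNN.T g).trans ((finSuccEquiv ℂ 1).trans (Polynomial.mapAlgEquiv ε))) g =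
      p.map (ε : MvPolynomial (Fin 1) ℂ →+* Polynomial ℂ) := by
    rw [hp]
    rfl
  rw [h1]
  apply Polynomial.monic_C_mul_of_mul_leadingCoeff_eq_one
  have h2 : (p.map (ε : MvPolynomial (Fin 1) ℂ →+* Polynomial ℂ)).leadingCoeff =
      ε p.leadingCoeff :=
    Polynomial.leadingCoeff_map_of_injective ε.injective p
  rw [h2, ← hcu, ← Polynomial.C_mul, inv_mul_cancel₀ hc0, Polynomial.C_1]
end


section
open MvPolynomial

theorem q2_aux (f : Fin 3 → AA) (h0 : f 0 ≠ 0) (hu : Ideal.span (Set.range f) = ⊤) :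
    ∃ M : Matrix (Fin 3) (Fin 3) AA, M.det = 1 ∧ ∀ i, M i 0 = f i := by
  obtain ⟨e, r, hr, hmon⟩ := coord (f 0) h0
  set c : Polynomial (Polynomial ℂ) := Polynomial.C (Polynomial.C r) with hc
  set c' : Polynomial (Polynomial ℂ) := Polynomial.C (Polynomial.C r⁻¹) with hc'
  have hcc : c * c' = 1 := by
    rw [hc, hc', ← Polynomial.C_mul, ← Polynomial.C_mul, mul_inv_cancel₀ hr, Polynomial.C_1,
      Polynomial.C_1]
  have hspan : Ideal.span (Set.range (![c * e (f 0), e (f 1), e (f 2)])) = ⊤ := by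
    rw [Ideal.eq_top_iff_one, Ideal.mem_span_range_iff_exists_fun]
    have h1 : (1 : AA) ∈ Ideal.span (Set.range f) := by rw [hu]; exact Submodule.mem_top
    rw [Ideal.mem_span_range_iff_exists_fun] at h1
    obtain ⟨a, ha⟩ := h1
    refine ⟨![e (a 0) * c', e (a 1), e (a 2)], ?_⟩
    have h2 := congrArg e ha
    rw [Fin.sum_univ_three] at h2 ⊢
    simp only [map_add, map_mul, map_one] at h2
    simp only [Matrix.cons_val_zero, Matrix.cons_val_one, Matrix.cons_val]
    linear_combination h2 + (e (a 0) * e (f 0)) * hcc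
  obtain ⟨M1, hM1, hrow⟩ := monic_row (![c * e (f 0), e (f 1), e (f 2)]) hmon hspan
  set M2 : Matrix (Fin 3) (Fin 3) (Polynomial (Polynomial ℂ)) :=
    Matrix.diagonal ![1, c, 1] * M1 * Matrix.diagonal ![c', 1, 1] with hM2
  have hdet2 : M2.det = 1 := by
    rw [hM2, Matrix.det_mul, Matrix.det_mul, hM1, Matrix.det_diagonal, Matrix.det_diagonal,
      Fin.prod_univ_three, Fin.prod_univ_three]
    simp only [Matrix.cons_val_zero, Matrix.cons_val_one, Matrix.cons_val]
    linear_combination hcc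
  have hrow2 : ∀ i, M2 0 i = e (f i) := by
    intro i
    rw [hM2, Matrix.mul_diagonal, Matrix.diagonal_mul, hrow i]
    fin_cases i
    · simp
      linear_combination (e (f 0)) * hcc
    · simp
    · simp
  refine ⟨((e.symm : Polynomial (Polynomial ℂ) →+* AA).mapMatrix M2).transpose, ?_, ?_⟩
  · rw [Matrix.det_transpose, ← RingHom.map_det, hdet2, map_one]
  · intro i
    rw [Matrix.transpose_apply, RingHom.mapMatrix_apply, Matrix.map_apply, hrow2]
    simp

/-- (Q2) -/
theorem q2 (f : Fin 3 → AA) (hu : Ideal.span (Set.range f) = ⊤) :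
    ∃ M : Matrix (Fin 3) (Fin 3) AA, M.det = 1 ∧ ∀ i, M i 0 = f i := by
  have hex : ∃ k, f k ≠ 0 := by
    by_contra hcon
    push Not at hcon
    have h1 : Ideal.span (Set.range f) = ⊥ := by
      rw [Ideal.span_eq_bot]
      rintro x ⟨k, rfl⟩
      exact hcon k
    rw [h1] at hu
    exact bot_ne_top hu
  obtain ⟨k, hk⟩ := hex
  set σ : Equiv.Perm (Fin 3) := Equiv.swap 0 k with hσ
  have hr : Set.range (f ∘ σ) = Set.range f := σ.surjective.range_comp f
  obtain ⟨M', hM', hcol⟩ := q2_aux (f ∘ σ) (by simpa [hσ] using hk) (by rw [hr]; exact hu)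
  set s : AA := (((Equiv.Perm.sign σ : ℤˣ) : ℤ) : AA) with hs
  have hss : s * s = 1 := by
    rw [hs, ← Int.cast_mul, ← Units.val_mul, Int.units_mul_self]
    simp
  refine ⟨(M'.submatrix σ id) * Matrix.diagonal ![1, s, 1], ?_, ?_⟩
  · rw [Matrix.det_mul, Matrix.det_permute, hM', Matrix.det_diagonal, Fin.prod_univ_three]
    simp only [Matrix.cons_val_zero, Matrix.cons_val_one, Matrix.cons_val]
    linear_combination hss
  · intro i
    rw [Matrix.mul_diagonal, Matrix.submatrix_apply, id, hcol]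
    simp [hσ]
end


section
open MvPolynomial

/-- completion of a unimodular column of length 4 -/
theorem col4 (f : Fin 4 → AA) (h : ∀ p : Fin 2 → ℂ, ∃ i, eval p (f i) ≠ 0) :
    ∃ U V : Matrix (Fin 4) (Fin 4) AA, V * U = 1 ∧ U * V = 1 ∧
      ∀ i, ∑ k, U i k * f k = if i = 0 then 1 else 0 := by
  obtain ⟨c, hc⟩ := shorten f h
  obtain ⟨M, hM1, hM0⟩ := q2 (fun i : Fin 3 => f i.castSucc + C (c i) * f 3) (null _ hc)
  set N : Matrix (Fin 3) (Fin 3) AA := M.adjugate with hN
  have hMN : M * N = 1 := by rw [hN, Matrix.mul_adjugate, hM1, one_smul]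
  have hNM : N * M = 1 := by rw [hN, Matrix.adjugate_mul, hM1, one_smul]
  have hNg : ∀ i : Fin 3, ∑ k, N i k * (f k.castSucc + C (c k) * f 3) = if i = 0 then 1 else 0 := by
    intro i
    have h1 := congrFun (congrFun hNM i) 0
    rw [Matrix.mul_apply, Matrix.one_apply] at h1
    rw [← h1]
    exact Finset.sum_congr rfl (fun k _ => by rw [hM0 k])
  have hMNe : ∀ a b : Fin 3, ∑ k, M a k * N k b = if a = b then 1 else 0 := by
    intro a b
    have h1 := congrFun (congrFun hMN a) b
    rwa [Matrix.mul_apply, Matrix.one_apply] at h1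
  set s : Fin 3 → AA := fun k => ∑ l, N k l * C (c l) with hs
  have hMs : ∀ a : Fin 3, ∑ k, M a k * s k = C (c a) := by
    intro a
    calc ∑ k, M a k * s k = ∑ k, ∑ l, M a k * N k l * C (c l) := by
          refine Finset.sum_congr rfl (fun k _ => ?_)
          rw [hs, Finset.mul_sum]
          exact Finset.sum_congr rfl (fun l _ => by ring)
      _ = ∑ l, (∑ k, M a k * N k l) * C (c l) := by
          rw [Finset.sum_comm]
          exact Finset.sum_congr rfl (fun l _ => by rw [Finset.sum_mul])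
      _ = C (c a) := by
          simp only [hMNe]
          simp
  let U : Matrix (Fin 4) (Fin 4) AA := fun i k =>
    Fin.lastCases (motive := fun _ => AA)
      (Fin.lastCases (motive := fun _ => AA) (1 - f 3 * s 0) (fun k' => -(f 3 * N 0 k')) k)
      (fun i' => Fin.lastCases (motive := fun _ => AA) (s i') (fun k' => N i' k') k) i
  let V : Matrix (Fin 4) (Fin 4) AA := fun i k =>
    Fin.lastCases (motive := fun _ => AA)
      (Fin.lastCases (motive := fun _ => AA) 1 (fun k' => if k' = 0 then f 3 else 0) k)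
      (fun i' => Fin.lastCases (motive := fun _ => AA) (-C (c i'))
        (fun k' => M i' k' - if k' = 0 then C (c i') * f 3 else 0) k) i
  have U11 : ∀ i k : Fin 3, U i.castSucc k.castSucc = N i k := by
    intro i k; simp [U]
  have U12 : ∀ i : Fin 3, U i.castSucc (Fin.last 3) = s i := by
    intro i; simp only [U, Fin.lastCases_last, Fin.lastCases_castSucc]
  have U21 : ∀ k : Fin 3, U (Fin.last 3) k.castSucc = -(f 3 * N 0 k) := by
    intro k; simp only [U, Fin.lastCases_last, Fin.lastCases_castSucc]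
  have U22 : U (Fin.last 3) (Fin.last 3) = 1 - f 3 * s 0 := by
    simp only [U, Fin.lastCases_last]
  have V11 : ∀ i k : Fin 3, V i.castSucc k.castSucc = M i k - if k = 0 then C (c i) * f 3 else 0 := by
    intro i k; simp only [V, Fin.lastCases_last, Fin.lastCases_castSucc]
  have V12 : ∀ i : Fin 3, V i.castSucc (Fin.last 3) = -C (c i) := by
    intro i; simp only [V, Fin.lastCases_last, Fin.lastCases_castSucc]
  have V21 : ∀ k : Fin 3, V (Fin.last 3) k.castSucc = if k = 0 then f 3 else 0 := by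
    intro k; simp only [V, Fin.lastCases_last, Fin.lastCases_castSucc]
  have V22 : V (Fin.last 3) (Fin.last 3) = 1 := by
    simp only [V, Fin.lastCases_last]
  have hsplit : ∀ (i : Fin 3) (t : Fin 3 → AA),
      ∑ k, (M i k - if k = 0 then C (c i) * f 3 else 0) * t k = ∑ k, M i k * t k - C (c i) * f 3 * t 0 := by
    intro i t
    simp only [sub_mul, Finset.sum_sub_distrib, ite_mul, zero_mul, Finset.sum_ite_eq',
      Finset.mem_univ, if_true]
  have hVU : V * U = 1 := by
    ext1 i j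
    rw [Matrix.mul_apply, Fin.sum_univ_castSucc]
    induction i using Fin.lastCases with
    | last =>
      induction j using Fin.lastCases with
      | last =>
        simp only [V21, V22, U12, U22, ite_mul, zero_mul, Finset.sum_ite_eq', Finset.mem_univ,
          if_true, Matrix.one_apply_eq]
        ring
      | cast b =>
        simp only [V21, V22, U11, U21, ite_mul, zero_mul, Finset.sum_ite_eq', Finset.mem_univ,
          if_true]
        rw [Matrix.one_apply_ne (Fin.castSucc_lt_last b).ne']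
        ring
    | cast a =>
      induction j using Fin.lastCases with
      | last =>
        simp only [V11, V12, U12, U22]
        rw [hsplit a s, hMs a, Matrix.one_apply_ne (Fin.castSucc_lt_last a).ne]
        ring
      | cast b =>
        simp only [V11, V12, U11, U21]
        rw [hsplit a (fun k => N k b), hMNe a b, Matrix.one_apply]
        simp only [Fin.castSucc_inj]
        ring
  refine ⟨U, V, hVU, mul_eq_one_comm.1 hVU, ?_⟩
  have hlast : (Fin.last 3 : Fin 4) = 3 := rfl
  have hrow : ∀ i : Fin 3, ∑ k : Fin 3, N i k * f k.castSucc + s i * f 3 = if i = 0 then 1 else 0 := by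
    intro i
    rw [← hNg i, hs, Finset.sum_mul, ← Finset.sum_add_distrib]
    exact Finset.sum_congr rfl (fun k _ => by ring)
  intro i
  rw [Fin.sum_univ_castSucc]
  induction i using Fin.lastCases with
  | last =>
    simp only [U21, U22]
    rw [if_neg (by decide)]
    have h0 := hrow 0
    rw [if_pos rfl] at h0
    have e1 : ∑ k : Fin 3, -(f 3 * N 0 k) * f k.castSucc = -(f 3 * ∑ k : Fin 3, N 0 k * f k.castSucc) := by
      rw [Finset.mul_sum, ← Finset.sum_neg_distrib]
      exact Finset.sum_congr rfl (fun k _ => by ring)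
    rw [e1, hlast]
    linear_combination (-(f 3)) * h0
  | cast a =>
    simp only [U11, U12]
    rw [hlast, hrow a]
    have : (a.castSucc = 0) ↔ a = 0 := by
      rw [← Fin.castSucc_zero, Fin.castSucc_inj]
    simp only [this]
end


section
open MvPolynomial

/-- (Q1) -/
theorem q1 (Jac : Matrix (Fin 4) (Fin 2) AA)
    (h : ∀ p ξ : Fin 2 → ℂ, (∀ i, ∑ j, ξ j * eval p (Jac i j) = 0) → ξ = 0) :
    ∃ U V : Matrix (Fin 4) (Fin 4) AA, V * U = 1 ∧ U * V = 1 ∧
      ∀ i j, (U * Jac) i j = if i = Fin.castLE (by omega) j then 1 else 0 := by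
  have hcol0 : ∀ p : Fin 2 → ℂ, ∃ i, eval p ((fun k => Jac k 0) i) ≠ 0 := by
    intro p
    by_contra hcon
    push Not at hcon
    have h1 := h p ![1, 0] (by
      intro i
      rw [Fin.sum_univ_two]
      have h3 : eval p (Jac i 0) = 0 := hcon i
      simp [h3])
    have h2 := congrFun h1 0
    simp at h2
  obtain ⟨U1, V1, hVU1, hUV1, hU1⟩ := col4 (fun k => Jac k 0) hcol0
  obtain ⟨J1, hJ1⟩ : ∃ J1 : Matrix (Fin 4) (Fin 2) AA, J1 = U1 * Jac := ⟨_, rfl⟩
  have hJac : Jac = V1 * J1 := by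
    rw [hJ1, ← Matrix.mul_assoc, hVU1, Matrix.one_mul]
  have hJ0 : ∀ i, J1 i 0 = if i = 0 then 1 else 0 := by
    intro i
    rw [hJ1, Matrix.mul_apply]
    exact hU1 i
  obtain ⟨b, hb⟩ : ∃ b : AA, b = J1 0 1 := ⟨_, rfl⟩
  obtain ⟨v, hv⟩ : ∃ v : Fin 3 → AA, v = fun k : Fin 3 => J1 k.succ 1 := ⟨_, rfl⟩
  have hvk : ∀ k : Fin 3, J1 k.succ 1 = v k := by
    intro k
    rw [hv]
  have hvne : ∀ p : Fin 2 → ℂ, ∃ i, eval p (v i) ≠ 0 := by
    intro p
    by_contra hcon
    push Not at hcon
    have h0 : ∀ k, ∑ j, (![-(eval p b), 1] : Fin 2 → ℂ) j * eval p (J1 k j) = 0 := by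
      intro k
      rw [Fin.sum_univ_two, hJ0]
      refine Fin.cases ?_ (fun k' => ?_) k
      · rw [← hb]
        simp
      · rw [hvk, hcon k']
        simp [Fin.succ_ne_zero]
    have h1 := h p ![-(eval p b), 1] (by
      intro i
      rw [hJac]
      simp only [Matrix.mul_apply, map_sum, map_mul, Finset.mul_sum]
      rw [Finset.sum_comm]
      refine Finset.sum_eq_zero fun k _ => ?_
      have h2 : ∑ x, (![-(eval p b), 1] : Fin 2 → ℂ) x * (eval p (V1 i k) * eval p (J1 k x)) =
          eval p (V1 i k) * ∑ j, (![-(eval p b), 1] : Fin 2 → ℂ) j * eval p (J1 k j) := by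
        rw [Finset.mul_sum]
        refine Finset.sum_congr rfl fun x _ => ?_
        ring
      rw [h2, h0 k, mul_zero])
    have h2 := congrFun h1 1
    simp at h2
  obtain ⟨M, hMdet, hM0⟩ := q2 v (null v hvne)
  obtain ⟨N, hN⟩ : ∃ N : Matrix (Fin 3) (Fin 3) AA, N = M.adjugate := ⟨_, rfl⟩
  have hMN : M * N = 1 := by rw [hN, Matrix.mul_adjugate, hMdet, one_smul]
  have hNM : N * M = 1 := by rw [hN, Matrix.adjugate_mul, hMdet, one_smul]
  have hNv : ∀ i, ∑ k, N i k * v k = if i = 0 then 1 else 0 := by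
    intro i
    have h3 : (N * M) i 0 = ∑ k, N i k * v k := by
      rw [Matrix.mul_apply]
      exact Finset.sum_congr rfl fun k _ => by rw [hM0]
    rw [← h3, hNM, Matrix.one_apply]
  obtain ⟨U2, hU2⟩ : ∃ U2 : Matrix (Fin 4) (Fin 4) AA, U2 = Matrix.of
      (Fin.cons (Fin.cons 1 (fun k : Fin 3 => -b * N 0 k)) (fun i : Fin 3 => Fin.cons 0 (fun k => N i k))) :=
    ⟨_, rfl⟩
  obtain ⟨V2, hV2⟩ : ∃ V2 : Matrix (Fin 4) (Fin 4) AA, V2 = Matrix.of
      (Fin.cons (Fin.cons 1 (fun k : Fin 3 => if k = 0 then b else 0))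
        (fun i : Fin 3 => Fin.cons 0 (fun k => M i k))) := ⟨_, rfl⟩
  have u00 : U2 0 0 = 1 := by rw [hU2]; rfl
  have u0s : ∀ k : Fin 3, U2 0 k.succ = -b * N 0 k := by intro k; rw [hU2]; rfl
  have us0 : ∀ i : Fin 3, U2 i.succ 0 = 0 := by intro k; rw [hU2]; rfl
  have uss : ∀ i k : Fin 3, U2 i.succ k.succ = N i k := by intro i k; rw [hU2]; rfl
  have v00 : V2 0 0 = 1 := by rw [hV2]; rfl
  have v0s : ∀ k : Fin 3, V2 0 k.succ = if k = 0 then b else 0 := by intro k; rw [hV2]; rfl
  have vs0 : ∀ i : Fin 3, V2 i.succ 0 = 0 := by intro k; rw [hV2]; rfl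
  have vss : ∀ i k : Fin 3, V2 i.succ k.succ = M i k := by intro i k; rw [hV2]; rfl
  have hVU2 : V2 * U2 = 1 := by
    ext i j
    rw [Matrix.mul_apply, Fin.sum_univ_succ]
    refine Fin.cases ?_ (fun i' => ?_) i
    · refine Fin.cases ?_ (fun j' => ?_) j
      · simp [v00, u00, us0]
      · rw [v00, u0s]
        simp only [v0s, uss]
        rw [Matrix.one_apply_ne (Fin.succ_ne_zero j').symm]
        simp
    · refine Fin.cases ?_ (fun j' => ?_) j
      · rw [vs0, Matrix.one_apply_ne (Fin.succ_ne_zero i')]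
        simp [us0]
      · rw [vs0, zero_mul, zero_add]
        simp only [vss, uss]
        rw [← Matrix.mul_apply, hMN, Matrix.one_apply, Matrix.one_apply]
        simp only [Fin.succ_inj]
  have hUV2 : U2 * V2 = 1 := mul_eq_one_comm.1 hVU2
  refine ⟨U2 * U1, V1 * V2, ?_, ?_, ?_⟩
  · calc V1 * V2 * (U2 * U1) = V1 * (V2 * U2) * U1 := by simp only [Matrix.mul_assoc]
      _ = 1 := by rw [hVU2, Matrix.mul_one, hVU1]
  · calc U2 * U1 * (V1 * V2) = U2 * (U1 * V1) * V2 := by simp only [Matrix.mul_assoc]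
      _ = 1 := by rw [hUV1, Matrix.mul_one, hUV2]
  · intro i j
    rw [Matrix.mul_assoc, ← hJ1, Matrix.mul_apply, Fin.sum_univ_succ]
    fin_cases j
    · change U2 i 0 * J1 0 0 + ∑ k : Fin 3, U2 i k.succ * J1 k.succ 0 = if i = (0 : Fin 4) then 1 else 0
      simp only [hJ0, Fin.succ_ne_zero, if_true, if_false, mul_zero, mul_one, Finset.sum_const_zero,
        add_zero]
      refine Fin.cases ?_ (fun i' => ?_) i
      · rw [u00, if_pos rfl]
      · rw [us0, if_neg (Fin.succ_ne_zero i')]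
    · change U2 i 0 * J1 0 1 + ∑ k : Fin 3, U2 i k.succ * J1 k.succ 1 = if i = (1 : Fin 4) then 1 else 0
      simp only [hvk]
      rw [← hb]
      refine Fin.cases ?_ (fun i' => ?_) i
      · rw [u00]
        simp only [u0s]
        have h4 : ∑ k, -b * N 0 k * v k = -b * ∑ k, N 0 k * v k := by
          rw [Finset.mul_sum]
          exact Finset.sum_congr rfl fun k _ => by ring
        rw [h4, hNv]
        simp
      · rw [us0]
        simp only [uss]
        rw [hNv, zero_mul, zero_add]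
        have h5 : (i'.succ = (1 : Fin 4)) ↔ i' = 0 := by
          rw [show (1 : Fin 4) = (0 : Fin 3).succ from rfl, Fin.succ_inj]
        simp only [h5]
end

end PLQ
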