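import Mathlib
import Pool.Agent.Helper722.PL.Q
set_option autoImplicit false
open MvPolynomial

namespace PLQ

/-- the Jacobian matrix -/
noncomputable def Jac (x : Fin 4 → AA) : Matrix (Fin 4) (Fin 2) AA := fun i j => pderiv j (x i)

theorem Q1 (x : Fin 4 → AA) (imm : ∀ p ξ : Fin 2 → ℂ, (∀ i, ∑ j, ξ j * eval p (pderiv j (x i)) = 0) → ξ = 0) :
    ∃ U V : Matrix (Fin 4) (Fin 4) AA, U * V = 1 ∧ V * U = 1 ∧
      U * Jac x =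
        Matrix.of ![![1, 0], ![0, 1], ![0, 0], ![0, 0]] := by
  obtain ⟨U, V, h1, h2, h3⟩ := q1 (Jac x) imm
  refine ⟨U, V, h2, h1, ?_⟩
  ext1 i j
  rw [h3 i j]
  fin_cases i <;> fin_cases j <;> simp

theorem Q2 (f : Fin 3 → AA) (hf : Ideal.span (Set.range f) = ⊤) :
    ∃ Cc : Matrix (Fin 3) (Fin 3) AA, Cc.det = 1 ∧ ∀ i, Cc i 0 = f i := q2 f hf

theorem Q3 (D : Set (Fin 2 → ℂ)) (hD : D.Finite) (G : Matrix (Fin 2) (Fin 2) AA)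
    (h : ∀ p ∈ D, eval p G.det = 1) :
    ∃ G' : Matrix (Fin 2) (Fin 2) AA, G'.det = 1 ∧ ∀ i k, ∀ p ∈ D, eval p (G' i k) = eval p (G i k) := by
  obtain ⟨G', h1, h2⟩ := q3 D hD G (fun p hp => by rw [map_sub, h p hp, map_one, sub_self])
  refine ⟨G', h1, fun i k p hp => ?_⟩
  have := h2 i k p hp
  rw [map_sub, sub_eq_zero] at this
  exact this

theorem Q4 (D : Set (Fin 2 → ℂ)) (hD : D.Finite) :
    ∃ g1 g2 : AA, (∀ p ∈ D, eval p g1 = 0) ∧ (∀ p ∈ D, eval p g2 = 0) ∧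
      ∀ v : (Fin 2 → ℂ) → ℂ, (∀ p ∈ D, v p ≠ 0) →
        ∃ u : AA, (∀ p ∈ D, eval p u = v p) ∧
          ∀ a : AA, (∀ p ∈ D, eval p a = 0) → a ∈ Ideal.span {g1, u * g2} := q4 D hD

end PLQ
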