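import Mathlib
import Pool.Agent.Helper135.PL.Iface
import Pool.Agent.Helper722.PL.QF
set_option autoImplicit false
open MvPolynomial

namespace PL

noncomputable def Jac (x : Fin 4 → AA) : Matrix (Fin 4) (Fin 2) AA := fun i j => pderiv j (x i)

structure UV (x : Fin 4 → AA) (U V : Matrix (Fin 4) (Fin 4) AA) : Prop where
  uv : U * V = 1
  vu : V * U = 1
  hj : U * Jac x = Matrix.of ![![1, 0], ![0, 1], ![0, 0], ![0, 0]]

noncomputable def phi2 (x : Fin 4 → AA) (t : AA) (V : Matrix (Fin 4) (Fin 4) AA) (k : Fin 4)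
    (F : Polynomial RR) : AA := ∑ i, gr x t i F * V i k

noncomputable def MM (x : Fin 4 → AA) (t : AA) (V : Matrix (Fin 4) (Fin 4) AA)
    (f : Fin 3 → Polynomial RR) : Matrix (Fin 3) (Fin 3) AA :=
  fun i => ![tau x t (f i), phi2 x t V 2 (f i), phi2 x t V 3 (f i)]

noncomputable def JJ (x : Fin 4 → AA) (t : AA) : Ideal RR := Ideal.comap Polynomial.C (II x t)

/-- the linear element `G T - H` -/
noncomputable def lin (G H : RR) : Polynomial RR := Polynomial.C G * Polynomial.X - Polynomial.C H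
noncomputable def quadr (α β : RR) : Polynomial RR :=
  Polynomial.X ^ 2 - Polynomial.C α * Polynomial.X - Polynomial.C β


theorem ev_C (x : Fin 4 → AA) (t : AA) (a : RR) : ev x t (Polynomial.C a) = aeval x a := by
  simp [ev]
theorem ev_X (x : Fin 4 → AA) (t : AA) : ev x t Polynomial.X = t := by
  simp [ev]

section J37395
open MvPolynomial

theorem tau_add (x : Fin 4 → AA) (t : AA) (F G : Polynomial RR) : tau x t (F + G) = tau x t F + tau x t G := by
  simp only [tau, Polynomial.derivative_add, map_add]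
theorem tau_mul (x : Fin 4 → AA) (t : AA) (F G : Polynomial RR) :
    tau x t (F * G) = ev x t F * tau x t G + ev x t G * tau x t F := by
  simp only [tau, Polynomial.derivative_mul, map_add, map_mul]
  ring
theorem tau_C (x : Fin 4 → AA) (t : AA) (a : RR) : tau x t (Polynomial.C a) = 0 := by
  simp only [tau, Polynomial.derivative_C, map_zero]
theorem tau_X (x : Fin 4 → AA) (t : AA) : tau x t Polynomial.X = 1 := by
  simp only [tau, Polynomial.derivative_X, map_one]
theorem gr_add (x : Fin 4 → AA) (t : AA) (i : Fin 4) (F G : Polynomial RR) :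
    gr x t i (F + G) = gr x t i F + gr x t i G := by
  unfold gr
  refine Polynomial.sum_add_index F G _ (fun n => ?_) (fun n a b => ?_)
  · simp
  · simp only [map_add, add_mul]
theorem gr_mono_aux (x : Fin 4 → AA) (t : AA) (i : Fin 4) (n : ℕ) (a : RR) :
    gr x t i (Polynomial.monomial n a) = aeval x (pderiv i a) * t ^ n := by
  unfold gr
  exact Polynomial.sum_monomial_index a _ (by simp)
theorem ev_mono_aux (x : Fin 4 → AA) (t : AA) (n : ℕ) (a : RR) :
    ev x t (Polynomial.monomial n a) = aeval x a * t ^ n := by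
  simp [ev, Polynomial.eval₂_monomial]
theorem gr_mul (x : Fin 4 → AA) (t : AA) (i : Fin 4) (F G : Polynomial RR) :
    gr x t i (F * G) = ev x t F * gr x t i G + ev x t G * gr x t i F := by
  induction F using Polynomial.induction_on' with
  | add p q hp hq =>
    rw [add_mul, gr_add, hp, hq, gr_add, map_add]
    ring
  | monomial n a =>
    induction G using Polynomial.induction_on' with
    | add p q hp hq =>
      rw [mul_add, gr_add, hp, hq, gr_add, map_add]
      ring
    | monomial m b =>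
      rw [Polynomial.monomial_mul_monomial, gr_mono_aux, gr_mono_aux, gr_mono_aux, ev_mono_aux,
        ev_mono_aux, Derivation.leibniz, map_add, smul_eq_mul, smul_eq_mul, map_mul, map_mul, pow_add]
      ring
theorem gr_C (x : Fin 4 → AA) (t : AA) (i : Fin 4) (a : RR) :
    gr x t i (Polynomial.C a) = aeval x (pderiv i a) := by
  rw [← Polynomial.monomial_zero_left, gr_mono_aux, pow_zero, mul_one]
theorem gr_X (x : Fin 4 → AA) (t : AA) (i : Fin 4) : gr x t i Polynomial.X = 0 := by
  rw [← Polynomial.monomial_one_one_eq_X, gr_mono_aux]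
  simp

end J37395

section J37396
open MvPolynomial

theorem gr_chain_C (x : Fin 4 → AA) (a : RR) (j : Fin 2) :
    pderiv j (aeval x a : AA) = ∑ i, aeval x (pderiv i a) * pderiv j (x i) := by
  induction a using MvPolynomial.induction_on with
  | C c => simp [MvPolynomial.algebraMap_eq]
  | add p q hp hq =>
    simp only [map_add, hp, hq, add_mul, Finset.sum_add_distrib]
  | mul_X p k hp =>
    have h1 : ∀ i : Fin 4, pderiv i (X k : RR) = if k = i then 1 else 0 := by
      intro i
      rw [pderiv_X]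
      by_cases h : k = i
      · subst h; simp
      · simp [h, Pi.single_apply, eq_comm]
    rw [map_mul, aeval_X, Derivation.leibniz, hp]
    have h2 : ∀ i : Fin 4, (aeval x (pderiv i (p * X k)) : AA) * pderiv j (x i) =
        x k * (aeval x (pderiv i p) * pderiv j (x i)) +
          (if k = i then aeval x p * pderiv j (x i) else 0) := by
      intro i
      rw [Derivation.leibniz, h1 i]
      split_ifs with h
      · simp only [smul_eq_mul, mul_one, map_add, map_mul, aeval_X]
        ring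
      · simp only [smul_eq_mul, mul_zero, zero_add, map_mul, aeval_X]
        ring
    rw [Finset.sum_congr rfl fun i _ => h2 i, Finset.sum_add_distrib, ← Finset.mul_sum,
      Finset.sum_ite_eq]
    simp only [Finset.mem_univ, if_true, smul_eq_mul]
    ring

theorem gr_chain_mul (x : Fin 4 → AA) (t : AA) (F G : Polynomial RR) (j : Fin 2)
    (hF : pderiv j (ev x t F) = ∑ i, gr x t i F * pderiv j (x i) + tau x t F * pderiv j t)
    (hG : pderiv j (ev x t G) = ∑ i, gr x t i G * pderiv j (x i) + tau x t G * pderiv j t) :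
    pderiv j (ev x t (F * G)) = ∑ i, gr x t i (F * G) * pderiv j (x i) +
      tau x t (F * G) * pderiv j t := by
  rw [map_mul, Derivation.leibniz, hF, hG, tau_mul]
  have h : ∀ i : Fin 4, gr x t i (F * G) * pderiv j (x i) =
      ev x t F * (gr x t i G * pderiv j (x i)) + ev x t G * (gr x t i F * pderiv j (x i)) := by
    intro i
    rw [gr_mul]; ring
  rw [Finset.sum_congr rfl fun i _ => h i, Finset.sum_add_distrib, ← Finset.mul_sum,
    ← Finset.mul_sum]
  simp only [smul_eq_mul]
  ring

theorem gr_chain (x : Fin 4 → AA) (t : AA) (F : Polynomial RR) (j : Fin 2) :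
    pderiv j (ev x t F) = ∑ i, gr x t i F * pderiv j (x i) + tau x t F * pderiv j t := by
  have hC : ∀ a : RR, pderiv j (ev x t (Polynomial.C a)) =
      ∑ i, gr x t i (Polynomial.C a) * pderiv j (x i) + tau x t (Polynomial.C a) * pderiv j t := by
    intro a
    rw [ev_C, tau_C, zero_mul, add_zero, gr_chain_C]
    exact Finset.sum_congr rfl fun i _ => by rw [gr_C]
  have hX : pderiv j (ev x t Polynomial.X) =
      ∑ i, gr x t i Polynomial.X * pderiv j (x i) + tau x t Polynomial.X * pderiv j t := by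
    rw [ev_X, tau_X, one_mul]
    simp [gr_X]
  induction F using Polynomial.induction_on with
  | C a => exact hC a
  | add p q hp hq =>
    rw [map_add, map_add, hp, hq, tau_add]
    have h : ∀ i : Fin 4, gr x t i (p + q) * pderiv j (x i) =
        gr x t i p * pderiv j (x i) + gr x t i q * pderiv j (x i) := by
      intro i
      rw [gr_add]; ring
    rw [Finset.sum_congr rfl fun i _ => h i, Finset.sum_add_distrib]
    ring
  | monomial n a h =>
    rw [pow_succ, ← mul_assoc]
    exact gr_chain_mul x t _ _ j h hX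

end J37396

section J37397
open MvPolynomial

theorem inj_sq (x : Fin 4 → AA) (t : AA) (hs : Function.Surjective (ev x t)) (F : Polynomial RR)
    (hF : F ∈ II x t) (h1 : tau x t F = 0) (h2 : ∀ i, gr x t i F = 0) : F ∈ II x t * II x t := by
  choose q hq using fun j : Fin 2 => hs (X j)
  let rho : AA →ₐ[ℂ] Polynomial RR := aeval q
  have hrc : ∀ c : ℂ, rho (C c) = Polynomial.C (C c) := by
    intro c
    simp [rho]
  have hrho : ∀ a : AA, ev x t (rho a) = a := by
    intro a
    induction a using MvPolynomial.induction_on with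
    | C c => rw [hrc, ev_C]; simp
    | add p r hp hr => rw [map_add, map_add, hp, hr]
    | mul_X p j hp =>
      rw [map_mul, map_mul, hp]
      congr 1
      simp only [rho, aeval_X]
      exact hq j
  let h : Fin 4 → Polynomial RR := fun i => Polynomial.C (X i) - rho (x i)
  let hT : Polynomial RR := Polynomial.X - rho t
  have hI : ∀ i, h i ∈ II x t := by
    intro i
    show ev x t (h i) = 0
    simp only [h, map_sub, ev_C, aeval_X, hrho, sub_self]
  have hTI : hT ∈ II x t := by
    show ev x t hT = 0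
    simp only [hT, map_sub, ev_X, hrho, sub_self]
  let dd : Polynomial RR → Polynomial RR := fun G => ∑ i, rho (gr x t i G) * h i + rho (tau x t G) * hT
  have hdd : ∀ G, dd G ∈ II x t := by
    intro G
    apply Ideal.add_mem
    · exact Ideal.sum_mem _ (fun i _ => Ideal.mul_mem_left _ _ (hI i))
    · exact Ideal.mul_mem_left _ _ hTI
  have dd_add : ∀ G H, dd (G + H) = dd G + dd H := by
    intro G H
    simp only [dd, gr_add, tau_add, map_add, add_mul, Finset.sum_add_distrib]
    ring
  have dd_mul : ∀ G H, dd (G * H) = rho (ev x t G) * dd H + rho (ev x t H) * dd G := by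
    intro G H
    simp only [dd, gr_mul, tau_mul, map_add, map_mul, add_mul, Finset.sum_add_distrib, mul_add, Finset.mul_sum]
    have e1 : ∀ (a : Polynomial RR) (f : Fin 4 → Polynomial RR), ∑ i, a * f i * h i = ∑ i, a * (f i * h i) := by
      intro a f
      exact Finset.sum_congr rfl (fun i _ => mul_assoc _ _ _)
    rw [e1, e1]
    ring
  have padd : ∀ G H, G - rho (ev x t G) - dd G ∈ II x t * II x t → H - rho (ev x t H) - dd H ∈ II x t * II x t →
      (G + H) - rho (ev x t (G + H)) - dd (G + H) ∈ II x t * II x t := by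
    intro G H hG hH
    rw [dd_add, map_add, map_add]
    have := Ideal.add_mem _ hG hH
    convert this using 1
    ring
  have pmul : ∀ G H, G - rho (ev x t G) - dd G ∈ II x t * II x t → H - rho (ev x t H) - dd H ∈ II x t * II x t →
      (G * H) - rho (ev x t (G * H)) - dd (G * H) ∈ II x t * II x t := by
    intro G H hG hH
    rw [dd_mul, map_mul, map_mul]
    have e : G * H - rho (ev x t G) * rho (ev x t H) - (rho (ev x t G) * dd H + rho (ev x t H) * dd G)
        = dd G * dd H + H * (G - rho (ev x t G) - dd G)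
          + (rho (ev x t G) + dd G) * (H - rho (ev x t H) - dd H) := by ring
    rw [e]
    apply Ideal.add_mem
    · apply Ideal.add_mem
      · exact Ideal.mul_mem_mul (hdd G) (hdd H)
      · exact Ideal.mul_mem_left _ _ hG
    · exact Ideal.mul_mem_left _ _ hH
  have pC : ∀ a : RR, (Polynomial.C a : Polynomial RR) - rho (ev x t (Polynomial.C a)) - dd (Polynomial.C a) ∈ II x t * II x t := by
    intro a
    induction a using MvPolynomial.induction_on with
    | C c =>
      have : (Polynomial.C (C c) : Polynomial RR) - rho (ev x t (Polynomial.C (C c))) - dd (Polynomial.C (C c)) = 0 := by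
        have e1 : aeval x (C c : RR) = (C c : AA) := by simp
        simp only [dd, gr_C, tau_C, ev_C, pderiv_C, map_zero, zero_mul, Finset.sum_const_zero, add_zero, sub_zero, e1, hrc, sub_self]
      rw [this]; exact Ideal.zero_mem _
    | add p r hp hr =>
      rw [map_add]
      exact padd _ _ hp hr
    | mul_X p j hp =>
      rw [Polynomial.C_mul]
      apply pmul _ _ hp
      have : (Polynomial.C (X j) : Polynomial RR) - rho (ev x t (Polynomial.C (X j))) - dd (Polynomial.C (X j)) = 0 := by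
        have e2 : ∑ i, rho (gr x t i (Polynomial.C (X j))) * h i = h j := by
          rw [Finset.sum_eq_single j]
          · rw [gr_C, pderiv_X_self]; simp
          · intro b _ hb
            rw [gr_C, pderiv_X_of_ne hb.symm]; simp
          · intro hj; exact absurd (Finset.mem_univ j) hj
        simp only [dd, e2, tau_C, map_zero, zero_mul, add_zero, ev_C, aeval_X]
        simp [h]
      rw [this]; exact Ideal.zero_mem _
  have pX : (Polynomial.X : Polynomial RR) - rho (ev x t Polynomial.X) - dd Polynomial.X ∈ II x t * II x t := by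
    have : (Polynomial.X : Polynomial RR) - rho (ev x t Polynomial.X) - dd Polynomial.X = 0 := by
      simp only [dd, gr_X, tau_X, map_zero, zero_mul, Finset.sum_const_zero, zero_add, map_one, one_mul, ev_X]
      simp [hT]
    rw [this]; exact Ideal.zero_mem _
  have pall : ∀ G : Polynomial RR, G - rho (ev x t G) - dd G ∈ II x t * II x t := by
    intro G
    induction G using Polynomial.induction_on with
    | C a => exact pC a
    | add p r hp hr => exact padd _ _ hp hr
    | monomial n a hn =>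
      rw [pow_succ, ← mul_assoc]
      exact pmul _ _ hn pX
  have hfin := pall F
  have hF' : ev x t F = 0 := hF
  have e3 : dd F = 0 := by
    simp [dd, h1, h2]
  rw [hF', e3, map_zero, sub_zero, sub_zero] at hfin
  exact hfin

end J37397

section J37398
open MvPolynomial

theorem dl_zero (δ : Polynomial RR → AA) (hadd : ∀ F G, δ (F + G) = δ F + δ G) : δ 0 = 0 := by
  have h := hadd 0 0
  rw [add_zero] at h
  exact left_eq_add.mp h

theorem dl_sub (δ : Polynomial RR → AA) (hadd : ∀ F G, δ (F + G) = δ F + δ G)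
    (F G : Polynomial RR) : δ (F - G) = δ F - δ G := by
  have h := hadd (F - G) G
  rw [sub_add_cancel] at h
  rw [h]
  ring

theorem dl_sum (δ : Polynomial RR → AA) (hadd : ∀ F G, δ (F + G) = δ F + δ G)
    {ι : Type*} (s : Finset ι) (F : ι → Polynomial RR) : δ (∑ i ∈ s, F i) = ∑ i ∈ s, δ (F i) := by
  classical
  induction s using Finset.induction_on with
  | empty => simpa using dl_zero δ hadd
  | insert a s ha ih => rw [Finset.sum_insert ha, Finset.sum_insert ha, hadd, ih]

theorem ev_rho (x : Fin 4 → AA) (t : AA) (q : Fin 2 → Polynomial RR)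
    (hq : ∀ j, ev x t (q j) = X j) (a : AA) : ev x t (aeval q a) = a := by
  induction a using MvPolynomial.induction_on with
  | C c =>
    have h1 : (aeval q (C c : AA) : Polynomial RR) = Polynomial.C (C c : RR) := by
      rw [MvPolynomial.aeval_C]
      rfl
    rw [h1, ev_C]
    simp
  | add p q hp hq => rw [map_add, map_add, hp, hq]
  | mul_X p j hp => rw [map_mul, map_mul, hp, MvPolynomial.aeval_X, hq]

theorem dl_rho (x : Fin 4 → AA) (t : AA) (q : Fin 2 → Polynomial RR)
    (hq : ∀ j, ev x t (q j) = X j) (δ : Polynomial RR → AA)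
    (hadd : ∀ F G, δ (F + G) = δ F + δ G)
    (hmul : ∀ F G, δ (F * G) = ev x t F * δ G + ev x t G * δ F)
    (hC : ∀ c : ℂ, δ (Polynomial.C (C c)) = 0) (a : AA) :
    δ (aeval q a) = ∑ j, pderiv j a * δ (q j) := by
  induction a using MvPolynomial.induction_on with
  | C c =>
    have h1 : (aeval q (C c : AA) : Polynomial RR) = Polynomial.C (C c : RR) := by
      rw [MvPolynomial.aeval_C]
      rfl
    rw [h1, hC]
    simp
  | add p r hp hr =>
    rw [map_add, hadd, hp, hr, ← Finset.sum_add_distrib]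
    refine Finset.sum_congr rfl fun j _ => ?_
    rw [map_add]
    ring
  | mul_X p i hp =>
    rw [map_mul, hmul, hp, MvPolynomial.aeval_X, ev_rho x t q hq, hq]
    have h2 : ∀ j, pderiv j (p * X i) * δ (q j) =
        (if j = i then p * δ (q i) else 0) + X i * (pderiv j p * δ (q j)) := by
      intro j
      rw [MvPolynomial.pderiv_mul, MvPolynomial.pderiv_X]
      by_cases hji : j = i
      · subst hji
        simp
        ring
      · rw [if_neg hji, Pi.single_eq_of_ne (Ne.symm hji)]
        ring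
    simp_rw [h2]
    rw [Finset.sum_add_distrib, Finset.sum_ite_eq' , if_pos (Finset.mem_univ _), Finset.mul_sum]

theorem dl_main (x : Fin 4 → AA) (t : AA) (q : Fin 2 → Polynomial RR)
    (hq : ∀ j, ev x t (q j) = X j) (δ : Polynomial RR → AA)
    (hadd : ∀ F G, δ (F + G) = δ F + δ G)
    (hmul : ∀ F G, δ (F * G) = ev x t F * δ G + ev x t G * δ F)
    (hC : ∀ c : ℂ, δ (Polynomial.C (C c)) = 0) (m : Fin 4 → AA) (n : AA)
    (h : ∀ j, ∑ i, m i * pderiv j (x i) + n * pderiv j t = 0) :
    δ (∑ i, aeval q (m i) * (Polynomial.C (X i) - aeval q (x i)) +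
      aeval q n * (Polynomial.X - aeval q t)) =
    ∑ i, m i * δ (Polynomial.C (X i)) + n * δ Polynomial.X := by
  have e1 : ∀ i, δ (aeval q (m i) * (Polynomial.C (X i) - aeval q (x i))) =
      m i * (δ (Polynomial.C (X i)) - ∑ j, pderiv j (x i) * δ (q j)) := by
    intro i
    rw [hmul, ev_rho x t q hq, dl_sub δ hadd, dl_rho x t q hq δ hadd hmul hC (x i), map_sub,
      ev_rho x t q hq, ev_C, MvPolynomial.aeval_X, sub_self, zero_mul, add_zero]
  have e2 : δ (aeval q n * (Polynomial.X - aeval q t)) =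
      n * (δ Polynomial.X - ∑ j, pderiv j t * δ (q j)) := by
    rw [hmul, ev_rho x t q hq, dl_sub δ hadd, dl_rho x t q hq δ hadd hmul hC t, map_sub,
      ev_rho x t q hq, ev_X, sub_self, zero_mul, add_zero]
  rw [hadd, dl_sum δ hadd, e2]
  simp_rw [e1]
  have e3 : ∑ i, m i * ∑ j, pderiv j (x i) * δ (q j) + n * ∑ j, pderiv j t * δ (q j) = 0 := by
    have e4 : ∑ j, (∑ i, m i * pderiv j (x i) + n * pderiv j t) * δ (q j) = 0 := by
      refine Finset.sum_eq_zero fun j _ => ?_
      rw [h j, zero_mul]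
    rw [← e4]
    simp_rw [add_mul, Finset.sum_mul, Finset.sum_add_distrib, Finset.mul_sum]
    congr 1
    · rw [Finset.sum_comm]
      exact Finset.sum_congr rfl fun j _ => Finset.sum_congr rfl fun i _ => by ring
    · exact Finset.sum_congr rfl fun j _ => by ring
  simp_rw [mul_sub]
  rw [Finset.sum_sub_distrib]
  linear_combination (-1 : AA) * e3

theorem surj_grad (x : Fin 4 → AA) (t : AA) (hs : Function.Surjective (ev x t)) (m : Fin 4 → AA) (n : AA)
    (h : ∀ j, ∑ i, m i * pderiv j (x i) + n * pderiv j t = 0) :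
    ∃ F ∈ II x t, tau x t F = n ∧ ∀ i, gr x t i F = m i := by
  classical
  choose q hq using fun j : Fin 2 => hs (X j)
  refine ⟨∑ i, aeval q (m i) * (Polynomial.C (X i) - aeval q (x i)) +
      aeval q n * (Polynomial.X - aeval q t), ?_, ?_, ?_⟩
  · rw [II, RingHom.mem_ker, map_add, map_sum, map_mul, map_sub, ev_rho x t q hq, ev_rho x t q hq,
      ev_X, sub_self, mul_zero, add_zero]
    refine Finset.sum_eq_zero fun i _ => ?_
    rw [map_mul, map_sub, ev_rho x t q hq (x i), ev_C, MvPolynomial.aeval_X, sub_self, mul_zero]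
  · rw [dl_main x t q hq (tau x t) (tau_add x t) (tau_mul x t) (fun c => tau_C x t _) m n h, tau_X,
      mul_one]
    simp_rw [tau_C]
    simp
  · intro i0
    rw [dl_main x t q hq (gr x t i0) (gr_add x t i0) (gr_mul x t i0)
      (fun c => by rw [gr_C, MvPolynomial.pderiv_C, map_zero]) m n h, gr_X, mul_zero, add_zero]
    simp_rw [gr_C, MvPolynomial.pderiv_X]
    rw [Finset.sum_eq_single i0]
    · simp
    · intro j _ hj
      rw [Pi.single_eq_of_ne hj]
      simp
    · intro hh
      exact absurd (Finset.mem_univ _) hh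

end J37398

section J37403
open MvPolynomial

theorem c1 (x : Fin 4 → AA) (t : AA) (D : Set (Fin 2 → ℂ)) (π : (Fin 2 → ℂ) → (Fin 2 → ℂ)) (h : CorePos x t D π)
    (α β G1 H1 G2 H2 : RR) (hq : t ^ 2 = aeval x α * t + aeval x β)
    (hH1 : aeval x H1 = aeval x G1 * t) (hH2 : aeval x H2 = aeval x G2 * t)
    (hspan : ∀ a : AA, (∀ p ∈ D, eval p a = 0) → a ∈ Ideal.span {aeval x G1, aeval x G2}) :
    II x t ≤ Ideal.span (Set.range ![quadr α β, lin G1 H1, lin G2 H2]) ⊔ (JJ x t).map Polynomial.C := by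
  classical
  set e : RR →ₐ[ℂ] AA := aeval x with he
  set I0 : Ideal (Polynomial RR) :=
    Ideal.span (Set.range ![quadr α β, lin G1 H1, lin G2 H2]) ⊔ (JJ x t).map Polynomial.C with hI0
  have hBB : ∀ b : AA, b ∈ BB x ↔ ∃ B : RR, e B = b := by
    intro b
    rw [BB, Algebra.adjoin_range_eq_range_aeval]
    exact Iff.rfl
  have hgen : ∀ k : Fin 3, (![quadr α β, lin G1 H1, lin G2 H2]) k ∈ I0 := fun k =>
    Ideal.mem_sup_left (Ideal.subset_span ⟨k, rfl⟩)
  have hq0 : quadr α β ∈ I0 := hgen 0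
  have hl1 : lin G1 H1 ∈ I0 := hgen 1
  have hl2 : lin G2 H2 ∈ I0 := hgen 2
  have hevq : ev x t (quadr α β) = 0 := by
    simp only [quadr, map_sub, map_mul, map_pow, ev_C, ev_X]
    rw [hq]; ring
  have hevl : ∀ G H : RR, e H = e G * t → ev x t (lin G H) = 0 := by
    intro G H hGH
    simp only [lin, map_sub, map_mul, ev_C, ev_X]
    change e G * t - e H = 0
    rw [hGH]; ring
  have hJJ : ∀ a : RR, e a = 0 → Polynomial.C a ∈ I0 := by
    intro a ha
    refine Ideal.mem_sup_right (Ideal.mem_map_of_mem _ ?_)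
    change ev x t (Polynomial.C a) = 0
    rw [ev_C]; exact ha
  have hrs : ∀ u : AA, ∃ R S : RR, u = e R + e S * (e α - t) := by
    intro u
    obtain ⟨b, hb, b', hb', hu⟩ := h.span u
    obtain ⟨B, rfl⟩ := (hBB b).1 hb
    obtain ⟨B', rfl⟩ := (hBB b').1 hb'
    refine ⟨B + B' * α, -B', ?_⟩
    rw [hu]; simp only [map_add, map_mul, map_neg]; ring
  have hsame : ∀ b ∈ BB x, ∀ p ∈ D, eval (π p) b = eval p b := by
    intro b hb p hp
    obtain ⟨B, rfl⟩ := (hBB b).1 hb
    have h1 : ∀ q : Fin 2 → ℂ, eval q (e B) = eval (fun i => eval q (x i)) B := by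
      intro q
      have : (eval q : AA →+* ℂ).comp (e : RR →ₐ[ℂ] AA).toRingHom = eval (fun i => eval q (x i)) := by
        apply MvPolynomial.ringHom_ext
        · intro r; simp [he]
        · intro i; simp [he]
      exact congrArg (fun φ : RR →+* ℂ => φ B) this
    rw [h1, h1]
    congr 1
    have : (fun i => eval (π p) (x i)) = fun i => eval p (x i) := funext (h.same p hp)
    rw [this]
  intro F hF
  have hF0 : ev x t F = 0 := hF
  have hmon : (quadr α β).Monic := by
    have : quadr α β = Polynomial.X ^ 2 - (Polynomial.C α * Polynomial.X + Polynomial.C β) := by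
      simp only [quadr]; ring
    rw [this]
    apply Polynomial.monic_X_pow_sub
    refine (Polynomial.degree_linear_le).trans_lt ?_
    norm_num
  have hdeg : (quadr α β).natDegree = 2 := by
    have : quadr α β = Polynomial.X ^ 2 - (Polynomial.C α * Polynomial.X + Polynomial.C β) := by
      simp only [quadr]; ring
    rw [this, Polynomial.natDegree_sub_eq_left_of_natDegree_lt]
    · simp
    · refine (Polynomial.natDegree_linear_le).trans_lt ?_
      simp
  obtain ⟨a, c, hac⟩ : ∃ a c : RR, F %ₘ quadr α β = Polynomial.C a * Polynomial.X + Polynomial.C c := by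
    apply Polynomial.exists_eq_X_add_C_of_natDegree_le_one
    have h1 := Polynomial.natDegree_modByMonic_lt F hmon (by
      intro h1
      rw [h1] at hdeg
      simp at hdeg)
    omega
  have hdiv := Polynomial.modByMonic_add_div F (quadr α β)
  rw [hac] at hdiv
  have hac0 : e a * t + e c = 0 := by
    have h1 := congrArg (ev x t) hdiv
    simp only [map_add, map_mul, ev_C, ev_X, hevq, hF0, zero_mul, add_zero] at h1
    exact h1
  have hvan : ∀ p ∈ D, eval p (e a) = 0 := by
    intro p hp
    have h1 : eval (π p) (e a) = eval p (e a) := hsame _ ((hBB _).2 ⟨a, rfl⟩) p hp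
    have h2 : eval (π p) (e a * t) = eval p (e a * t) := by
      have : e a * t = e (-c) := by rw [map_neg]; linear_combination hac0
      rw [this]
      exact hsame _ ((hBB _).2 ⟨-c, rfl⟩) p hp
    rw [map_mul, map_mul, h1] at h2
    have h3 : eval p (e a) * (eval (π p) t - eval p t) = 0 := by linear_combination h2
    rcases mul_eq_zero.1 h3 with h4 | h4
    · exact h4
    · exact (h.sep p hp (sub_eq_zero.1 h4)).elim
  obtain ⟨u1, u2, hu⟩ := Ideal.mem_span_pair.1 (hspan _ hvan)
  obtain ⟨R1, S1, hu1⟩ := hrs u1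
  obtain ⟨R2, S2, hu2⟩ := hrs u2
  set A' : RR := a - (S1 * G1 * α + R1 * G1 - S1 * H1) - (S2 * G2 * α + R2 * G2 - S2 * H2) with hA'
  set C' : RR := c - (S1 * G1 * β - R1 * H1) - (S2 * G2 * β - R2 * H2) with hC'
  have hid : F = (quadr α β) * (F /ₘ quadr α β)
      + ((Polynomial.C R1 + Polynomial.C S1 * Polynomial.X) * lin G1 H1
          - Polynomial.C (S1 * G1) * quadr α β)
      + ((Polynomial.C R2 + Polynomial.C S2 * Polynomial.X) * lin G2 H2
          - Polynomial.C (S2 * G2) * quadr α β)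
      + (Polynomial.C A' * Polynomial.X + Polynomial.C C') := by
    have hexp : ∀ R S G H : RR, (Polynomial.C R + Polynomial.C S * Polynomial.X) * lin G H
          - Polynomial.C (S * G) * quadr α β
        = Polynomial.C (S * G * α + R * G - S * H) * Polynomial.X
          + Polynomial.C (S * G * β - R * H) := by
      intro R S G H
      simp only [lin, quadr, Polynomial.C_mul, Polynomial.C_add, Polynomial.C_sub]
      ring
    rw [hexp, hexp, hA', hC']
    simp only [Polynomial.C_mul, Polynomial.C_add, Polynomial.C_sub]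
    linear_combination hdiv.symm
  have hA0 : e A' = 0 := by
    simp only [hA', map_sub, map_add, map_mul]
    have h1 : e H1 = e G1 * t := hH1
    have h2 : e H2 = e G2 * t := hH2
    have h3 : u1 * e G1 + u2 * e G2 = e a := hu
    rw [h1, h2, ← h3, hu1, hu2]; ring
  have hC0 : e C' = 0 := by
    have h1 := congrArg (ev x t) hid
    simp only [map_add, map_mul, map_sub, ev_C, ev_X, hevq, hF0, hevl G1 H1 hH1, hevl G2 H2 hH2,
      zero_mul, mul_zero, add_zero, zero_add, sub_zero] at h1
    have hA0' : (aeval x) A' = 0 := hA0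
    rw [hA0', zero_mul, zero_add] at h1
    exact h1.symm
  rw [hid]
  refine I0.add_mem (I0.add_mem (I0.add_mem (I0.mul_mem_right _ hq0) ?_) ?_) ?_
  · exact I0.sub_mem (I0.mul_mem_left _ hl1) (I0.mul_mem_left _ hq0)
  · exact I0.sub_mem (I0.mul_mem_left _ hl2) (I0.mul_mem_left _ hq0)
  · exact I0.add_mem (I0.mul_mem_right _ (hJJ _ hA0)) (hJJ _ hC0)

end J37403

section J37417
open MvPolynomial

section C3
variable (x : Fin 4 → AA) (t : AA)

/-- gradient evaluated on the plane -/
noncomputable def dd3 (G : RR) : Fin 4 → AA := fun i => aeval x (pderiv i G)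

theorem dd3_add (G H : RR) (i : Fin 4) : dd3 x (G + H) i = dd3 x G i + dd3 x H i := by
  simp [dd3]
theorem dd3_sub (G H : RR) (i : Fin 4) : dd3 x (G - H) i = dd3 x G i - dd3 x H i := by
  simp [dd3]
theorem dd3_neg (G : RR) (i : Fin 4) : dd3 x (-G) i = - dd3 x G i := by
  simp [dd3]
theorem dd3_zero (i : Fin 4) : dd3 x 0 i = 0 := by
  simp [dd3]
theorem dd3_mul (G H : RR) (i : Fin 4) :
    dd3 x (G * H) i = aeval x G * dd3 x H i + aeval x H * dd3 x G i := by
  simp only [dd3, Derivation.leibniz, smul_eq_mul, map_add, map_mul]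

/-- membership in the module of gradients of `J` -/
def InJ3 (v : Fin 4 → AA) : Prop :=
  ∃ j0 j1 : RR, aeval x j0 = 0 ∧ aeval x j1 = 0 ∧ ∀ i, dd3 x j0 i + dd3 x j1 i * t = v i

theorem InJ3.congr {v w : Fin 4 → AA} (h : InJ3 x t v) (e : ∀ i, v i = w i) : InJ3 x t w := by
  obtain ⟨j0, j1, h0, h1, h2⟩ := h
  exact ⟨j0, j1, h0, h1, fun i => (h2 i).trans (e i)⟩

theorem InJ3.zero : InJ3 x t (fun _ => 0) :=
  ⟨0, 0, by simp, by simp, by intro i; simp [dd3_zero]⟩

theorem InJ3.add {v w : Fin 4 → AA} (h : InJ3 x t v) (h' : InJ3 x t w) :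
    InJ3 x t (fun i => v i + w i) := by
  obtain ⟨j0, j1, h0, h1, h2⟩ := h
  obtain ⟨l0, l1, g0, g1, g2⟩ := h'
  refine ⟨j0 + l0, j1 + l1, by rw [map_add, h0, g0, add_zero], by rw [map_add, h1, g1, add_zero], fun i => ?_⟩
  beta_reduce
  rw [dd3_add, dd3_add, ← h2 i, ← g2 i]
  ring

theorem InJ3.neg {v : Fin 4 → AA} (h : InJ3 x t v) : InJ3 x t (fun i => - v i) := by
  obtain ⟨j0, j1, h0, h1, h2⟩ := h
  refine ⟨-j0, -j1, by rw [map_neg, h0, neg_zero], by rw [map_neg, h1, neg_zero], fun i => ?_⟩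
  beta_reduce
  rw [dd3_neg, dd3_neg, ← h2 i]
  ring

theorem InJ3.smul (hsp : ∀ a : AA, ∃ b ∈ BB x, ∃ b' ∈ BB x, a = b + b' * t)
    (α β : RR) (hq : t ^ 2 = aeval x α * t + aeval x β)
    (a : AA) {v : Fin 4 → AA} (h : InJ3 x t v) : InJ3 x t (fun i => a * v i) := by
  obtain ⟨j0, j1, h0, h1, h2⟩ := h
  obtain ⟨b, hb, b', hb', rfl⟩ := hsp a
  unfold BB at hb hb'
  rw [Algebra.adjoin_range_eq_range_aeval] at hb hb'
  obtain ⟨B, rfl⟩ := hb
  obtain ⟨B', rfl⟩ := hb'
  refine ⟨B * j0 + B' * β * j1, B * j1 + B' * j0 + B' * α * j1,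
    by rw [map_add, map_mul, map_mul, h0, h1, mul_zero, mul_zero, add_zero],
    by rw [map_add, map_add, map_mul, map_mul, map_mul, h0, h1, mul_zero, mul_zero, mul_zero, add_zero, add_zero], fun i => ?_⟩
  have e1 : ∀ C j : RR, aeval x j = 0 → dd3 x (C * j) i = aeval x C * dd3 x j i := by
    intro C j hj
    rw [dd3_mul, hj, zero_mul, add_zero]
  rw [dd3_add, dd3_add, dd3_add, e1 _ _ h0, e1 _ _ h1, e1 _ _ h1, e1 _ _ h0, e1 _ _ h1]
  change _ = (aeval x B + aeval x B' * t) * v i
  rw [← h2 i]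
  simp only [map_mul]
  linear_combination (- (aeval x B') * dd3 x j1 i) * hq

theorem key3 (b1 b2 : AA) (G1 H1 G2 H2 : RR) (e1 : aeval x G1 = b1) (f1 : aeval x H1 = b1 * t)
    (e2 : aeval x G2 = b2) (f2 : aeval x H2 = b2 * t) :
    InJ3 x t (fun i => b1 * (t * dd3 x G2 i - dd3 x H2 i) - b2 * (t * dd3 x G1 i - dd3 x H1 i)) := by
  refine ⟨G2 * H1 - G1 * H2, 0, by rw [map_sub, map_mul, map_mul, e1, f1, e2, f2]; ring, by simp, fun i => ?_⟩
  rw [dd3_sub, dd3_mul, dd3_mul, e1, f1, e2, f2, dd3_zero]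
  ring

theorem gr3_zero (i : Fin 4) : gr x t i 0 = 0 := by
  have := gr_C x t i 0
  simpa using this
theorem gr3_neg (i : Fin 4) (F : Polynomial RR) : gr x t i (-F) = - gr x t i F := by
  have := gr_add x t i F (-F)
  rw [add_neg_cancel, gr3_zero] at this
  exact (neg_eq_of_add_eq_zero_right this.symm).symm
theorem gr3_sub (i : Fin 4) (F G : Polynomial RR) : gr x t i (F - G) = gr x t i F - gr x t i G := by
  rw [sub_eq_add_neg, gr_add, gr3_neg]; ring
theorem tau3_zero : tau x t 0 = 0 := by
  have := tau_C x t 0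
  simpa using this
theorem tau3_neg (F : Polynomial RR) : tau x t (-F) = - tau x t F := by
  have := tau_add x t F (-F)
  rw [add_neg_cancel, tau3_zero] at this
  exact (neg_eq_of_add_eq_zero_right this.symm).symm
theorem tau3_sub (F G : Polynomial RR) : tau x t (F - G) = tau x t F - tau x t G := by
  rw [sub_eq_add_neg, tau_add, tau3_neg]; ring

theorem jpart3 (hsp : ∀ a : AA, ∃ b ∈ BB x, ∃ b' ∈ BB x, a = b + b' * t)
    (α β : RR) (hq : t ^ 2 = aeval x α * t + aeval x β) (z : Polynomial RR)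
    (hz : z ∈ (JJ x t).map Polynomial.C) :
    ev x t z = 0 ∧ tau x t z = 0 ∧ InJ3 x t (fun i => gr x t i z) := by
  unfold Ideal.map at hz
  induction hz using Submodule.span_induction with
  | mem y hy =>
    obtain ⟨j, hj, rfl⟩ := hy
    have hj' : ev x t (Polynomial.C j) = 0 := hj
    have hj2 : aeval x j = 0 := by rw [← ev_C x t j]; exact hj'
    refine ⟨hj', tau_C x t j, ?_⟩
    refine ⟨j, 0, hj2, by simp, fun i => ?_⟩
    change _ = gr x t i (Polynomial.C j)
    rw [gr_C, dd3_zero]
    simp [dd3]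
  | zero =>
    refine ⟨by simp, tau3_zero x t, ?_⟩
    exact (InJ3.zero x t).congr x t (fun i => (gr3_zero x t i).symm)
  | add y w _ _ hy hw =>
    refine ⟨by rw [map_add, hy.1, hw.1, add_zero], by rw [tau_add, hy.2.1, hw.2.1, add_zero], ?_⟩
    exact (hy.2.2.add x t hw.2.2).congr x t (fun i => (gr_add x t i y w).symm)
  | smul a y _ hy =>
    rw [smul_eq_mul]
    refine ⟨by rw [map_mul, hy.1, mul_zero], by rw [tau_mul, hy.1, hy.2.1]; ring, ?_⟩
    refine (InJ3.smul x t hsp α β hq (ev x t a) hy.2.2).congr x t (fun i => ?_)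
    rw [gr_mul, hy.1]
    ring

theorem unim3 (D : Set (Fin 2 → ℂ)) (hD : D.Finite) (c0 g1 g2 : AA) (hc : ∀ p ∈ D, eval p c0 ≠ 0)
    (hspan : ∀ a : AA, (∀ p ∈ D, eval p a = 0) → a ∈ Ideal.span {g1, g2}) :
    ∃ v0 v1 v2 : AA, v0 * c0 + v1 * g1 + v2 * g2 = 1 := by
  classical
  have key : ∀ S : Finset (Fin 2 → ℂ), (∀ p ∈ S, eval p c0 ≠ 0) →
      ∃ (z : ℂ) (w : AA), z ≠ 0 ∧ ∏ p ∈ S, (c0 - C (eval p c0)) = C z + c0 * w := by
    intro S
    induction S using Finset.induction_on with
    | empty => intro _; exact ⟨1, 0, one_ne_zero, by simp⟩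
    | insert p S hp ih =>
      intro h
      obtain ⟨z, w, hz, he⟩ := ih (fun q hq => h q (Finset.mem_insert_of_mem hq))
      refine ⟨z * (- eval p c0), C z + w * (c0 - C (eval p c0)), mul_ne_zero hz (neg_ne_zero.2 (h p (Finset.mem_insert_self _ _))), ?_⟩
      rw [Finset.prod_insert hp, he]
      simp only [map_mul, map_neg]
      ring
  obtain ⟨z, w, hz, he⟩ := key hD.toFinset (fun p hp => hc p (hD.mem_toFinset.1 hp))
  have hmem := hspan (∏ p ∈ hD.toFinset, (c0 - C (eval p c0))) (by
    intro p hp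
    rw [map_prod]
    apply Finset.prod_eq_zero (hD.mem_toFinset.2 hp)
    simp)
  rw [he, Ideal.mem_span_pair] at hmem
  obtain ⟨a, b, hab⟩ := hmem
  have hzz : (C z⁻¹ : AA) * C z = 1 := by
    rw [← C_mul, inv_mul_cancel₀ hz, C_1]
  refine ⟨- (C z⁻¹ * w), C z⁻¹ * a, C z⁻¹ * b, ?_⟩
  linear_combination hzz + (C z⁻¹ : AA) * hab

theorem evalx3 (q : Fin 2 → ℂ) (F : RR) : eval q (aeval x F) = eval (fun i => eval q (x i)) F := by
  have e : (eval q).comp ((aeval x : RR →ₐ[ℂ] AA).toRingHom) = eval (fun i => eval q (x i)) := by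
    apply MvPolynomial.ringHom_ext
    · intro r
      change eval q (aeval x (C r)) = _
      rw [aeval_C, eval_C]
      exact eval_C _
    · intro i
      change eval q (aeval x (X i)) = _
      rw [aeval_X, eval_X]
  exact RingHom.congr_fun e F

end C3

theorem c3 (x : Fin 4 → AA) (t : AA) (D : Set (Fin 2 → ℂ)) (π : (Fin 2 → ℂ) → (Fin 2 → ℂ)) (h : CorePos x t D π)
    (α β G1 H1 G2 H2 : RR) (hq : t ^ 2 = aeval x α * t + aeval x β)
    (hH1 : aeval x H1 = aeval x G1 * t) (hH2 : aeval x H2 = aeval x G2 * t)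
    (hv1 : ∀ p ∈ D, eval p (aeval x G1) = 0) (hv2 : ∀ p ∈ D, eval p (aeval x G2) = 0)
    (hspan : ∀ a : AA, (∀ p ∈ D, eval p a = 0) → a ∈ Ideal.span {aeval x G1, aeval x G2})
    (b : AA) (hb : ∀ p ∈ D, eval p b = 0) (m : Fin 4 → AA) (hm : ∀ j, ∑ i, m i * pderiv j (x i) = 0) :
    ∃ j0 j1 : RR, aeval x j0 = 0 ∧ aeval x j1 = 0 ∧
      ∀ i, aeval x (pderiv i j0) + aeval x (pderiv i j1) * t = b * m i := by
  classical
  obtain ⟨F, hF, hFt, hFg⟩ := surj_grad x t h.gen m 0 (by intro j; rw [hm j]; ring)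
  have hF1 := c1 x t D π h α β G1 H1 G2 H2 hq hH1 hH2 hspan hF
  rw [Submodule.mem_sup] at hF1
  obtain ⟨y, hy, z, hz, hyz⟩ := hF1
  rw [Ideal.mem_span_range_iff_exists_fun] at hy
  obtain ⟨c, hc⟩ := hy
  rw [Fin.sum_univ_three] at hc
  simp only [Matrix.cons_val_zero, Matrix.cons_val_one, Matrix.cons_val] at hc
  obtain ⟨hz1, hz2, hz3⟩ := jpart3 x t h.span α β hq z hz
  have hsm := fun (a : AA) {v : Fin 4 → AA} (hv : InJ3 x t v) => InJ3.smul x t h.span α β hq a hv
  -- evaluations
  have evq : ev x t (quadr α β) = 0 := by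
    unfold quadr
    rw [map_sub, map_sub, map_pow, map_mul, ev_X, ev_C, ev_C, hq]; ring
  have evl1 : ev x t (lin G1 H1) = 0 := by
    unfold lin
    rw [map_sub, map_mul, ev_X, ev_C, ev_C, hH1]; ring
  have evl2 : ev x t (lin G2 H2) = 0 := by
    unfold lin
    rw [map_sub, map_mul, ev_X, ev_C, ev_C, hH2]; ring
  have tq : tau x t (quadr α β) = 2 * t - aeval x α := by
    unfold quadr
    rw [tau3_sub, tau3_sub, pow_two, tau_mul, tau_mul, tau_X, tau_C, tau_C, ev_X, ev_C]; ring
  have tl : ∀ G H : RR, tau x t (lin G H) = aeval x G := by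
    intro G H
    unfold lin
    rw [tau3_sub, tau_mul, tau_X, tau_C, tau_C, ev_X, ev_C]; ring
  have gq : ∀ i, gr x t i (quadr α β) = - (t * dd3 x α i + dd3 x β i) := by
    intro i
    unfold quadr
    rw [gr3_sub, gr3_sub, pow_two, gr_mul, gr_mul, gr_X, gr_C, gr_C, ev_X, ev_C]
    simp only [dd3]; ring
  have gl : ∀ (G H : RR) i, gr x t i (lin G H) = t * dd3 x G i - dd3 x H i := by
    intro G H i
    unfold lin
    rw [gr3_sub, gr_mul, gr_X, gr_C, gr_C, ev_X, ev_C]
    simp only [dd3]; ring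
  set a0 := ev x t (c 0) with ha0
  set a1 := ev x t (c 1) with ha1
  set a2 := ev x t (c 2) with ha2
  set g1 := aeval x G1 with hg1
  set g2 := aeval x G2 with hg2
  -- tau equation
  have htau : a0 * (2 * t - aeval x α) + a1 * g1 + a2 * g2 = 0 := by
    have e := hFt
    rw [← hyz, ← hc, tau_add, tau_add, tau_add, tau_mul, tau_mul, tau_mul, evq, evl1, evl2, tq, tl, tl, hz2] at e
    linear_combination e
  have hmi : ∀ i, m i = a0 * (-(t * dd3 x α i + dd3 x β i)) + a1 * (t * dd3 x G1 i - dd3 x H1 i)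
      + a2 * (t * dd3 x G2 i - dd3 x H2 i) + gr x t i z := by
    intro i
    rw [← hFg i, ← hyz, ← hc, gr_add, gr_add, gr_add, gr_mul, gr_mul, gr_mul, evq, evl1, evl2, gq, gl, gl]
    ring
  -- unimodularity
  have hx : ∀ p ∈ D, ∀ F : RR, eval (π p) (aeval x F) = eval p (aeval x F) := by
    intro p hp F
    have e2 : (fun i => eval (π p) (x i)) = fun i => eval p (x i) := _root_.funext (h.same p hp)
    rw [evalx3, evalx3, e2]
  have hc0 : ∀ p ∈ D, eval p (2 * t - aeval x α) ≠ 0 := by
    intro p hp h0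
    have q1 := congrArg (eval p) hq
    have q2 := congrArg (eval (π p)) hq
    simp only [map_pow, map_add, map_mul] at q1 q2
    rw [hx p hp, hx p hp] at q2
    have hs := h.sep p hp
    have h0' : 2 * eval p t - eval p (aeval x α) = 0 := by
      have := h0
      rw [map_sub, map_mul] at this
      simpa using this
    have e3 : (eval (π p) t - eval p t) * (eval (π p) t - eval p t) = 0 := by
      linear_combination q2 - q1 + (-(eval (π p) t - eval p t)) * h0'
    have := mul_self_eq_zero.1 e3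
    exact hs (sub_eq_zero.1 this)
  obtain ⟨v0, v1, v2, hv⟩ := unim3 D h.fin (2 * t - aeval x α) g1 g2 hc0 hspan
  have A0 : a0 = g1 * (v1 * a0 - v0 * a1) + g2 * (v2 * a0 - v0 * a2) := by
    linear_combination (-a0) * hv + v0 * htau
  have A1 : a1 = -(2 * t - aeval x α) * (v1 * a0 - v0 * a1) + g2 * (v2 * a1 - v1 * a2) := by
    linear_combination (-a1) * hv + v1 * htau
  have A2 : a2 = -(2 * t - aeval x α) * (v2 * a0 - v0 * a2) - g1 * (v2 * a1 - v1 * a2) := by
    linear_combination (-a2) * hv + v2 * htau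
  obtain ⟨Gb, hGb⟩ : ∃ G : RR, aeval x G = b := by
    have := h.cond b hb
    unfold BB at this
    rw [Algebra.adjoin_range_eq_range_aeval] at this
    exact this
  obtain ⟨Hb, hHb⟩ : ∃ G : RR, aeval x G = b * t := by
    have := h.cond (b * t) (by intro p hp; rw [map_mul, hb p hp, zero_mul])
    unfold BB at this
    rw [Algebra.adjoin_range_eq_range_aeval] at this
    exact this
  have L5 : ∀ (G H : RR) (g : AA), aeval x G = g → aeval x H = g * t →
      InJ3 x t (fun i => b * (g * (-(t * dd3 x α i + dd3 x β i)) - (2 * t - aeval x α) * (t * dd3 x G i - dd3 x H i))) := by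
    intro G H g hG hH
    have P1 := key3 x t b (g * (aeval x α - t)) Gb Hb (G * α - H) (-(G * β)) hGb hHb
      (by rw [map_sub, map_mul, hG, hH]; ring)
      (by rw [map_neg, map_mul, hG]; linear_combination g * hq)
    have P2 := key3 x t b g Gb Hb G H hGb hHb hG hH
    refine ((P1.neg x t).add x t (hsm (aeval x α - t) P2)).congr x t (fun i => ?_)
    beta_reduce
    rw [dd3_sub, dd3_neg, dd3_mul, dd3_mul, hG]
    linear_combination (b * dd3 x G i) * hq
  have M1 := hsm (v1 * a0 - v0 * a1) (L5 G1 H1 g1 hg1.symm hH1)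
  have M2 := hsm (v2 * a0 - v0 * a2) (L5 G2 H2 g2 hg2.symm hH2)
  have M3 := hsm (-((v2 * a1 - v1 * a2) * b)) (key3 x t g1 g2 G1 H1 G2 H2 hg1.symm hH1 hg2.symm hH2)
  have M4 := hsm b hz3
  have fin := (((M1.add x t M2).add x t M3).add x t M4).congr x t (w := fun i => b * m i) (by
    intro i
    beta_reduce
    rw [hmi i]
    linear_combination (-(b * (-(t * dd3 x α i + dd3 x β i)))) * A0 + (-(b * (t * dd3 x G1 i - dd3 x H1 i))) * A1
      + (-(b * (t * dd3 x G2 i - dd3 x H2 i))) * A2)
  exact fin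

end J37417

section J37419
open MvPolynomial

theorem c4_target (x : Fin 4 → AA) (t : AA) (hs : Function.Surjective (ev x t))
    (U V : Matrix (Fin 4) (Fin 4) AA) (hUV : UV x U V) (n e2 e3 : AA) :
    ∃ F ∈ II x t, tau x t F = n ∧ phi2 x t V 2 F = e2 ∧ phi2 x t V 3 F = e3 := by
  have hj : ∀ a j, ∑ i, U a i * pderiv j (x i) =
      (Matrix.of ![![1, 0], ![0, 1], ![0, 0], ![0, 0]] : Matrix (Fin 4) (Fin 2) AA) a j := by
    intro a j
    have h := congrFun (congrFun hUV.hj a) j
    rw [Matrix.mul_apply] at h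
    exact h
  have huv : ∀ a k, ∑ i, U a i * V i k = (1 : Matrix (Fin 4) (Fin 4) AA) a k := by
    intro a k
    have h := congrFun (congrFun hUV.uv a) k
    rw [Matrix.mul_apply] at h
    exact h
  have hlin : ∀ g : Fin 4 → AA, ∑ i, (-n * (pderiv 0 t * U 0 i + pderiv 1 t * U 1 i) +
      e2 * U 2 i + e3 * U 3 i) * g i =
      -n * (pderiv 0 t * ∑ i, U 0 i * g i + pderiv 1 t * ∑ i, U 1 i * g i) +
      e2 * ∑ i, U 2 i * g i + e3 * ∑ i, U 3 i * g i := by
    intro g
    simp only [Fin.sum_univ_four]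
    ring
  obtain ⟨F, hF, h1, h2⟩ := surj_grad x t hs
    (fun i => -n * (pderiv 0 t * U 0 i + pderiv 1 t * U 1 i) + e2 * U 2 i + e3 * U 3 i) n (by
      intro j
      rw [hlin (fun i => pderiv j (x i)), hj, hj, hj, hj]
      fin_cases j
      · simp
      · simp)
  refine ⟨F, hF, h1, ?_, ?_⟩
  · unfold phi2
    simp only [h2]
    rw [hlin (fun i => V i 2), huv, huv, huv, huv]
    simp
  · unfold phi2
    simp only [h2]
    rw [hlin (fun i => V i 3), huv, huv, huv, huv]
    simp

theorem c4_phi_add (x : Fin 4 → AA) (t : AA) (V : Matrix (Fin 4) (Fin 4) AA) (k : Fin 4)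
    (F G : Polynomial RR) : phi2 x t V k (F + G) = phi2 x t V k F + phi2 x t V k G := by
  unfold phi2
  rw [← Finset.sum_add_distrib]
  refine Finset.sum_congr rfl fun i _ => ?_
  rw [gr_add]
  ring

theorem c4_phi_mul (x : Fin 4 → AA) (t : AA) (V : Matrix (Fin 4) (Fin 4) AA) (k : Fin 4)
    (a F : Polynomial RR) (hF : ev x t F = 0) :
    phi2 x t V k (a * F) = ev x t a * phi2 x t V k F := by
  unfold phi2
  rw [Finset.mul_sum]
  refine Finset.sum_congr rfl fun i _ => ?_
  rw [gr_mul, hF]
  ring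

/-- the ideal of the elements on which the functional vanishes -/
noncomputable def c4_ideal (x : Fin 4 → AA) (t : AA) (V : Matrix (Fin 4) (Fin 4) AA)
    (p : Fin 2 → ℂ) (w : Fin 3 → ℂ) : Ideal (Polynomial RR) where
  carrier := {F | ev x t F = 0 ∧ eval p (tau x t F) * w 0 + eval p (phi2 x t V 2 F) * w 1 +
    eval p (phi2 x t V 3 F) * w 2 = 0}
  add_mem' := by
    rintro F G ⟨h1, h2⟩ ⟨h3, h4⟩
    refine ⟨by rw [map_add, h1, h3, add_zero], ?_⟩
    rw [tau_add, c4_phi_add, c4_phi_add, map_add, map_add, map_add]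
    linear_combination h2 + h4
  zero_mem' := by
    refine ⟨map_zero _, ?_⟩
    have h1 : tau x t 0 = 0 := by simp [tau]
    have h2 : ∀ k, phi2 x t V k 0 = 0 := by
      intro k
      simp [phi2, gr]
    rw [h1, h2, h2]
    simp
  smul_mem' := by
    rintro a F ⟨h1, h2⟩
    rw [smul_eq_mul]
    refine ⟨by rw [map_mul, h1, mul_zero], ?_⟩
    rw [c4_phi_mul x t V 2 a F h1, c4_phi_mul x t V 3 a F h1, tau_mul, h1, zero_mul, add_zero,
      map_mul, map_mul, map_mul]
    linear_combination (eval p (ev x t a)) * h2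

/-- the determinant does not vanish at the double points -/
theorem c4 (x : Fin 4 → AA) (t : AA) (D : Set (Fin 2 → ℂ)) (π : (Fin 2 → ℂ) → (Fin 2 → ℂ)) (h : CorePos x t D π)
    (U V : Matrix (Fin 4) (Fin 4) AA) (hUV : UV x U V) (f : Fin 3 → Polynomial RR)
    (hf : ∀ i, f i ∈ II x t)
    (hI : II x t ≤ Ideal.span (Set.range f) ⊔ (JJ x t).map Polynomial.C) :
    ∀ p ∈ D, eval p (MM x t V f).det ≠ 0 := by
  intro p hp hdet
  have hdet' : ((MM x t V f).map (eval p)).det = 0 := by
    have h1 := RingHom.map_det (eval p) (MM x t V f)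
    rw [hdet] at h1
    rw [h1]
    rfl
  obtain ⟨w, hw0, hw⟩ := Matrix.exists_mulVec_eq_zero_iff.2 hdet'
  have hle : II x t ≤ c4_ideal x t V p w := by
    refine hI.trans (sup_le ?_ ?_)
    · rw [Ideal.span_le]
      rintro _ ⟨i, rfl⟩
      refine ⟨hf i, ?_⟩
      have h1 := congrFun hw i
      simp only [Matrix.mulVec, dotProduct, Fin.sum_univ_three, Matrix.map_apply, MM,
        Pi.zero_apply] at h1
      simpa using h1
    · rw [Ideal.map_le_iff_le_comap]
      intro a ha
      rw [Ideal.mem_comap]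
      have ha' : ev x t (Polynomial.C a) = 0 := ha
      refine ⟨ha', ?_⟩
      have ha2 : aeval x a = 0 := by rw [← ev_C x t a]; exact ha'
      have hk : ∀ k, eval p (phi2 x t V k (Polynomial.C a)) = 0 := by
        intro k
        unfold phi2
        rw [map_sum]
        refine Finset.sum_eq_zero fun i _ => ?_
        rw [map_mul, gr_C, h.grad a ha2 p hp i, zero_mul]
      rw [tau_C, hk, hk]
      simp
  have hval : ∀ n e2 e3 : AA, eval p n * w 0 + eval p e2 * w 1 + eval p e3 * w 2 = 0 := by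
    intro n e2 e3
    obtain ⟨F, hF, h1, h2, h3⟩ := c4_target x t h.gen U V hUV n e2 e3
    have h4 := (hle hF).2
    rw [h1, h2, h3] at h4
    exact h4
  apply hw0
  have w0 : w 0 = 0 := by simpa using hval 1 0 0
  have w1 : w 1 = 0 := by simpa using hval 0 1 0
  have w2 : w 2 = 0 := by simpa using hval 0 0 1
  funext i
  fin_cases i
  · exact w0
  · exact w1
  · exact w2

end J37419

section J37421
open MvPolynomial

/-- scaling of a generator of the conductor -/
theorem c4b (x : Fin 4 → AA) (t : AA) (D : Set (Fin 2 → ℂ)) (π : (Fin 2 → ℂ) → (Fin 2 → ℂ)) (h : CorePos x t D π)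
    (u : AA) (G H G' H' : RR) (hH : aeval x H = aeval x G * t)
    (hG' : aeval x G' = u * aeval x G) (hH' : aeval x H' = u * aeval x G * t)
    (hv : ∀ p ∈ D, eval p (aeval x G) = 0) :
    ∀ p ∈ D, ∀ i, eval p (gr x t i (lin G' H')) = eval (π p) u * eval p (gr x t i (lin G H)) := by
  intro p hp i
  have hlin : ∀ A B : RR, gr x t i (lin A B) = t * aeval x (pderiv i A) - aeval x (pderiv i B) := by
    intro A B
    have h1 : gr x t i (Polynomial.C A * Polynomial.X) = gr x t i (lin A B)
        + gr x t i (Polynomial.C B) := by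
      rw [← gr_add]
      congr 1
      unfold lin
      ring
    rw [gr_mul, gr_X, gr_C, gr_C, ev_X, mul_zero, zero_add] at h1
    rw [h1]
    ring
  have hlift : ∀ b ∈ BB x, ∃ F : RR, aeval x F = b := by
    intro b hb
    unfold BB at hb
    rw [Algebra.adjoin_range_eq_range_aeval] at hb
    obtain ⟨F, hF⟩ := hb
    exact ⟨F, hF⟩
  have hsame : ∀ F : RR, eval (π p) (aeval x F) = eval p (aeval x F) := by
    intro F
    induction F using MvPolynomial.induction_on with
    | C a => simp
    | add F G hF hG => rw [map_add, map_add, map_add, hF, hG]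
    | mul_X F j hF => rw [map_mul, map_mul, map_mul, hF, aeval_X, h.same p hp j]
  have hgrad : ∀ F F' : RR, aeval x F = aeval x F' →
      eval p (aeval x (pderiv i F)) = eval p (aeval x (pderiv i F')) := by
    intro F F' hFF
    have h1 : aeval x (F - F') = 0 := by rw [map_sub, hFF, sub_self]
    have h2 := h.grad (F - F') h1 p hp i
    rw [map_sub, map_sub, map_sub, sub_eq_zero] at h2
    exact h2
  obtain ⟨α, hα, β, hβ, hq⟩ := h.quad
  obtain ⟨A, rfl⟩ := hlift α hα
  obtain ⟨B, rfl⟩ := hlift β hβ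
  obtain ⟨r, hr, s, hs, hu⟩ := h.span u
  obtain ⟨R, rfl⟩ := hlift r hr
  obtain ⟨S, rfl⟩ := hlift s hs
  have hvG := hv p hp
  have hvH : eval p (aeval x H) = 0 := by rw [hH, map_mul, hvG, zero_mul]
  have hdG' : eval p (aeval x (pderiv i G')) = eval p (aeval x (pderiv i (R * G + S * H))) := by
    apply hgrad
    rw [hG', hu, map_add, map_mul, map_mul, hH]
    ring
  have hdH' : eval p (aeval x (pderiv i H'))
      = eval p (aeval x (pderiv i (R * H + S * (A * H + B * G)))) := by
    apply hgrad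
    rw [hH', hu, map_add, map_mul, map_mul, map_add, map_mul, map_mul, hH]
    linear_combination (aeval x S * aeval x G) * hq
  have hdmul : ∀ F K : RR, eval p (aeval x (pderiv i (F * K)))
      = eval p (aeval x F) * eval p (aeval x (pderiv i K))
        + eval p (aeval x K) * eval p (aeval x (pderiv i F)) := by
    intro F K
    rw [pderiv_mul, map_add, map_mul, map_mul, map_add, map_mul, map_mul]
    ring
  have hdadd : ∀ F K : RR, eval p (aeval x (pderiv i (F + K)))
      = eval p (aeval x (pderiv i F)) + eval p (aeval x (pderiv i K)) := by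
    intro F K
    rw [map_add, map_add, map_add]
  rw [hdadd, hdmul, hdmul, hvG, hvH] at hdG'
  rw [hdadd, hdmul, hdmul, hdadd, hdmul, hdmul, map_add, map_add, map_mul, map_mul, map_mul,
    map_mul, hvG, hvH] at hdH'
  have hT : (eval p t) ^ 2 = eval p (aeval x A) * eval p t + eval p (aeval x B) := by
    have := congrArg (eval p) hq
    rwa [map_pow, map_add, map_mul] at this
  have hT' : (eval (π p) t) ^ 2 = eval p (aeval x A) * eval (π p) t + eval p (aeval x B) := by
    have := congrArg (eval (π p)) hq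
    rwa [map_pow, map_add, map_mul, hsame, hsame] at this
  have hne : eval (π p) t - eval p t ≠ 0 := sub_ne_zero.mpr (h.sep p hp)
  have hsum : eval (π p) t + eval p t = eval p (aeval x A) := by
    apply mul_left_cancel₀ hne
    linear_combination hT' - hT
  have hprod : eval p (aeval x B) = - (eval (π p) t * eval p t) := by
    linear_combination (-1 : ℂ) * hT + eval p t * hsum
  have hu' : eval (π p) u = eval p (aeval x R) + eval p (aeval x S) * eval (π p) t := by
    rw [hu, map_add, map_mul, hsame, hsame]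
  rw [hlin, hlin, map_sub, map_sub, map_mul, map_mul, hdG', hdH', hu', hprod, ← hsum]
  ring

end J37421

section J37527
open MvPolynomial

theorem c5 (x : Fin 4 → AA) (t : AA) (D : Set (Fin 2 → ℂ)) (π : (Fin 2 → ℂ) → (Fin 2 → ℂ)) (h : CorePos x t D π)
    (U V : Matrix (Fin 4) (Fin 4) AA) (hUV : UV x U V)
    (α β G1 H1 G2 H2 : RR) (hq : t ^ 2 = aeval x α * t + aeval x β)
    (hH1 : aeval x H1 = aeval x G1 * t) (hH2 : aeval x H2 = aeval x G2 * t)
    (hv1 : ∀ p ∈ D, eval p (aeval x G1) = 0) (hv2 : ∀ p ∈ D, eval p (aeval x G2) = 0)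
    (hspan : ∀ a : AA, (∀ p ∈ D, eval p a = 0) → a ∈ Ideal.span {aeval x G1, aeval x G2})
    (e2 e3 : AA) (h2 : ∀ p ∈ D, eval p e2 = 0) (h3 : ∀ p ∈ D, eval p e3 = 0) :
    ∃ j0 j1 : RR, aeval x j0 = 0 ∧ aeval x j1 = 0 ∧
      phi2 x t V 2 (Polynomial.C j0 + Polynomial.C j1 * Polynomial.X) = e2 ∧
      phi2 x t V 3 (Polynomial.C j0 + Polynomial.C j1 * Polynomial.X) = e3 := by
  have row : ∀ k : Fin 4, (∀ j, (U * Jac x) k j = 0) → ∀ j, ∑ i, U k i * pderiv j (x i) = 0 := by
    intro k hk j
    have := hk j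
    rw [Matrix.mul_apply] at this
    exact this
  have r2 : ∀ j, (U * Jac x) 2 j = 0 := by
    intro j
    rw [hUV.hj]
    fin_cases j <;> simp
  have r3 : ∀ j, (U * Jac x) 3 j = 0 := by
    intro j
    rw [hUV.hj]
    fin_cases j <;> simp
  obtain ⟨a0, a1, ha0, ha1, ha⟩ := c3 x t D π h α β G1 H1 G2 H2 hq hH1 hH2 hv1 hv2 hspan e2 h2 (fun i => U 2 i) (row 2 r2)
  obtain ⟨b0, b1, hb0, hb1, hb⟩ := c3 x t D π h α β G1 H1 G2 H2 hq hH1 hH2 hv1 hv2 hspan e3 h3 (fun i => U 3 i) (row 3 r3)
  have hg : ∀ i, gr x t i (Polynomial.C (a0 + b0) + Polynomial.C (a1 + b1) * Polynomial.X) = e2 * U 2 i + e3 * U 3 i := by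
    intro i
    rw [gr_add, gr_mul, gr_C, gr_C, gr_X, ev_C, ev_X, mul_zero, zero_add, map_add, map_add, map_add, map_add,
      ← ha i, ← hb i]
    ring
  have hph : ∀ k, phi2 x t V k (Polynomial.C (a0 + b0) + Polynomial.C (a1 + b1) * Polynomial.X) =
      e2 * (U * V) 2 k + e3 * (U * V) 3 k := by
    intro k
    unfold phi2
    rw [Matrix.mul_apply, Matrix.mul_apply, Finset.mul_sum, Finset.mul_sum, ← Finset.sum_add_distrib]
    refine Finset.sum_congr rfl (fun i _ => ?_)
    rw [hg i]
    ring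
  refine ⟨a0 + b0, a1 + b1, ?_, ?_, ?_, ?_⟩
  · rw [map_add, ha0, hb0, add_zero]
  · rw [map_add, ha1, hb1, add_zero]
  · rw [hph 2, hUV.uv]
    simp [Matrix.one_apply]
  · rw [hph 3, hUV.uv]
    simp [Matrix.one_apply]

end J37527

section J37529
open MvPolynomial

/-- three elements whose matrix is invertible generate I modulo I^2 -/
theorem cB (x : Fin 4 → AA) (t : AA) (hs : Function.Surjective (ev x t))
    (U V : Matrix (Fin 4) (Fin 4) AA) (hUV : UV x U V) (F : Fin 3 → Polynomial RR)
    (hF : ∀ i, F i ∈ II x t) (hdet : (MM x t V F).det = 1) :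
    II x t ≤ Ideal.span (Set.range F) ⊔ II x t * II x t := by
  intro G hG
  obtain ⟨w, hw⟩ : ∃ w : Fin 3 → AA, w = ![tau x t G, phi2 x t V 2 G, phi2 x t V 3 G] := ⟨_, rfl⟩
  have hdetu : IsUnit (MM x t V F).det := by rw [hdet]; exact isUnit_one
  obtain ⟨a, ha⟩ : ∃ a : Fin 3 → AA, Matrix.vecMul a (MM x t V F) = w :=
    ⟨Matrix.vecMul w (MM x t V F)⁻¹, by
      rw [Matrix.vecMul_vecMul, Matrix.nonsing_inv_mul _ hdetu, Matrix.vecMul_one]⟩
  choose A hA using fun i => hs (a i)
  have hevF : ∀ i, ev x t (F i) = 0 := fun i => hF i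
  have hevG : ev x t G = 0 := hG
  obtain ⟨S, hS⟩ : ∃ S, S = A 0 * F 0 + A 1 * F 1 + A 2 * F 2 := ⟨_, rfl⟩
  obtain ⟨Kk, hK⟩ : ∃ Kk, Kk = G - S := ⟨_, rfl⟩
  have hGK : G = Kk + S := by rw [hK]; ring
  have hevS : ev x t S = 0 := by
    rw [hS, map_add, map_add, map_mul, map_mul, map_mul, hevF, hevF, hevF]
    ring
  have hevK : ev x t Kk = 0 := by
    rw [hK, map_sub, hevG, hevS, sub_zero]
  have htauS : tau x t S = a 0 * tau x t (F 0) + a 1 * tau x t (F 1) + a 2 * tau x t (F 2) := by
    rw [hS, tau_add, tau_add, tau_mul, tau_mul, tau_mul, hevF, hevF, hevF, hA, hA, hA]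
    ring
  have hgrS : ∀ i, gr x t i S = a 0 * gr x t i (F 0) + a 1 * gr x t i (F 1) + a 2 * gr x t i (F 2) := by
    intro i
    rw [hS, gr_add, gr_add, gr_mul, gr_mul, gr_mul, hevF, hevF, hevF, hA, hA, hA]
    ring
  have hphiS : ∀ k, phi2 x t V k S =
      a 0 * phi2 x t V k (F 0) + a 1 * phi2 x t V k (F 1) + a 2 * phi2 x t V k (F 2) := by
    intro k
    simp only [phi2, hgrS, Fin.sum_univ_four]
    ring
  have hphiadd : ∀ k, phi2 x t V k G = phi2 x t V k Kk + phi2 x t V k S := by
    intro k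
    rw [hGK]
    simp only [phi2, gr_add, Fin.sum_univ_four]
    ring
  have e0 := congrFun ha 0
  have e1 := congrFun ha 1
  have e2 := congrFun ha 2
  simp only [Matrix.vecMul, dotProduct, Fin.sum_univ_three, MM, hw, Matrix.cons_val_zero,
    Matrix.cons_val_one, Matrix.cons_val] at e0 e1 e2
  have htauK : tau x t Kk = 0 := by
    have h1 : tau x t G = tau x t Kk + tau x t S := by rw [← tau_add, ← hGK]
    rw [htauS] at h1
    linear_combination -e0 - h1
  have hphi2K : phi2 x t V 2 Kk = 0 := by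
    have h1 := hphiadd 2
    rw [hphiS] at h1
    linear_combination -e1 - h1
  have hphi3K : phi2 x t V 3 Kk = 0 := by
    have h1 := hphiadd 3
    rw [hphiS] at h1
    linear_combination -e2 - h1
  obtain ⟨γ, hγ⟩ : ∃ γ : Fin 4 → AA, γ = fun i => gr x t i Kk := ⟨_, rfl⟩
  have hγJ : Matrix.vecMul γ (Jac x) = 0 := by
    funext j
    have h1 := gr_chain x t Kk j
    rw [hevK, htauK, map_zero, zero_mul, add_zero] at h1
    simp only [Matrix.vecMul, dotProduct, hγ, Jac, Pi.zero_apply]
    exact h1.symm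
  obtain ⟨w', hw'⟩ : ∃ w' : Fin 4 → AA, w' = Matrix.vecMul γ V := ⟨_, rfl⟩
  have hw'U : Matrix.vecMul w' U = γ := by
    rw [hw', Matrix.vecMul_vecMul, hUV.vu, Matrix.vecMul_one]
  have hw'E : Matrix.vecMul w' (Matrix.of ![![1, 0], ![0, 1], ![0, 0], ![0, 0]]) = 0 := by
    rw [← hUV.hj, ← Matrix.vecMul_vecMul, hw'U, hγJ]
  have f0 := congrFun hw'E 0
  have f1 := congrFun hw'E 1
  simp [Matrix.vecMul, dotProduct, Fin.sum_univ_four] at f0 f1
  have f2 : w' 2 = 0 := by
    rw [hw']
    simp only [Matrix.vecMul, dotProduct, hγ]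
    exact hphi2K
  have f3 : w' 3 = 0 := by
    rw [hw']
    simp only [Matrix.vecMul, dotProduct, hγ]
    exact hphi3K
  have hw'0 : w' = 0 := by
    funext i
    fin_cases i
    · exact f0
    · exact f1
    · exact f2
    · exact f3
  have hγ0 : ∀ i, gr x t i Kk = 0 := by
    intro i
    have h1 : γ = 0 := by rw [← hw'U, hw'0, Matrix.zero_vecMul]
    have h2 := congrFun h1 i
    rw [hγ] at h2
    exact h2
  have hKsq := inj_sq x t hs Kk hevK htauK hγ0
  rw [hGK, add_comm]
  refine Submodule.add_mem_sup ?_ hKsq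
  rw [hS]
  have hmem : ∀ i, A i * F i ∈ Ideal.span (Set.range F) :=
    fun i => Ideal.mul_mem_left _ _ (Ideal.subset_span ⟨i, rfl⟩)
  exact Ideal.add_mem _ (Ideal.add_mem _ (hmem 0) (hmem 1)) (hmem 2)

end J37529

theorem Q1 (x : Fin 4 → AA) (imm : ∀ p ξ : Fin 2 → ℂ, (∀ i, ∑ j, ξ j * eval p (pderiv j (x i)) = 0) → ξ = 0) :
    ∃ U V, UV x U V := by
  obtain ⟨U, V, h1, h2, h3⟩ := PLQ.Q1 x imm
  exact ⟨U, V, ⟨h1, h2, h3⟩⟩

end PL
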