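import Mathlib
import Pool.Agent.Helper722.PL.Suslin
set_option autoImplicit false
open Polynomial

namespace PLP

theorem suslin_row {L : Type*} [CommRing L] (f : Fin 3 → L[X]) (hm : (f 0).Monic)
    (hu : Ideal.span (Set.range f) = ⊤) (h : L[X]) :
    ∃ Γ : Matrix (Fin 3) (Fin 3) (L[X][X]), Γ.det = 1 ∧
      Γ.map (Polynomial.eval 0) = 1 ∧
      ∀ i, ∑ k, C (f k) * Γ k i = (f i).eval₂ (C.comp C) (C X + X * C h) :=
  PLS.suslin_row f hm hu h

section J36823
open Polynomial

theorem quillen_split_det {K : Type*} [Field K] (γ : Matrix (Fin 3) (Fin 3) K[X])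
    (hdet : γ.det = 1) (x : K) : (γ.map (Polynomial.eval x)).det = 1 := by
  have h := (Polynomial.evalRingHom x).map_det γ
  rw [hdet, map_one] at h
  exact h.symm

theorem quillen_split_main {Q K : Type*} [CommRing Q] [IsDomain Q] [Field K] [Algebra Q K] [IsFractionRing Q K]
    (s j : Q) (hsj : s + j = 1) (hs : s ≠ 0) (hj : j ≠ 0)
    (γ : Matrix (Fin 3) (Fin 3) K[X]) (hdet : γ.det = 1)
    (h0 : γ.map (Polynomial.eval 0) = 1) (M : ℕ)
    (hden : ∀ a b, ∀ k, ∃ q : Q, algebraMap Q K ((s * j) ^ M) * (γ a b).coeff k = algebraMap Q K q) :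
    ∃ γs γj : Matrix (Fin 3) (Fin 3) K, γs.det = 1 ∧ γj.det = 1 ∧
      γ.map (Polynomial.eval 1) = γs * γj ∧
      (∃ n : ℕ, ∀ a b, ∃ q : Q, algebraMap Q K (s ^ n) * γs a b = algebraMap Q K q) ∧
      (∃ n : ℕ, ∀ a b, ∃ q : Q, algebraMap Q K (j ^ n) * γj a b = algebraMap Q K q) := by
  classical
  let f : Q →+* K := algebraMap Q K
  have hf : Function.Injective f := IsFractionRing.injective Q K
  have hfs : ∀ n : ℕ, f (s ^ n) ≠ 0 := fun n h => pow_ne_zero n hs (hf (by rw [h, map_zero]))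
  have hfj : ∀ n : ℕ, f (j ^ n) ≠ 0 := fun n h => pow_ne_zero n hj (hf (by rw [h, map_zero]))
  set c : K := f ((s * j) ^ M) with hc
  have hcs : c = f (s ^ M) * f (j ^ M) := by rw [hc, mul_pow, map_mul]
  -- integral lifts
  have hlift : ∀ a b, ∃ p0 : Q[X], p0.map f = C c * γ a b := by
    intro a b
    have hmem : C c * γ a b ∈ Polynomial.lifts f := by
      rw [Polynomial.lifts_iff_coeff_lifts]
      intro k
      obtain ⟨q, hq⟩ := hden a b k
      refine ⟨q, ?_⟩
      rw [Polynomial.coeff_C_mul]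
      exact hq.symm
    obtain ⟨p0, hp0⟩ := (Polynomial.mem_lifts _).1 hmem
    exact ⟨p0, hp0⟩
  choose G0 hG0 using hlift
  have hev : ∀ a b (t : Q), c * (γ a b).eval (f t) = f ((G0 a b).eval t) := by
    intro a b t
    have h1 : (C c * γ a b).eval (f t) = c * (γ a b).eval (f t) := by
      rw [Polynomial.eval_mul, Polynomial.eval_C]
    rw [← h1, ← hG0 a b, Polynomial.eval_map, Polynomial.eval₂_at_apply]
  -- comaximality
  have hcop : IsCoprime s j := ⟨1, 1, by rw [one_mul, one_mul, hsj]⟩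
  obtain ⟨u, v, huv⟩ := (hcop.pow : IsCoprime (s ^ (3 * M)) (j ^ (3 * M)))
  set t : Q := u * s ^ (3 * M) with ht
  have ht1 : 1 - t = v * j ^ (3 * M) := by rw [ht, ← huv]; ring
  set A : Matrix (Fin 3) (Fin 3) K := γ.map (Polynomial.eval (f t)) with hA
  set G1 : Matrix (Fin 3) (Fin 3) K := γ.map (Polynomial.eval 1) with hG1
  have hdA : A.det = 1 := quillen_split_det γ hdet _
  have hdG : G1.det = 1 := quillen_split_det γ hdet _
  have hAadj : A * A.adjugate = 1 := by rw [Matrix.mul_adjugate, hdA, one_smul]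
  have hadjA : A.adjugate * A = 1 := by rw [Matrix.adjugate_mul, hdA, one_smul]
  -- integral matrix
  set A0 : Matrix (Fin 3) (Fin 3) Q := Matrix.of fun a b => (G0 a b).eval t with hA0
  have hcA : c • A = A0.map f := by
    ext a b
    rw [Matrix.smul_apply, smul_eq_mul, Matrix.map_apply]
    exact hev a b t
  have hadj0 : c ^ 2 • A.adjugate = A0.adjugate.map f := by
    have h1 : (c • A).adjugate = c ^ (Fintype.card (Fin 3) - 1) • A.adjugate :=
      Matrix.adjugate_smul c A
    have h2 : (A0.map f).adjugate = A0.adjugate.map f := by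
      have := f.map_adjugate A0
      exact this.symm
    rw [hcA, h2] at h1
    rw [h1]
    simp
  have hw1 : ∀ a b, ∃ w : Q, (G0 a b).eval t - (G0 a b).eval 0 = t * w := by
    intro a b
    obtain ⟨w, hw⟩ := Polynomial.sub_dvd_eval_sub t 0 (G0 a b)
    exact ⟨w, by rw [hw, sub_zero]⟩
  have hw2 : ∀ a b, ∃ w : Q, (G0 a b).eval 1 - (G0 a b).eval t = (1 - t) * w := by
    intro a b
    obtain ⟨w, hw⟩ := Polynomial.sub_dvd_eval_sub 1 t (G0 a b)
    exact ⟨w, hw⟩
  choose w1 hw1 using hw1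
  choose w2 hw2 using hw2
  refine ⟨G1 * A.adjugate, A, ?_, hdA, ?_, ⟨3 * M, ?_⟩, ⟨M, ?_⟩⟩
  · rw [Matrix.det_mul, hdG, one_mul]
    have := congrArg Matrix.det hAadj
    rwa [Matrix.det_mul, hdA, one_mul, Matrix.det_one] at this
  · rw [Matrix.mul_assoc, hadjA, Matrix.mul_one]
  · intro a b
    have hdec : G1 * A.adjugate = 1 + (G1 - A) * A.adjugate := by
      rw [Matrix.sub_mul, hAadj]; abel
    have hD : c • (G1 - A) = (Matrix.of fun a b => (v * j ^ (3 * M)) * w2 a b).map f := by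
      ext a b
      rw [Matrix.smul_apply, smul_eq_mul, Matrix.map_apply, Matrix.sub_apply, Matrix.of_apply]
      have h1 : c * G1 a b = f ((G0 a b).eval 1) := by
        have := hev a b 1
        rwa [map_one] at this
      have h2 : c * A a b = f ((G0 a b).eval t) := hev a b t
      rw [mul_sub, h1, h2, ← map_sub, hw2, ht1]
    set W : Matrix (Fin 3) (Fin 3) Q := Matrix.of fun a b => w2 a b with hW
    have hDW : (Matrix.of fun a b => (v * j ^ (3 * M)) * w2 a b) = (v * j ^ (3 * M)) • W := by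
      ext a b; simp [hW]
    have h3 : c ^ 3 • ((G1 - A) * A.adjugate) =
        (((v * j ^ (3 * M)) • W) * A0.adjugate).map f := by
      rw [Matrix.map_mul, ← hDW, ← hD, ← hadj0, Matrix.smul_mul, Matrix.mul_smul, smul_smul]
      congr 1
      ring
    have h4 : c ^ 3 * ((G1 - A) * A.adjugate) a b = f (v * j ^ (3 * M) * (W * A0.adjugate) a b) := by
      have h5 := congrFun (congrFun h3 a) b
      rw [Matrix.smul_apply, smul_eq_mul, Matrix.map_apply, Matrix.smul_mul, Matrix.smul_apply,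
        smul_eq_mul] at h5
      exact h5
    have h6 : c ^ 3 = f (j ^ (3 * M)) * f (s ^ (3 * M)) := by
      rw [hcs, mul_pow, ← map_pow, ← map_pow, ← pow_mul, ← pow_mul, mul_comm M 3, mul_comm]
    have h7 : f (s ^ (3 * M)) * ((G1 - A) * A.adjugate) a b = f (v * (W * A0.adjugate) a b) := by
      apply mul_left_cancel₀ (hfj (3 * M))
      rw [← mul_assoc, ← h6, h4, ← map_mul]
      congr 1
      ring
    refine ⟨s ^ (3 * M) * (1 : Matrix (Fin 3) (Fin 3) Q) a b + v * (W * A0.adjugate) a b, ?_⟩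
    show f (s ^ (3 * M)) * (G1 * A.adjugate) a b = f _
    rw [hdec, Matrix.add_apply, mul_add, h7, map_add, map_mul]
    congr 2
    rw [Matrix.one_apply, Matrix.one_apply]
    split_ifs <;> simp
  · intro a b
    have h1 : c * (γ a b).eval 0 = f ((G0 a b).eval 0) := by
      have := hev a b 0
      rwa [map_zero] at this
    have h2 : c * A a b = f ((G0 a b).eval t) := hev a b t
    have h3 : (γ a b).eval 0 = (1 : Matrix (Fin 3) (Fin 3) K) a b := by
      have := congrFun (congrFun h0 a) b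
      rwa [Matrix.map_apply] at this
    have h4 : c * (A a b - (γ a b).eval 0) = f (t * w1 a b) := by
      rw [mul_sub, h1, h2, ← map_sub, hw1]
    have h5 : f (j ^ M) * (A a b - (γ a b).eval 0) = f (u * s ^ (2 * M) * w1 a b) := by
      apply mul_left_cancel₀ (hfs M)
      rw [← mul_assoc, ← hcs, h4, ← map_mul]
      congr 1
      rw [ht]
      have : s ^ (3 * M) = s ^ M * s ^ (2 * M) := by rw [← pow_add]; congr 1; ring
      rw [this]; ring
    refine ⟨j ^ M * (1 : Matrix (Fin 3) (Fin 3) Q) a b + u * s ^ (2 * M) * w1 a b, ?_⟩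
    show f (j ^ M) * A a b = f _
    have h6 : A a b = (γ a b).eval 0 + (A a b - (γ a b).eval 0) := by ring
    rw [h6, mul_add, h5, map_add, map_mul, h3]
    congr 2
    rw [Matrix.one_apply, Matrix.one_apply]
    split_ifs <;> simp

/-- Quillen splitting: `K` is a domain's fraction field (or any commutative ring) containing the subrings; here we use localisations of a domain `Q`.
`γ(Z) ∈ SL_3(Q_{sj}[Z])`, `γ(0) = 1`, `s + j = 1`. Then `γ(1) = γ_s γ_j` with `γ_s ∈ SL_3(Q_s)`, `γ_j ∈ SL_3(Q_j)`. -/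
theorem quillen_split {Q K : Type*} [CommRing Q] [IsDomain Q] [Field K] [Algebra Q K] [IsFractionRing Q K]
    (s j : Q) (hsj : s + j = 1) (γ : Matrix (Fin 3) (Fin 3) K[X]) (hdet : γ.det = 1)
    (h0 : γ.map (Polynomial.eval 0) = 1)
    (hden : ∀ a b, ∃ n : ℕ, ∀ k, ∃ q : Q, algebraMap Q K ((s * j) ^ n) * (γ a b).coeff k = algebraMap Q K q) :
    ∃ γs γj : Matrix (Fin 3) (Fin 3) K, γs.det = 1 ∧ γj.det = 1 ∧
      γ.map (Polynomial.eval 1) = γs * γj ∧
      (∃ n : ℕ, ∀ a b, ∃ q : Q, algebraMap Q K (s ^ n) * γs a b = algebraMap Q K q) ∧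
      (∃ n : ℕ, ∀ a b, ∃ q : Q, algebraMap Q K (j ^ n) * γj a b = algebraMap Q K q) := by
  classical
  have hone : ∀ t : Q, ∃ n : ℕ, ∀ a b, ∃ q : Q,
      algebraMap Q K (t ^ n) * (1 : Matrix (Fin 3) (Fin 3) K) a b = algebraMap Q K q := by
    intro t
    refine ⟨0, fun a b => ⟨(1 : Matrix (Fin 3) (Fin 3) Q) a b, ?_⟩⟩
    rw [pow_zero, map_one, one_mul, Matrix.one_apply, Matrix.one_apply]
    split_ifs <;> simp
  have hzero : ∀ (t : Q) (B : Matrix (Fin 3) (Fin 3) K), t = 0 → ∃ n : ℕ, ∀ a b, ∃ q : Q,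
      algebraMap Q K (t ^ n) * B a b = algebraMap Q K q := by
    intro t B ht
    exact ⟨1, fun a b => ⟨0, by rw [ht]; simp⟩⟩
  by_cases hs : s = 0
  · exact ⟨γ.map (Polynomial.eval 1), 1, quillen_split_det γ hdet 1, Matrix.det_one,
      (Matrix.mul_one _).symm, hzero s _ hs, hone j⟩
  by_cases hj : j = 0
  · exact ⟨1, γ.map (Polynomial.eval 1), Matrix.det_one, quillen_split_det γ hdet 1,
      (Matrix.one_mul _).symm, hone s, hzero j _ hj⟩
  choose nn hnn using hden
  let M : ℕ := Finset.univ.sup fun p : Fin 3 × Fin 3 => nn p.1 p.2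
  refine quillen_split_main s j hsj hs hj γ hdet h0 M (fun a b k => ?_)
  obtain ⟨q, hq⟩ := hnn a b k
  have hle : nn a b ≤ M := Finset.le_sup (f := fun p : Fin 3 × Fin 3 => nn p.1 p.2)
    (Finset.mem_univ (a, b))
  refine ⟨(s * j) ^ (M - nn a b) * q, ?_⟩
  rw [map_mul, ← hq, ← mul_assoc, ← map_mul, ← pow_add, Nat.sub_add_cancel hle]

end J36823

section J36824
open Polynomial

namespace PL131

/-- elements of `K` with denominators powers of `a`. -/
def Dn {Q K : Type*} [CommRing Q] [CommRing K] [Algebra Q K] (a : Q) : Subring K where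
  carrier := {x | ∃ n : ℕ, ∃ q : Q, algebraMap Q K (a ^ n) * x = algebraMap Q K q}
  mul_mem' := by
    rintro x y ⟨n, q, h⟩ ⟨m, p, k⟩
    refine ⟨n + m, q * p, ?_⟩
    rw [map_mul, ← h, ← k, pow_add, map_mul]; ring
  one_mem' := ⟨0, 1, by simp⟩
  add_mem' := by
    rintro x y ⟨n, q, h⟩ ⟨m, p, k⟩
    refine ⟨n + m, a ^ m * q + a ^ n * p, ?_⟩
    rw [map_add, map_mul, map_mul, ← h, ← k, pow_add, map_mul]; ring
  zero_mem' := ⟨0, 0, by simp⟩
  neg_mem' := by
    rintro x ⟨n, q, h⟩
    exact ⟨n, -q, by rw [map_neg, ← h]; ring⟩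

lemma algebraMap_mem_Dn {Q K : Type*} [CommRing Q] [CommRing K] [Algebra Q K] (a q : Q) :
    algebraMap Q K q ∈ (Dn a : Subring K) := ⟨0, q, by simp⟩

lemma adj_mem {K : Type*} [CommRing K] (D : Subring K) (M : Matrix (Fin 3) (Fin 3) K)
    (h : ∀ a b, M a b ∈ D) : ∀ a b, M.adjugate a b ∈ D := by
  intro a b
  have h1 : M = (Matrix.of fun a b => (⟨M a b, h a b⟩ : D)).map D.subtype := by
    ext a b; simp
  have h2 := (RingHom.map_adjugate D.subtype (Matrix.of fun a b => (⟨M a b, h a b⟩ : D)))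
  have h3 : M.adjugate = (Matrix.adjugate (Matrix.of fun a b => (⟨M a b, h a b⟩ : D))).map D.subtype := by
    rw [RingHom.mapMatrix_apply] at h2
    rw [h2, RingHom.mapMatrix_apply, ← h1]
  rw [h3]
  simp

lemma unif {Q K ι : Type*} [Fintype ι] [CommRing Q] [CommRing K] [Algebra Q K] (a : Q)
    (x : ι → K) (h : ∀ i, x i ∈ (Dn a : Subring K)) :
    ∃ n : ℕ, ∃ q : ι → Q, ∀ i, algebraMap Q K (a ^ n) * x i = algebraMap Q K (q i) := by
  classical
  choose n q hq using h
  refine ⟨∑ i, n i, fun i => a ^ (∑ k ∈ Finset.univ.erase i, n k) * q i, fun i => ?_⟩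
  have h1 : ∑ k, n k = (∑ k ∈ Finset.univ.erase i, n k) + n i :=
    (Finset.sum_erase_add _ _ (Finset.mem_univ i)).symm
  rw [h1, pow_add, map_mul, map_mul, mul_assoc, hq i]

/-- Part B: from the splitting of `γ(1)` to generators of the ideal. -/
theorem partB {R K : Type*} [CommRing R] [IsDomain R] [Field K] [Algebra R[X] K]
    [IsFractionRing R[X] K] (I : Ideal R[X]) (f : Fin 3 → R[X])
    (hf : ∀ i, f i ∈ I) (s j w s' j' t' : R) (hs' : s' = s * w) (hj' : j' = j * t')
    (hsj : s' + j' = 1) (hj : C j ∈ I) (hw0 : w ≠ 0) (hj0 : j ≠ 0)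
    (hs : ∀ g ∈ I, C s' * g ∈ Ideal.span (Set.range f)) (d : ℕ)
    (γs γj : Matrix (Fin 3) (Fin 3) K) (hγs : γs.det = 1) (hγj : γj.det = 1)
    (hrow : ∀ i, algebraMap R[X] K (C j ^ d) * ∑ k, algebraMap R[X] K (f k) * (γs * γj) k i =
      if i = 0 then algebraMap R[X] K (C w) else 0)
    (hds : ∀ a b, γs a b ∈ (Dn (C s') : Subring K))
    (hdj : ∀ a b, γj a b ∈ (Dn (C j') : Subring K)) :
    ∃ g : Fin 3 → R[X], Ideal.span (Set.range g) = I := by
  classical
  set A := algebraMap R[X] K with hA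
  have hinj : Function.Injective A := IsFractionRing.injective R[X] K
  have hWk : A (C w) ≠ 0 := by
    intro h; exact hw0 (C_injective (hinj (by rw [h, C_0, map_zero])))
  have hJk : A (C j) ≠ 0 := by
    intro h; exact hj0 (C_injective (hinj (by rw [h, C_0, map_zero])))
  have hsadj : γs * γs.adjugate = 1 := by rw [Matrix.mul_adjugate, hγs, one_smul]
  have hjadj : γj * γj.adjugate = 1 := by rw [Matrix.mul_adjugate, hγj, one_smul]
  have hjadj' : γj.adjugate * γj = 1 := by rw [Matrix.adjugate_mul, hγj, one_smul]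
  set v : Fin 3 → K := fun k => A (f k) with hv
  set u : Fin 3 → K := Matrix.vecMul v γs with hu
  have hu' : ∀ i, u i = ∑ k, A (f k) * γs k i := fun i => rfl
  -- the row equation
  have hrow' : Matrix.vecMul u γj = fun i => (A (C j) ^ d)⁻¹ * (if i = 0 then A (C w) else 0) := by
    funext i
    rw [hu, Matrix.vecMul_vecMul, ← hrow i, map_pow, ← mul_assoc, inv_mul_cancel₀ (pow_ne_zero d hJk),
      one_mul]
    rfl
  have hu2 : ∀ i, u i = (A (C j) ^ d)⁻¹ * A (C w) * γj.adjugate 0 i := by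
    intro i
    have h1 : Matrix.vecMul (Matrix.vecMul u γj) γj.adjugate = u := by
      rw [Matrix.vecMul_vecMul, hjadj, Matrix.vecMul_one]
    rw [← h1, hrow']
    simp [Matrix.vecMul, dotProduct, Fin.sum_univ_three]
  have hv2 : ∀ k, A (f k) = ∑ i, u i * γs.adjugate i k := by
    intro k
    have h1 : Matrix.vecMul (Matrix.vecMul v γs) γs.adjugate = v := by
      rw [Matrix.vecMul_vecMul, hsadj, Matrix.vecMul_one]
    have h2 := congrFun h1 k
    rw [← hu] at h2
    exact h2.symm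
  set g' : Fin 3 → K := fun i => (A (C w))⁻¹ * u i with hg'
  have hg1 : ∀ i, g' i = (A (C j) ^ d)⁻¹ * γj.adjugate 0 i := by
    intro i
    simp only [hg']
    rw [hu2 i]
    field_simp
  have hsa := adj_mem _ γs hds
  have hja := adj_mem _ γj hdj
  obtain ⟨N, q, hq⟩ := unif (C s') (fun p : Fin 3 × Fin 3 => γs p.1 p.2) (fun p => hds p.1 p.2)
  obtain ⟨M, p, hp⟩ := unif (C j') (fun i : Fin 3 => γj.adjugate 0 i) (fun i => hja 0 i)
  obtain ⟨N2, r, hr⟩ := unif (C s') (fun p : Fin 3 × Fin 3 => γs.adjugate p.1 p.2)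
    (fun p => hsa p.1 p.2)
  obtain ⟨M2, z, hz⟩ := unif (C j') (fun i : Fin 3 => γj i 0) (fun i => hdj i 0)
  rw [← hA] at hq hp hr hz
  have hgs : ∀ i, A ((C s') ^ (N + 1)) * g' i = A (C s * ∑ k, f k * q (k, i)) := by
    intro i
    simp only [hg']
    rw [hu', map_mul, map_sum, pow_succ, map_mul, hs', C_mul, map_mul A (C s)]
    have h1 : ∀ k, A (f k * q (k, i)) = A ((C s') ^ N) * (A (f k) * γs k i) := by
      intro k
      rw [map_mul, ← hq (k, i)]; ring
    simp only [h1]
    rw [← Finset.mul_sum, hs', C_mul]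
    field_simp
  have hgj : ∀ i, A ((C j') ^ (d + M)) * g' i = A ((C t') ^ d * p i) := by
    intro i
    have e1 : A (C j') = A (C j) * A (C t') := by rw [← map_mul, ← C_mul, hj']
    have e2 : A ((C j') ^ (d + M)) = (A (C j) * A (C t')) ^ d * A ((C j') ^ M) := by
      rw [pow_add, map_mul, map_pow A (C j') d, e1]
    have e3 : (A (C j) ^ d) ≠ 0 := pow_ne_zero d hJk
    rw [e2, hg1, map_mul A, ← hp i, map_pow A (C t'), mul_pow]
    field_simp
  have hco : IsCoprime (C s' : R[X]) (C j') := ⟨1, 1, by rw [one_mul, one_mul, ← C_add, hsj, C_1]⟩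
  obtain ⟨α, β, hαβ⟩ := hco.pow (m := N + 1) (n := d + M)
  set g : Fin 3 → R[X] := fun i =>
    α * (C s * ∑ k, f k * q (k, i)) + β * ((C t') ^ d * p i) with hg
  have hgg : ∀ i, A (g i) = g' i := by
    intro i
    simp only [hg]
    have e4 : A α * A ((C s') ^ (N + 1)) + A β * A ((C j') ^ (d + M)) = 1 := by
      rw [← map_mul, ← map_mul, ← map_add, hαβ, map_one]
    calc A (α * (C s * ∑ k, f k * q (k, i)) + β * ((C t') ^ d * p i))
        = A α * A (C s * ∑ k, f k * q (k, i)) + A β * A ((C t') ^ d * p i) := by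
          rw [map_add, map_mul A α, map_mul A β]
      _ = A α * (A ((C s') ^ (N + 1)) * g' i) + A β * (A ((C j') ^ (d + M)) * g' i) := by
          rw [← hgs i, ← hgj i]
      _ = (A α * A ((C s') ^ (N + 1)) + A β * A ((C j') ^ (d + M))) * g' i := by ring
      _ = g' i := by rw [e4, one_mul]
  refine ⟨g, le_antisymm ?_ ?_⟩
  · rw [Ideal.span_le]
    rintro _ ⟨i, rfl⟩
    have h1 : (C s') ^ (N + 1) * g i ∈ I := by
      have : (C s') ^ (N + 1) * g i = C s * ∑ k, f k * q (k, i) := by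
        apply hinj; rw [map_mul, hgg, hgs]
      rw [this]
      exact I.mul_mem_left _ (I.sum_mem fun k _ => I.mul_mem_right _ (hf k))
    have h2 : (C j' : R[X]) ^ 1 * g i ∈ I := by
      rw [pow_one, hj', C_mul, mul_assoc]
      exact I.mul_mem_right _ hj
    obtain ⟨a, b, hab⟩ := hco.pow (m := N + 1) (n := 1)
    have : g i = a * ((C s') ^ (N + 1) * g i) + b * ((C j') ^ 1 * g i) := by
      rw [← mul_assoc, ← mul_assoc, ← add_mul, hab, one_mul]
    rw [SetLike.mem_coe, this]
    exact I.add_mem (I.mul_mem_left _ h1) (I.mul_mem_left _ h2)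
  · intro x hx
    have hgm : ∀ i, g i ∈ Ideal.span (Set.range g) := fun i => Ideal.subset_span ⟨i, rfl⟩
    have h1 : ∀ k, (C s') ^ N2 * f k ∈ Ideal.span (Set.range g) := by
      intro k
      have : (C s') ^ N2 * f k = ∑ i, (C w * r (i, k)) * g i := by
        apply hinj
        rw [map_mul, hv2 k, map_sum, Finset.mul_sum]
        refine Finset.sum_congr rfl fun i _ => ?_
        rw [map_mul, map_mul, hgg, ← hr (i, k)]
        simp only [hg']
        field_simp
      rw [this]
      exact Ideal.sum_mem _ fun i _ => Ideal.mul_mem_left _ _ (hgm i)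
    have h2 : (C s') ^ (N2 + 1) * x ∈ Ideal.span (Set.range g) := by
      obtain ⟨c, hc⟩ := (Ideal.mem_span_range_iff_exists_fun).1 (hs x hx)
      rw [pow_succ, mul_assoc, ← hc, Finset.mul_sum]
      refine Ideal.sum_mem _ fun i _ => ?_
      rw [mul_left_comm]
      exact Ideal.mul_mem_left _ _ (h1 i)
    have h3 : (C j') ^ M2 * x ∈ Ideal.span (Set.range g) := by
      apply Ideal.mul_mem_right
      have : (C j') ^ M2 = ∑ i, ((C j) ^ d * z i) * g i := by
        apply hinj
        have h4 : ∑ i, γj.adjugate 0 i * γj i 0 = 1 := by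
          have := congrFun (congrFun hjadj' 0) 0
          simpa [Matrix.mul_apply] using this
        have h5 : A ((C j') ^ M2) = A ((C j') ^ M2) * ∑ i, γj.adjugate 0 i * γj i 0 := by
          rw [h4, mul_one]
        rw [h5, map_sum, Finset.mul_sum]
        refine Finset.sum_congr rfl fun i _ => ?_
        rw [map_mul, map_mul, hgg, hg1, ← hz i, map_pow A (C j)]
        have : (A (C j) ^ d) ≠ 0 := pow_ne_zero d hJk
        field_simp
      rw [this]
      exact Ideal.sum_mem _ fun i _ => Ideal.mul_mem_left _ _ (hgm i)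
    obtain ⟨a, b, hab⟩ := hco.pow (m := N2 + 1) (n := M2)
    have : x = a * ((C s') ^ (N2 + 1) * x) + b * ((C j') ^ M2 * x) := by
      rw [← mul_assoc, ← mul_assoc, ← add_mul, hab, one_mul]
    rw [this]
    exact Ideal.add_mem _ (Ideal.mul_mem_left _ _ h2) (Ideal.mul_mem_left _ _ h3)


theorem partA1 {L : Type*} [CommRing L] (F : Fin 3 → L[X])
    (hm : (F 0).Monic) (hu : Ideal.span (Set.range F) = ⊤) (c u0 v0 : L)
    (hu0 : (F 0).eval c = u0) (huv : u0 * v0 = 1) :
    ∃ Γ : Matrix (Fin 3) (Fin 3) (L[X][X]), Γ.det = 1 ∧ Γ.map (Polynomial.eval 0) = 1 ∧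
      ∀ i, ∑ k, F k * (Γ k i).eval 1 = if i = 0 then C u0 else 0 := by
  classical
  obtain ⟨Γ, hd, h0, hr⟩ := suslin_row F hm hu (C c - X)
  have hr1 : ∀ i, ∑ k, F k * (Γ k i).eval 1 = C ((F i).eval c) := by
    intro i
    have h1 := congrArg (Polynomial.evalRingHom (1 : L[X])) (hr i)
    rw [map_sum, Polynomial.hom_eval₂] at h1
    simp only [map_mul, coe_evalRingHom, eval_C] at h1
    rw [h1]
    have h2 : (Polynomial.evalRingHom (1 : L[X])).comp ((C : L[X] →+* L[X][X]).comp (C : L →+* L[X])) = C := by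
      ext a; simp
    rw [h2]
    have h3 : eval (1 : L[X]) (C X + X * C (C c - X)) = C c := by simp
    rw [h3, ← Polynomial.eval₂_hom, Polynomial.eval₂_at_apply]
  set a1 : L := (F 1).eval c * v0 with ha1
  set a2 : L := (F 2).eval c * v0 with ha2
  set E : Matrix (Fin 3) (Fin 3) (L[X][X]) :=
    !![1, -X * C (C a1), -X * C (C a2); 0, 1, 0; 0, 0, 1] with hE
  have hEd : E.det = 1 := by rw [hE, Matrix.det_fin_three]; simp
  have hE0 : E.map (Polynomial.eval 0) = 1 := by
    ext i k; fin_cases i <;> fin_cases k <;> simp [hE]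
  refine ⟨Γ * E, by rw [Matrix.det_mul, hd, hEd, one_mul], ?_, ?_⟩
  · have : (Γ * E).map (Polynomial.eval 0) = Γ.map (Polynomial.eval 0) * E.map (Polynomial.eval 0) :=
      Matrix.map_mul (f := Polynomial.evalRingHom (0 : L[X]))
    rw [this, h0, hE0, one_mul]
  · intro i
    have h3 : ∀ k, ((Γ * E) k i).eval 1 = ∑ l, (Γ k l).eval 1 * (E l i).eval 1 := by
      intro k
      rw [Matrix.mul_apply, Polynomial.eval_finsetSum]
      simp only [Polynomial.eval_mul]
    simp only [h3, Finset.mul_sum]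
    rw [Finset.sum_comm]
    have h4 : ∀ l, ∑ k, F k * ((Γ k l).eval 1 * (E l i).eval 1) = C ((F l).eval c) * (E l i).eval 1 := by
      intro l
      rw [← hr1 l, Finset.sum_mul]
      exact Finset.sum_congr rfl fun k _ => by ring
    simp only [h4]
    have h5 : C u0 * C v0 = (1 : L[X]) := by rw [← C_mul, huv, C_1]
    rw [Fin.sum_univ_three]
    fin_cases i
    · simp [hE, hu0]
    · simp [hE, hu0, ha1]
      linear_combination (-(C (eval c (F 1)))) * h5
    · simp [hE, hu0, ha2]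
      linear_combination (-(C (eval c (F 2)))) * h5

theorem partA {R K : Type*} [CommRing R] [IsDomain R] [Field K] [Algebra R[X] K]
    [IsFractionRing R[X] K] (I : Ideal R[X]) (f : Fin 3 → R[X])
    (hm : (f 0).Monic) (s j s' j' t' : R)
    (hs' : s' = s * (f 0).reverse.eval j) (hj' : j' = j * t') (hj : C j ∈ I)
    (hs'0 : s' ≠ 0) (hj'0 : j' ≠ 0)
    (hs : ∀ g ∈ I, C s' * g ∈ Ideal.span (Set.range f)) :
    ∃ γ : Matrix (Fin 3) (Fin 3) K[X], γ.det = 1 ∧ γ.map (Polynomial.eval 0) = 1 ∧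
      (∀ a b, ∃ n : ℕ, ∀ k, ∃ q : R[X],
        algebraMap R[X] K ((C s' * C j') ^ n) * (γ a b).coeff k = algebraMap R[X] K q) ∧
      ∀ i, algebraMap R[X] K (C j ^ (f 0).natDegree) *
        ∑ k, algebraMap R[X] K (f k) * (γ.map (Polynomial.eval 1)) k i =
        if i = 0 then algebraMap R[X] K (C ((f 0).reverse.eval j)) else 0 := by
  classical
  set A := algebraMap R[X] K with hA
  have hinj : Function.Injective A := IsFractionRing.injective R[X] K
  set w := (f 0).reverse.eval j with hw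
  set d := (f 0).natDegree with hd
  have hsj0 : s' * j' ≠ 0 := mul_ne_zero hs'0 hj'0
  let L := Localization.Away (s' * j')
  have hunit : IsUnit (algebraMap R L (s' * j')) := IsLocalization.Away.algebraMap_isUnit (s' * j')
  have hju : IsUnit (algebraMap R L j) := by
    exact isUnit_of_dvd_unit (map_dvd (algebraMap R L) ⟨s' * t', by rw [hj']; ring⟩) hunit
  have hwu : IsUnit (algebraMap R L w) := by
    exact isUnit_of_dvd_unit (map_dvd (algebraMap R L) ⟨s * j', by rw [hs']; ring⟩) hunit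
  obtain ⟨c, hc⟩ := hju.exists_right_inv
  obtain ⟨w', hw'⟩ := hwu.exists_right_inv
  set F : Fin 3 → L[X] := fun i => (f i).map (algebraMap R L) with hF
  have hFm : (F 0).Monic := hm.map _
  have hFu : Ideal.span (Set.range F) = ⊤ := by
    obtain ⟨e, he⟩ := (Ideal.mem_span_range_iff_exists_fun).1 (hs (C j) hj)
    have h1 : (C (algebraMap R L (s' * j)) : L[X]) ∈ Ideal.span (Set.range F) := by
      have h2 := congrArg (Polynomial.mapRingHom (algebraMap R L)) he
      rw [map_sum] at h2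
      simp only [map_mul, coe_mapRingHom, map_C] at h2
      rw [map_mul, C_mul, ← h2]
      exact Ideal.sum_mem _ fun i _ => Ideal.mul_mem_left _ _ (Ideal.subset_span ⟨i, rfl⟩)
    refine Ideal.eq_top_of_isUnit_mem _ h1 ?_
    have h3 : IsUnit (algebraMap R L (s' * j)) := by
      rw [map_mul]
      refine IsUnit.mul ?_ hju
      exact isUnit_of_dvd_unit (map_dvd (algebraMap R L) (Dvd.intro _ rfl)) hunit
    exact h3.map C
  have hinvc : c * algebraMap R L j = 1 := by rw [mul_comm]; exact hc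
  have hu0 : (F 0).eval c = algebraMap R L w * c ^ d := by
    letI : Invertible c := ⟨algebraMap R L j, by rw [mul_comm]; exact hinvc, hinvc⟩
    have h1 := Polynomial.eval₂_reverse_mul_pow (algebraMap R L) c (f 0)
    have h2 : (⅟ c : L) = algebraMap R L j := rfl
    rw [h2, Polynomial.eval₂_at_apply] at h1
    simp only [hF]
    rw [Polynomial.eval_map, ← h1]
  have huv : (algebraMap R L w * c ^ d) * (w' * (algebraMap R L j) ^ d) = 1 := by
    calc _ = (algebraMap R L w * w') * (c * algebraMap R L j) ^ d := by rw [mul_pow]; ring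
      _ = 1 := by rw [hw', hinvc, one_pow, one_mul]
  obtain ⟨Γ, hΓd, hΓ0, hΓr⟩ := partA1 F hFm hFu c _ _ hu0 huv
  have hgu : ∀ y : Submonoid.powers (s' * j'), IsUnit ((A.comp C) y) := by
    rintro ⟨y, n, rfl⟩
    refine IsUnit.mk0 _ ?_
    intro h
    have h2 : (C ((s' * j') ^ n) : R[X]) = 0 := hinj (by rw [map_zero]; exact h)
    exact pow_ne_zero n hsj0 (C_eq_zero.1 h2)
  let φ0 : L →+* K := IsLocalization.lift (M := Submonoid.powers (s' * j')) hgu
  have hφ0 : ∀ r : R, φ0 (algebraMap R L r) = A (C r) := fun r => IsLocalization.lift_eq hgu r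
  let ψ : L[X] →+* K := Polynomial.eval₂RingHom φ0 (A X)
  have hψ : ∀ p : R[X], ψ (p.map (algebraMap R L)) = A p := by
    intro p
    have : ψ.comp (Polynomial.mapRingHom (algebraMap R L)) = A := by
      apply Polynomial.ringHom_ext
      · intro a; simp [ψ, hφ0]
      · simp [ψ]
    exact congrFun (congrArg DFunLike.coe this) p
  have hψC : ∀ a : L, ψ (C a) = φ0 a := fun a => by simp [ψ]
  have hden0 : ∀ p : L[X], ψ p ∈ (Dn (C s' * C j') : Subring K) := by
    intro p
    induction p using Polynomial.induction_on' with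
    | add p q hp hq => rw [map_add]; exact add_mem hp hq
    | monomial n a =>
      have h1 : ψ (monomial n a) = φ0 a * (A X) ^ n := by simp [ψ]
      rw [h1]
      refine mul_mem ?_ (pow_mem (algebraMap_mem_Dn _ _) _)
      obtain ⟨⟨r, ⟨y, m, rfl⟩⟩, hr⟩ := IsLocalization.surj (Submonoid.powers (s' * j')) a
      refine ⟨m, C r, ?_⟩
      have h2 := congrArg φ0 hr
      rw [map_mul, hφ0, hφ0] at h2
      rw [← h2, ← C_mul, ← C_pow]
      rw [mul_comm]
  refine ⟨Γ.map (Polynomial.mapRingHom ψ), ?_, ?_, ?_, ?_⟩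
  · have := (RingHom.map_det (Polynomial.mapRingHom ψ) Γ)
    rw [hΓd, map_one] at this
    exact this.symm
  · ext a b
    have h1 := congrFun (congrFun hΓ0 a) b
    simp only [Matrix.map_apply] at h1 ⊢
    have h2 : eval 0 ((mapRingHom ψ) (Γ a b)) = ψ (eval 0 (Γ a b)) := by
      rw [coe_mapRingHom, Polynomial.eval_map, ← map_zero ψ, Polynomial.eval₂_at_apply]
    rw [h2, h1]
    by_cases hab : a = b
    · subst hab; simp
    · simp [hab]
  · intro a b
    have h1 : ∀ k, ((Γ.map (Polynomial.mapRingHom ψ)) a b).coeff k = ψ ((Γ a b).coeff k) := by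
      intro k; simp [Polynomial.coeff_map]
    obtain ⟨n, q, hq⟩ := unif (K := K) (C s' * C j')
      (fun k : Fin ((Γ a b).natDegree + 1) => ψ ((Γ a b).coeff k)) (fun k => hden0 _)
    refine ⟨n, fun k => ?_⟩
    by_cases hk : k < (Γ a b).natDegree + 1
    · refine ⟨q ⟨k, hk⟩, ?_⟩
      rw [h1]; exact hq ⟨k, hk⟩
    · refine ⟨0, ?_⟩
      rw [h1, Polynomial.coeff_eq_zero_of_natDegree_lt (by omega), map_zero, mul_zero, map_zero]
  · intro i
    have h1 := congrArg ψ (hΓr i)
    rw [map_sum] at h1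
    have h2 : ∀ k, ψ (F k * eval 1 (Γ k i)) = A (f k) *
        ((Γ.map (Polynomial.mapRingHom ψ)).map (Polynomial.eval 1)) k i := by
      intro k
      rw [map_mul, hψ]
      congr 1
      simp only [Matrix.map_apply]
      rw [coe_mapRingHom, Polynomial.eval_map, ← map_one ψ, Polynomial.eval₂_at_apply]
    simp only [h2] at h1
    rw [h1]
    by_cases hi : i = 0
    · simp only [hi, if_true]
      rw [hψC, map_mul, hφ0, map_pow, map_pow, mul_left_comm, ← mul_pow]
      have h3 : A (C j) * φ0 c = 1 := by rw [← hφ0, ← map_mul, hc, map_one]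
      rw [h3, one_pow, mul_one]
    · simp only [hi, if_false, map_zero, mul_zero]

end PL131

/-- Lemma P. -/
theorem lemmaP {R : Type*} [CommRing R] [IsDomain R] (I : Ideal R[X]) (f : Fin 3 → R[X])
    (hf : ∀ i, f i ∈ I) (hm : (f 0).Monic) (s j : R) (hsj : s + j = 1) (hj : C j ∈ I)
    (hs : ∀ g ∈ I, C s * g ∈ Ideal.span (Set.range f)) :
    ∃ g : Fin 3 → R[X], Ideal.span (Set.range g) = I := by
  classical
  have htop : I = ⊤ → ∃ g : Fin 3 → R[X], Ideal.span (Set.range g) = I := by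
    intro h
    refine ⟨fun _ => 1, ?_⟩
    rw [h, Ideal.eq_top_iff_one]
    exact Ideal.subset_span ⟨0, rfl⟩
  have hself : (∀ g ∈ I, g ∈ Ideal.span (Set.range f)) →
      ∃ g : Fin 3 → R[X], Ideal.span (Set.range g) = I := by
    intro h
    refine ⟨f, le_antisymm ?_ h⟩
    rw [Ideal.span_le]
    rintro _ ⟨i, rfl⟩
    exact hf i
  by_cases hj0 : j = 0
  · apply hself
    intro g hg
    have h1 : s = 1 := by rw [← hsj, hj0, add_zero]
    have := hs g hg
    rwa [h1, C_1, one_mul] at this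
  set w := (f 0).reverse.eval j with hw
  obtain ⟨t, ht⟩ : j ∣ w - 1 := by
    have h1 : (f 0).reverse.eval 0 = 1 := by
      rw [← Polynomial.coeff_zero_eq_eval_zero, Polynomial.coeff_zero_reverse]
      exact hm
    have h2 := Polynomial.sub_dvd_eval_sub j 0 (f 0).reverse
    rwa [h1, sub_zero] at h2
  set s' := s * w with hs'
  set j' := j * (1 - s * t) with hj'
  have hsj' : s' + j' = 1 := by
    rw [hs', hj']
    linear_combination hsj + s * ht
  have hsI : ∀ g ∈ I, C s' * g ∈ Ideal.span (Set.range f) := by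
    intro g hg
    rw [hs', mul_comm s w, C_mul, mul_assoc]
    exact Ideal.mul_mem_left _ _ (hs g hg)
  by_cases hs0 : s' = 0
  · apply htop
    rw [Ideal.eq_top_iff_one]
    have h1 : j' = 1 := by rw [← hsj', hs0, zero_add]
    have h2 : C j' ∈ I := by rw [hj', C_mul]; exact I.mul_mem_right _ hj
    rwa [h1, C_1] at h2
  by_cases hj'0 : j' = 0
  · apply hself
    intro g hg
    have h1 : s' = 1 := by rw [← hsj', hj'0, add_zero]
    have := hsI g hg
    rwa [h1, C_1, one_mul] at this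
  have hw0 : w ≠ 0 := by
    intro h; exact hs0 (by rw [hs', h, mul_zero])
  obtain ⟨γ, h1, h2, h3, h4⟩ := PL131.partA (K := FractionRing R[X]) I f hm s j s' j' (1 - s * t)
    hs' hj' hj hs0 hj'0 hsI
  obtain ⟨γs, γj, g1, g2, g3, ⟨n1, g4⟩, ⟨n2, g5⟩⟩ := quillen_split (Q := R[X])
    (K := FractionRing R[X]) (C s') (C j') (by rw [← C_add, hsj', C_1]) γ h1 h2 h3
  refine PL131.partB (K := FractionRing R[X]) I f hf s j w s' j' (1 - s * t) hs' hj' hsj' hj hw0
    hj0 hsI (f 0).natDegree γs γj g1 g2 ?_ (fun a b => ⟨n1, g4 a b⟩) (fun a b => ⟨n2, g5 a b⟩)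
  intro i
  rw [← g3]
  exact h4 i

end J36824

section J36825
open Polynomial

/-- Nakayama step. -/
theorem nak {R : Type*} [CommRing R] [IsNoetherianRing R] (I : Ideal R[X]) (f : Fin 3 → R[X])
    (hf : ∀ i, f i ∈ I) (hm : (f 0).Monic)
    (hI : I ≤ Ideal.span (Set.range f) ⊔ (I.comap (C : R →+* R[X])).map (C : R →+* R[X]) * I) :
    ∃ s j : R, s + j = 1 ∧ C j ∈ I ∧ ∀ g ∈ I, C s * g ∈ Ideal.span (Set.range f) := by
  set K : Ideal R[X] := Ideal.span (Set.range f) with hK
  have h0 : Ideal.span {f 0} ≤ K := by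
    rw [Ideal.span_le, Set.singleton_subset_iff]
    exact Ideal.subset_span ⟨0, rfl⟩
  have hfin0 : Module.Finite R (R[X] ⧸ Ideal.span {f 0}) := hm.finite_quotient
  have hfin : Module.Finite R (R[X] ⧸ K) :=
    Module.Finite.of_surjective (Ideal.Quotient.factorₐ R h0).toLinearMap (by
      intro y
      obtain ⟨x, rfl⟩ := Ideal.Quotient.mk_surjective y
      exact ⟨Ideal.Quotient.mk _ x, rfl⟩)
  let mk : R[X] →ₐ[R] (R[X] ⧸ K) := Ideal.Quotient.mkₐ R K
  let N : Submodule R (R[X] ⧸ K) := (I.restrictScalars R).map mk.toLinearMap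
  have hfg : N.FG := IsNoetherian.noetherian N
  have hmem : ∀ g ∈ I, mk g ∈ N := fun g hg => ⟨g, hg, rfl⟩
  set J : Ideal R := I.comap (C : R →+* R[X]) with hJ
  have hstep : ∀ u ∈ J.map (C : R →+* R[X]), ∀ v ∈ I, mk (u * v) ∈ J • N := by
    intro u hu
    refine Submodule.span_induction (p := fun u _ => ∀ v ∈ I, mk (u * v) ∈ J • N) ?_ ?_ ?_ ?_ hu
    · rintro _ ⟨j, hj, rfl⟩ v hv
      have h1 : mk (C j * v) = j • mk v := by
        rw [← Polynomial.smul_eq_C_mul, map_smul]
      rw [h1]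
      exact Submodule.smul_mem_smul hj (hmem v hv)
    · intro v _
      rw [zero_mul, map_zero]
      exact Submodule.zero_mem _
    · intro x y _ _ hx hy v hv
      rw [add_mul, map_add]
      exact Submodule.add_mem _ (hx v hv) (hy v hv)
    · intro a x _ hx v hv
      have h1 : a • x * v = x * (a * v) := by
        rw [smul_eq_mul]
        ring
      rw [h1]
      exact hx _ (I.mul_mem_left a hv)
  have hle : N ≤ J • N := by
    rintro _ ⟨g, hg, rfl⟩
    obtain ⟨a, ha, b, hb, rfl⟩ := Submodule.mem_sup.mp (hI hg)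
    have h1 : mk (a + b) = mk b := by
      rw [map_add]
      have h2 : mk a = 0 := Ideal.Quotient.eq_zero_iff_mem.mpr ha
      rw [h2, zero_add]
    show mk (a + b) ∈ J • N
    rw [h1]
    refine Submodule.mul_induction_on hb ?_ ?_
    · intro u hu v hv
      exact hstep u hu v hv
    · intro x y hx hy
      rw [map_add]
      exact Submodule.add_mem _ hx hy
  obtain ⟨r, hr1, hr2⟩ := Submodule.exists_sub_one_mem_and_smul_eq_zero_of_fg_of_le_smul J N hfg hle
  refine ⟨r, 1 - r, by ring, ?_, ?_⟩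
  · have h1 : (1 - r) ∈ J := by
      rw [← neg_sub]
      exact J.neg_mem hr1
    exact h1
  · intro g hg
    have h1 := hr2 (mk g) (hmem g hg)
    rw [← map_smul, Polynomial.smul_eq_C_mul] at h1
    exact Ideal.Quotient.eq_zero_iff_mem.mp h1

end J36825

section J36826
open Matrix

/-- Linear algebra lemma: correct a 3x3 matrix modulo an ideal to determinant 1 keeping the first column. -/
theorem la_lift {A : Type*} [CommRing A] (c : Ideal A) (M : Matrix (Fin 3) (Fin 3) A)
    (hdet : M.det - 1 ∈ c)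
    (Cc : Matrix (Fin 3) (Fin 3) A) (hC : Cc.det = 1) (hcol : ∀ i, Cc i 0 = M i 0)
    (hsurj : ∀ G : Matrix (Fin 2) (Fin 2) A, G.det - 1 ∈ c →
      ∃ G' : Matrix (Fin 2) (Fin 2) A, G'.det = 1 ∧ ∀ i k, G' i k - G i k ∈ c) :
    ∃ M' : Matrix (Fin 3) (Fin 3) A, M'.det = 1 ∧ (∀ i, M' i 0 = M i 0) ∧ ∀ i k, M' i k - M i k ∈ c := by
  obtain ⟨N, hN⟩ : ∃ N : Matrix (Fin 3) (Fin 3) A, N = Cc.adjugate * M := ⟨_, rfl⟩
  have hCN : Cc * N = M := by
    rw [hN, ← Matrix.mul_assoc, Matrix.mul_adjugate, hC, one_smul, Matrix.one_mul]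
  have hN0 : ∀ i, N i 0 = (1 : Matrix (Fin 3) (Fin 3) A) i 0 := by
    intro i
    have h1 : (Cc.adjugate * Cc) = 1 := by
      rw [Matrix.adjugate_mul, hC, one_smul]
    rw [hN, ← h1, Matrix.mul_apply, Matrix.mul_apply]
    exact Finset.sum_congr rfl (fun k _ => by rw [hcol k])
  have h00 : N 0 0 = 1 := by rw [hN0]; simp
  have h10 : N 1 0 = 0 := by rw [hN0]; simp
  have h20 : N 2 0 = 0 := by rw [hN0]; simp
  have hdetN : N.det = M.det := by
    rw [← hCN, Matrix.det_mul, hC, one_mul]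
  have hd : N.det = N 1 1 * N 2 2 - N 1 2 * N 2 1 := by
    rw [Matrix.det_fin_three, h00, h10, h20]; ring
  obtain ⟨G', hG1, hG2⟩ := hsurj !![N 1 1, N 1 2; N 2 1, N 2 2] (by
    rw [Matrix.det_fin_two_of, ← hd, hdetN]; exact hdet)
  obtain ⟨N', hN'⟩ : ∃ N' : Matrix (Fin 3) (Fin 3) A,
    N' = !![1, N 0 1, N 0 2; 0, G' 0 0, G' 0 1; 0, G' 1 0, G' 1 1] := ⟨_, rfl⟩
  have hdN' : N'.det = 1 := by
    have hx : N'.det = G' 0 0 * G' 1 1 - G' 0 1 * G' 1 0 := by
      rw [hN', Matrix.det_fin_three]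
      simp
    rw [hx, ← Matrix.det_fin_two, hG1]
  have hdiff : ∀ i k, N' i k - N i k ∈ c := by
    have g00 := hG2 0 0
    have g01 := hG2 0 1
    have g10 := hG2 1 0
    have g11 := hG2 1 1
    simp at g00 g01 g10 g11
    intro i k
    rw [hN']
    fin_cases i <;> fin_cases k <;> simp [h00, h10, h20, g00, g01, g10, g11]
  refine ⟨Cc * N', ?_, ?_, ?_⟩
  · rw [Matrix.det_mul, hC, hdN', one_mul]
  · intro i
    rw [← hcol i, Matrix.mul_apply, Fin.sum_univ_three, hN']
    simp
  · intro i k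
    rw [← hCN, Matrix.mul_apply, Matrix.mul_apply, ← Finset.sum_sub_distrib]
    refine Ideal.sum_mem _ (fun j _ => ?_)
    rw [← mul_sub]
    exact Ideal.mul_mem_left _ _ (hdiff j k)

end J36826

end PLP
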