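import Mathlib
import Pool.Agent.Helper722.PL.C
import Pool.Agent.Helper722.PL.P
set_option autoImplicit false
open MvPolynomial

namespace PL

theorem Q2 (f : Fin 3 → AA) (hf : Ideal.span (Set.range f) = ⊤) :
    ∃ Cc : Matrix (Fin 3) (Fin 3) AA, Cc.det = 1 ∧ ∀ i, Cc i 0 = f i := PLQ.Q2 f hf
theorem Q3 (D : Set (Fin 2 → ℂ)) (hD : D.Finite) (G : Matrix (Fin 2) (Fin 2) AA)
    (h : ∀ p ∈ D, eval p G.det = 1) :
    ∃ G' : Matrix (Fin 2) (Fin 2) AA, G'.det = 1 ∧ ∀ i k, ∀ p ∈ D, eval p (G' i k) = eval p (G i k) :=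
  PLQ.Q3 D hD G h
theorem Q4 (D : Set (Fin 2 → ℂ)) (hD : D.Finite) :
    ∃ g1 g2 : AA, (∀ p ∈ D, eval p g1 = 0) ∧ (∀ p ∈ D, eval p g2 = 0) ∧
      ∀ v : (Fin 2 → ℂ) → ℂ, (∀ p ∈ D, v p ≠ 0) →
        ∃ u : AA, (∀ p ∈ D, eval p u = v p) ∧
          ∀ a : AA, (∀ p ∈ D, eval p a = 0) → a ∈ Ideal.span {g1, u * g2} := PLQ.Q4 D hD
theorem la_lift {A : Type*} [CommRing A] (c : Ideal A) (M : Matrix (Fin 3) (Fin 3) A)
    (hdet : M.det - 1 ∈ c)
    (Cc : Matrix (Fin 3) (Fin 3) A) (hC : Cc.det = 1) (hcol : ∀ i, Cc i 0 = M i 0)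
    (hsurj : ∀ G : Matrix (Fin 2) (Fin 2) A, G.det - 1 ∈ c →
      ∃ G' : Matrix (Fin 2) (Fin 2) A, G'.det = 1 ∧ ∀ i k, G' i k - G i k ∈ c) :
    ∃ M' : Matrix (Fin 3) (Fin 3) A, M'.det = 1 ∧ (∀ i, M' i 0 = M i 0) ∧ ∀ i k, M' i k - M i k ∈ c :=
  PLP.la_lift c M hdet Cc hC hcol hsurj

theorem nak {R : Type*} [CommRing R] [IsNoetherianRing R] (I : Ideal (Polynomial R)) (f : Fin 3 → Polynomial R)
    (hf : ∀ i, f i ∈ I) (hm : (f 0).Monic)
    (hI : I ≤ Ideal.span (Set.range f) ⊔ (I.comap (Polynomial.C : R →+* Polynomial R)).map (Polynomial.C : R →+* Polynomial R) * I) :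
    ∃ s j : R, s + j = 1 ∧ Polynomial.C j ∈ I ∧ ∀ g ∈ I, Polynomial.C s * g ∈ Ideal.span (Set.range f) :=
  PLP.nak I f hf hm hI

theorem lemmaP {R : Type*} [CommRing R] [IsDomain R] (I : Ideal (Polynomial R)) (f : Fin 3 → Polynomial R)
    (hf : ∀ i, f i ∈ I) (hm : (f 0).Monic) (s j : R) (hsj : s + j = 1) (hj : Polynomial.C j ∈ I)
    (hs : ∀ g ∈ I, Polynomial.C s * g ∈ Ideal.span (Set.range f)) :
    ∃ g : Fin 3 → Polynomial R, Ideal.span (Set.range g) = I :=
  PLP.lemmaP I f hf hm s j hsj hj hs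

section Asm
open MvPolynomial

theorem modC (x : Fin 4 → AA) (t : AA) (D : Set (Fin 2 → ℂ)) (π : (Fin 2 → ℂ) → (Fin 2 → ℂ)) (h : CorePos x t D π) :
    ∃ g : Fin 3 → Polynomial RR, Ideal.span (Set.range g) = II x t := by
  obtain ⟨U, V, hUV⟩ := Q1 x h.imm
  have hBB : BB x = (aeval x : RR →ₐ[ℂ] AA).range := Algebra.adjoin_range_eq_range_aeval ℂ x
  have lift : ∀ b ∈ BB x, ∃ b' : RR, aeval x b' = b := fun b hb => by rw [hBB] at hb; exact hb
  obtain ⟨al, hal, be, hbe, hq0⟩ := h.quad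
  obtain ⟨α, hα⟩ := lift al hal
  obtain ⟨β, hβ⟩ := lift be hbe
  have hq : t ^ 2 = aeval x α * t + aeval x β := by rw [hα, hβ]; exact hq0
  obtain ⟨g1, g2, hg1, hg2, hQ4⟩ := Q4 D h.fin
  have mulv : ∀ (a b : AA), (∀ p ∈ D, eval p a = 0) → ∀ p ∈ D, eval p (a * b) = 0 := by
    intro a b ha p hp; rw [map_mul, ha p hp, zero_mul]
  have mulv' : ∀ (a b : AA), (∀ p ∈ D, eval p b = 0) → ∀ p ∈ D, eval p (a * b) = 0 := by
    intro a b ha p hp; rw [map_mul, ha p hp, mul_zero]
  obtain ⟨G1, hG1⟩ := lift g1 (h.cond g1 hg1)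
  obtain ⟨H1, hH1⟩ := lift (g1 * t) (h.cond _ (mulv _ _ hg1))
  obtain ⟨G2, hG2⟩ := lift g2 (h.cond g2 hg2)
  obtain ⟨H2, hH2⟩ := lift (g2 * t) (h.cond _ (mulv _ _ hg2))
  have hspan0 : ∀ a : AA, (∀ p ∈ D, eval p a = 0) → a ∈ Ideal.span {g1, g2} := by
    obtain ⟨u, -, hu⟩ := hQ4 (fun _ => 1) (fun _ _ => one_ne_zero)
    intro a ha
    have h1 := hu a ha
    refine (Ideal.span_le.2 ?_) h1
    intro z hz
    rcases hz with rfl | hz
    · exact Ideal.subset_span (by simp)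
    · rw [Set.mem_singleton_iff.1 hz]
      exact Ideal.mul_mem_left _ _ (Ideal.subset_span (by simp))
  have quadr_mem : quadr α β ∈ II x t := by
    show ev x t _ = 0
    rw [quadr, map_sub, map_sub, map_pow, map_mul, ev_C, ev_C, ev_X, hq]; ring
  have lin_mem : ∀ G H : RR, aeval x H = aeval x G * t → lin G H ∈ II x t := by
    intro G H hGH
    show ev x t _ = 0
    rw [lin, map_sub, map_mul, ev_C, ev_C, ev_X, hGH]; ring
  have hH1' : aeval x H1 = aeval x G1 * t := by rw [hH1, hG1]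
  have hH2' : aeval x H2 = aeval x G2 * t := by rw [hH2, hG2]
  have hI0 : II x t ≤ Ideal.span (Set.range ![quadr α β, lin G1 H1, lin G2 H2]) ⊔ (JJ x t).map Polynomial.C :=
    c1 x t D π h α β G1 H1 G2 H2 hq hH1' hH2' (by rw [hG1, hG2]; exact hspan0)
  have hf0 : ∀ i, (![quadr α β, lin G1 H1, lin G2 H2] : Fin 3 → Polynomial RR) i ∈ II x t := by
    intro i
    fin_cases i
    · exact quadr_mem
    · exact lin_mem _ _ hH1'
    · exact lin_mem _ _ hH2'
  have hd0 := c4 x t D π h U V hUV _ hf0 hI0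
  set d0 : AA := (MM x t V ![quadr α β, lin G1 H1, lin G2 H2]).det with hd0def
  obtain ⟨u, hu, hspan⟩ := hQ4 (fun q => (eval (π q) d0)⁻¹) (fun p hp => inv_ne_zero (hd0 (π p) (h.mem p hp)))
  have hug2 : ∀ p ∈ D, eval p (u * g2) = 0 := mulv' _ _ hg2
  obtain ⟨G3, hG3⟩ := lift (u * g2) (h.cond _ hug2)
  obtain ⟨H3, hH3⟩ := lift (u * g2 * t) (h.cond _ (mulv _ _ hug2))
  have hH3' : aeval x H3 = aeval x G3 * t := by rw [hH3, hG3]
  set f : Fin 3 → Polynomial RR := ![quadr α β, lin G1 H1, lin G3 H3] with hfdef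
  have hspan' : ∀ a : AA, (∀ p ∈ D, eval p a = 0) → a ∈ Ideal.span {aeval x G1, aeval x G3} := by
    rw [hG1, hG3]; exact hspan
  have hI : II x t ≤ Ideal.span (Set.range f) ⊔ (JJ x t).map Polynomial.C :=
    c1 x t D π h α β G1 H1 G3 H3 hq hH1' hH3' hspan'
  have hf : ∀ i, f i ∈ II x t := by
    intro i
    fin_cases i
    · exact quadr_mem
    · exact lin_mem _ _ hH1'
    · exact lin_mem _ _ hH3'
  have detMM : ∀ F : Fin 3 → Polynomial RR, (MM x t V F).det =
     tau x t (F 0) * (phi2 x t V 2 (F 1) * phi2 x t V 3 (F 2) - phi2 x t V 3 (F 1) * phi2 x t V 2 (F 2))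
     - phi2 x t V 2 (F 0) * (tau x t (F 1) * phi2 x t V 3 (F 2) - phi2 x t V 3 (F 1) * tau x t (F 2))
     + phi2 x t V 3 (F 0) * (tau x t (F 1) * phi2 x t V 2 (F 2) - phi2 x t V 2 (F 1) * tau x t (F 2)) := by
    intro F
    rw [Matrix.det_fin_three]
    simp [MM]
    ring
  have tau_lin : ∀ G H : RR, tau x t (lin G H) = aeval x G := by
    intro G H
    have : lin G H = Polynomial.C G * Polynomial.X + Polynomial.C (-H) := by
      rw [lin, map_neg]; ring
    rw [this, tau_add, tau_mul, tau_C, tau_C, tau_X, ev_C, ev_X]; ring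
  have hv1 : ∀ p ∈ D, eval p (aeval x G1) = 0 := by rw [hG1]; exact hg1
  have hv2 : ∀ p ∈ D, eval p (aeval x G2) = 0 := by rw [hG2]; exact hg2
  have hv3 : ∀ p ∈ D, eval p (aeval x G3) = 0 := by rw [hG3]; exact hug2
  have hphi : ∀ p ∈ D, ∀ k, eval p (phi2 x t V k (lin G3 H3)) = eval (π p) u * eval p (phi2 x t V k (lin G2 H2)) := by
    intro p hp k
    have := c4b x t D π h u G2 H2 G3 H3 hH2' (by rw [hG3, hG2]) (by rw [hH3, hG2]) hv2 p hp
    unfold phi2
    rw [map_sum, map_sum, Finset.mul_sum]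
    refine Finset.sum_congr rfl fun i _ => ?_
    rw [map_mul, map_mul, this i]; ring
  have hdet1 : ∀ p ∈ D, eval p (MM x t V f).det = 1 := by
    intro p hp
    have h1 : eval p (MM x t V f).det = eval (π p) u * eval p d0 := by
      rw [hd0def, detMM, detMM]
      simp only [hfdef, Matrix.cons_val_zero, Matrix.cons_val_one, Matrix.cons_val, map_add, map_sub, map_mul,
        hphi p hp, tau_lin, hv1 p hp, hv2 p hp, hv3 p hp]
      ring
    rw [h1, hu (π p) (h.mem p hp), h.inv p hp]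
    exact inv_mul_cancel₀ (hd0 p hp)
  -- the first column
  have hc0 : ∀ p ∈ D, eval p (tau x t (f 0)) ≠ 0 := by
    intro p hp h0
    have h1 := hdet1 p hp
    rw [detMM] at h1
    have e1 : tau x t (f 1) = aeval x G1 := tau_lin _ _
    have e2 : tau x t (f 2) = aeval x G3 := tau_lin _ _
    simp only [map_add, map_sub, map_mul, h0, e1, e2, hv1 p hp, hv3 p hp] at h1
    norm_num at h1
  obtain ⟨w, hw, -⟩ := hQ4 (fun p => (eval p (tau x t (f 0)))⁻¹) (by
    intro p hp
    exact inv_ne_zero (hc0 p hp))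
  have hcol : Ideal.span (Set.range fun i => tau x t (f i)) = ⊤ := by
    rw [Ideal.eq_top_iff_one]
    have h1 : (1 - w * tau x t (f 0)) ∈ Ideal.span {aeval x G1, aeval x G3} := by
      apply hspan'
      intro p hp
      rw [map_sub, map_mul, hw p hp, map_one, inv_mul_cancel₀ (hc0 p hp), sub_self]
    have h2 : Ideal.span {aeval x G1, aeval x G3} ≤ Ideal.span (Set.range fun i => tau x t (f i)) := by
      rw [Ideal.span_le]
      intro z hz
      rcases hz with rfl | hz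
      · exact Ideal.subset_span ⟨1, tau_lin _ _⟩
      · rw [Set.mem_singleton_iff.1 hz]
        exact Ideal.subset_span ⟨2, tau_lin _ _⟩
    have h3 : (1 : AA) = (1 - w * tau x t (f 0)) + w * tau x t (f 0) := by ring
    rw [h3]
    exact Ideal.add_mem _ (h2 h1) (Ideal.mul_mem_left _ _ (Ideal.subset_span ⟨0, rfl⟩))
  obtain ⟨Cc, hCdet, hCcol⟩ := Q2 _ hcol
  let c : Ideal AA :=
    { carrier := {a | ∀ p ∈ D, eval p a = 0}
      add_mem' := by
        intro a b ha hb p hp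
        rw [map_add, ha p hp, hb p hp, add_zero]
      zero_mem' := by intro p _; exact map_zero _
      smul_mem' := by
        intro a b hb p hp
        rw [smul_eq_mul, map_mul, hb p hp, mul_zero] }
  have hcm : ∀ a, a ∈ c ↔ ∀ p ∈ D, eval p a = 0 := fun a => Iff.rfl
  obtain ⟨M', hM'det, hM'col, hM'⟩ := la_lift c (MM x t V f)
    (by
      rw [hcm]; intro p hp
      rw [map_sub, hdet1 p hp, map_one, sub_self]) Cc hCdet
    (by intro i; rw [hCcol i]; simp [MM])
    (by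
      intro G hG
      obtain ⟨G', hG'1, hG'2⟩ := Q3 D h.fin G (by
        intro p hp
        have := hG p hp
        rw [map_sub, map_one] at this
        linear_combination this)
      refine ⟨G', hG'1, fun i k => ?_⟩
      rw [hcm]; intro p hp
      rw [map_sub, hG'2 i k p hp, sub_self])
  have hrow : ∀ i, ∃ j0 j1 : RR, aeval x j0 = 0 ∧ aeval x j1 = 0 ∧
      phi2 x t V 2 (Polynomial.C j0 + Polynomial.C j1 * Polynomial.X) = M' i 1 - MM x t V f i 1 ∧
      phi2 x t V 3 (Polynomial.C j0 + Polynomial.C j1 * Polynomial.X) = M' i 2 - MM x t V f i 2 := by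
    intro i
    exact c5 x t D π h U V hUV α β G1 H1 G3 H3 hq hH1' hH3' hv1 hv3 hspan' _ _
      ((hcm _).1 (hM' i 1)) ((hcm _).1 (hM' i 2))
  choose j0 j1 hj0 hj1 hr2 hr3 using hrow
  set F : Fin 3 → Polynomial RR := fun i => f i + (Polynomial.C (j0 i) + Polynomial.C (j1 i) * Polynomial.X) with hFdef
  have hphiadd : ∀ k (P Q : Polynomial RR), phi2 x t V k (P + Q) = phi2 x t V k P + phi2 x t V k Q := by
    intro k P Q
    unfold phi2
    rw [← Finset.sum_add_distrib]
    refine Finset.sum_congr rfl fun i _ => ?_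
    rw [gr_add]; ring
  have hMMF : MM x t V F = M' := by
    refine Matrix.ext fun i k => ?_
    fin_cases k
    · have h1 : tau x t (F i) = tau x t (f i) := by
        rw [hFdef]
        simp only
        rw [tau_add, tau_add, tau_mul, tau_C, tau_C, tau_X, ev_C, ev_X, hj1 i]; ring
      have h2 : MM x t V F i 0 = MM x t V f i 0 := h1
      show MM x t V F i 0 = M' i 0
      rw [h2, hM'col i]
    · show phi2 x t V 2 (F i) = M' i 1
      rw [hFdef]
      simp only
      rw [hphiadd, hr2 i]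
      have h1 : MM x t V f i 1 = phi2 x t V 2 (f i) := rfl
      rw [h1]; ring
    · show phi2 x t V 3 (F i) = M' i 2
      rw [hFdef]
      simp only
      rw [hphiadd, hr3 i]
      have h1 : MM x t V f i 2 = phi2 x t V 3 (f i) := rfl
      rw [h1]; ring
  have hCj : ∀ j : RR, aeval x j = (0 : AA) → j ∈ JJ x t := by
    intro j hj
    show ev x t (Polynomial.C j) = 0
    rw [ev_C, hj]
  have hdelta : ∀ i, (Polynomial.C (j0 i) + Polynomial.C (j1 i) * Polynomial.X : Polynomial RR) ∈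
      (JJ x t).map (Polynomial.C : RR →+* Polynomial RR) := by
    intro i
    exact Ideal.add_mem _ (Ideal.mem_map_of_mem _ (hCj _ (hj0 i)))
      (Ideal.mul_mem_right _ _ (Ideal.mem_map_of_mem _ (hCj _ (hj1 i))))
  have hJI : (JJ x t).map (Polynomial.C : RR →+* Polynomial RR) ≤ II x t := by
    rw [Ideal.map_le_iff_le_comap]; exact le_rfl
  have hF : ∀ i, F i ∈ II x t := fun i => Ideal.add_mem _ (hf i) (hJI (hdelta i))
  have hmon : (F 0).Monic := by
    have : F 0 = Polynomial.X ^ 2 + (Polynomial.C (j1 0 - α) * Polynomial.X + Polynomial.C (j0 0 - β)) := by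
      rw [hFdef, hfdef]
      simp only [Matrix.cons_val_zero, quadr, map_sub]
      ring
    rw [this]
    monicity!
  have hB := cB x t h.gen U V hUV F hF (by rw [hMMF]; exact hM'det)
  have hIF : II x t ≤ Ideal.span (Set.range F) ⊔ (JJ x t).map (Polynomial.C : RR →+* Polynomial RR) := by
    refine hI.trans (sup_le ?_ le_sup_right)
    rw [Ideal.span_le]
    rintro _ ⟨i, rfl⟩
    have : f i = F i - (Polynomial.C (j0 i) + Polynomial.C (j1 i) * Polynomial.X) := by
      rw [hFdef]; simp only; ring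
    rw [this]
    exact Ideal.sub_mem _ (Ideal.mem_sup_left (Ideal.subset_span ⟨i, rfl⟩)) (Ideal.mem_sup_right (hdelta i))
  have hfin : II x t ≤ Ideal.span (Set.range F) ⊔
      ((II x t).comap (Polynomial.C : RR →+* Polynomial RR)).map (Polynomial.C : RR →+* Polynomial RR) * II x t := by
    have h1 : II x t * II x t ≤ Ideal.span (Set.range F) ⊔ (JJ x t).map (Polynomial.C : RR →+* Polynomial RR) * II x t := by
      have h2 : II x t * II x t ≤ (Ideal.span (Set.range F) ⊔ (JJ x t).map (Polynomial.C : RR →+* Polynomial RR)) * II x t :=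
        Ideal.mul_mono hIF le_rfl
      rw [Ideal.sup_mul] at h2
      exact h2.trans (sup_le_sup Ideal.mul_le_left le_rfl)
    exact hB.trans (sup_le le_sup_left h1)
  obtain ⟨s, j, hsj, hj, hs⟩ := nak (II x t) F hF hmon hfin
  exact lemmaP (II x t) F hF hmon s j hsj hj hs

end Asm

end PL
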