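import Mathlib
import Pool.Agent.Helper722.PL.ModC
import Pool.Agent.Helper135.PL.ModH
import Pool.Agent.Helper367.PL.GM
set_option autoImplicit false
open MvPolynomial

namespace PL

/-- the change of variables `X_i ↦ C (X i)` (i<4), `X_4 ↦ T` -/
noncomputable def eT : MvPolynomial (Fin 5) ℂ ≃ₐ[ℂ] Polynomial RR :=
  (renameEquiv ℂ (finRotate 5)).trans (finSuccEquiv ℂ 4)

theorem eT_castSucc (i : Fin 4) : eT (X (Fin.castSucc i)) = Polynomial.C (X i) := by
  have h : finRotate 5 (Fin.castSucc i) = i.succ := by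
    fin_cases i <;> decide
  simp [eT, h, finSuccEquiv_X_succ]

theorem eT_last : eT (X (Fin.last 4)) = Polynomial.X := by
  have h : finRotate 5 (Fin.last 4) = 0 := by decide
  simp [eT, h, finSuccEquiv_X_zero]

/-- final glue -/
theorem final (α : MvPolynomial (Fin 5) ℂ →ₐ[ℂ] MvPolynomial (Fin 2) ℂ) (hα : Function.Surjective α) :
    ∃ f : Fin 3 → MvPolynomial (Fin 5) ℂ, Ideal.span (Set.range f) = RingHom.ker α := by
  obtain ⟨θ, hθ⟩ := modG α hα
  obtain ⟨D, π, hD⟩ := modH _ _ hθ
  obtain ⟨g, hg⟩ := modC _ _ D π hD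
  set x : Fin 4 → AA := fun i : Fin 4 => α (θ (X (Fin.castSucc i))) with hx
  set t : AA := α (θ (X (Fin.last 4))) with ht
  have key : ∀ F : MvPolynomial (Fin 5) ℂ, ev x t (eT F) = α (θ F) := by
    intro F
    have : ((ev x t).comp (eT : MvPolynomial (Fin 5) ℂ ≃ₐ[ℂ] Polynomial RR).toRingEquiv.toRingHom)
        = (α.comp θ.toAlgHom).toRingHom := by
      apply MvPolynomial.ringHom_ext
      · intro r
        have h1 : eT (C r) = Polynomial.C (C r) := by
          have := eT.commutes r
          simpa [MvPolynomial.algebraMap_eq, Polynomial.algebraMap_apply] using this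
        have h2 : (α.comp θ.toAlgHom) (C r) = C r := by
          have := (α.comp θ.toAlgHom).commutes r
          simpa [MvPolynomial.algebraMap_eq] using this
        show ev x t (eT (C r)) = (α.comp θ.toAlgHom) (C r)
        rw [h1, h2]
        simp [ev]
      · intro i
        show ev x t (eT (X i)) = α (θ (X i))
        refine Fin.lastCases ?_ (fun i => ?_) i
        · rw [eT_last]; simp [ev, ht]
        · rw [eT_castSucc]; simp [ev, hx]
    exact RingHom.congr_fun this F
  refine ⟨fun i => θ (eT.symm (g i)), ?_⟩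
  apply le_antisymm
  · rw [Ideal.span_le]
    rintro _ ⟨i, rfl⟩
    have hgi : g i ∈ II x t := hg ▸ Ideal.subset_span ⟨i, rfl⟩
    have h0 : ev x t (g i) = 0 := hgi
    show α (θ (eT.symm (g i))) = 0
    rw [← key, AlgEquiv.apply_symm_apply, h0]
  · intro F hF
    have hF0 : α F = 0 := hF
    have h1 : eT (θ.symm F) ∈ II x t := by
      show ev x t (eT (θ.symm F)) = 0
      rw [key, AlgEquiv.apply_symm_apply, hF0]
    rw [← hg] at h1
    have h2 : (θ (eT.symm (eT (θ.symm F)))) ∈
        Ideal.map ((θ : MvPolynomial (Fin 5) ℂ →+* MvPolynomial (Fin 5) ℂ).comp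
          (eT.symm : Polynomial RR →+* MvPolynomial (Fin 5) ℂ)) (Ideal.span (Set.range g)) :=
      Ideal.mem_map_of_mem ((θ : MvPolynomial (Fin 5) ℂ →+* MvPolynomial (Fin 5) ℂ).comp
          (eT.symm : Polynomial RR →+* MvPolynomial (Fin 5) ℂ)) h1
    rw [AlgEquiv.symm_apply_apply, AlgEquiv.apply_symm_apply, Ideal.map_span, ← Set.range_comp] at h2
    exact h2
end PL
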